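import Pool.Agent.P8H14.PL.L7
import Pool.Agent.P8H13.GK.Zero
import Pool.Agent.P8H14.QP.D2

set_option autoImplicit false

/-!
# The good scales for the primes
-/

open Finset Filter Topology

namespace Pool.Agent.P8H14.PL

open Pool.Agent.TH823.PS
open Pool.Agent.H373R2.T7 (fz exI energy)
open Pool.Agent.P8H13.GK
open Pool.Agent.P8H14.QP (ev_t sav sav_pos sav_mono sav_large log_ev)
open Pool.Agent.P8H14.QP.Len (sav_mul sav_one_le sav_log)

/-- a good scale, with the parameter `l` -/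
def LS (c C c1 c' : ℝ) (l : ℝ) (N : ℕ) : Prop := Reg c C (12 * l) ∧ l ≤ Real.log N ∧ Real.log N ≤ 18 * l ^ 2 ∧
  2 * (l * Real.log (Real.log N)) ≤ c1 * Real.log N ∧ c' * Real.log N / Real.log (Real.log N) ≤ l

/-- **most scales are good** -/
theorem most_LS : ∃ c C : ℝ, 0 < c ∧ c ≤ 1 / 8 ∧ 0 < C ∧ ∀ c1 : ℝ, 0 < c1 → c1 ≤ 1 → ∀ ε : ℝ, 0 < ε →
    ∃ c' : ℝ, 0 < c' ∧ ∀ L0 : ℝ, Most ε (fun N => ∃ l : ℝ, L0 ≤ l ∧ LS c C c1 c' l N) := by
  classical
  obtain ⟨c, C, hc, hc8, hC, hreg⟩ := region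
  refine ⟨c, C, hc, hc8, hC, fun c1 hc1 hc11 ε hε => ?_⟩
  set K : ℝ := 8 / ε + 4 with hK
  have hK0 : 0 < K := by positivity
  have hK4 : 4 ≤ K := by
    have : 0 < 8 / ε := by positivity
    linarith
  have hKε : 8 ≤ ε * K := by
    rw [hK, mul_add, mul_div_cancel₀ _ hε.ne']
    linarith
  refine ⟨c1 / (2 * K), by positivity, fun L0 R0 => ?_⟩
  obtain ⟨t0, ht0, hev⟩ := ev_t (K + K / c1 ^ 2) c1 (R0 + 1) hc1
  obtain ⟨l12, hl12a, hl12b, hregl⟩ := hreg (12 * max (c1 * t0) L0)
  set l : ℝ := l12 / 12 with hl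
  have hl12 : 12 * l = l12 := by rw [hl]; ring
  have hla : max (c1 * t0) L0 ≤ l := by linarith
  have hRg : Reg c C (12 * l) := by
    rw [hl12]
    intro q _ hq χ hχ z h1 h2 h3
    exact hregl q hq χ hχ z h1 h2 h3
  have hlL0 : L0 ≤ l := (le_max_right _ _).trans hla
  have hlt0 : c1 * t0 ≤ l := (le_max_left _ _).trans hla
  set t : ℝ := 2 * l / c1 with ht
  have hqt : l = c1 * t / 2 := by rw [ht]; field_simp
  have htt : t0 ≤ t := by
    rw [ht, le_div_iff₀ hc1]
    have h3 : 0 < c1 * t0 := by positivity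
    linarith
  obtain ⟨hv1, hv2, hv3⟩ := hev t htt
  have ht3 : 3 ≤ t := ht0.trans htt
  have htp : 0 < t := by linarith
  set lt : ℝ := Real.log t with hlt
  have hlt1 : 1 ≤ lt := by
    rw [hlt, Real.le_log_iff_exp_le htp]
    have := Real.exp_one_lt_d9
    linarith
  have hKlt : K * lt ≤ t := by
    have : 0 ≤ K / c1 ^ 2 * lt := by positivity
    have h2 : (K + K / c1 ^ 2) * lt = K * lt + K / c1 ^ 2 * lt := by ring
    linarith
  have hKlt2 : K * lt ≤ c1 ^ 2 * t := by
    have h1 : K / c1 ^ 2 * lt ≤ t := by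
      have : 0 ≤ K * lt := by positivity
      have h2 : (K + K / c1 ^ 2) * lt = K * lt + K / c1 ^ 2 * lt := by ring
      linarith
    have h2 : c1 ^ 2 * (K / c1 ^ 2 * lt) = K * lt := by field_simp
    calc K * lt = c1 ^ 2 * (K / c1 ^ 2 * lt) := h2.symm
      _ ≤ _ := by gcongr
  have htl : t ≤ t * lt := le_mul_of_one_le_right htp.le hlt1
  set R : ℕ := ⌊Real.exp (K * (t * lt))⌋₊ with hR
  have hKt : 4 * (t * lt) ≤ K * (t * lt) := by gcongr
  have hR0 : R0 ≤ R := by
    apply Nat.le_floor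
    have h1 := Real.add_one_le_exp (K * (t * lt))
    have h2 : t * lt ≤ 4 * (t * lt) := by linarith
    linarith
  have hRle : (R : ℝ) ≤ Real.exp (K * (t * lt)) := Nat.floor_le (Real.exp_pos _).le
  have hRge : Real.exp (K * (t * lt)) / 2 ≤ R := by
    have h1 := (Nat.lt_floor_add_one (Real.exp (K * (t * lt)))).le
    rw [← hR] at h1
    have h2 := Real.add_one_le_exp (K * (t * lt))
    linarith
  have hRp : (0 : ℝ) < R := lt_of_lt_of_le (by positivity) hRge
  have hlR : K * (t * lt) - 1 ≤ Real.log R := by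
    rw [Real.le_log_iff_exp_le hRp, Real.exp_sub]
    refine le_trans ?_ hRge
    apply div_le_div_of_nonneg_left (Real.exp_pos _).le (by norm_num)
    have := Real.add_one_le_exp (1 : ℝ)
    linarith
  refine ⟨R, hR0, ?_⟩
  -- the bad scales are small
  have hsub : (Icc 1 R).filter (fun N => ¬ ∃ l : ℝ, L0 ≤ l ∧ LS c C c1 (c1 / (2 * K)) l N) ⊆
      Icc 1 ⌊Real.exp (2 * (t * lt))⌋₊ := by
    intro N hN
    rw [mem_filter, mem_Icc] at hN
    obtain ⟨⟨hN1, hNR⟩, hbad⟩ := hN
    rw [mem_Icc]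
    refine ⟨hN1, ?_⟩
    by_contra hcon
    rw [not_le] at hcon
    apply hbad
    have hNp : (0 : ℝ) < N := by exact_mod_cast hN1
    have hx1 : 2 * (t * lt) ≤ Real.log N := by
      rw [Real.le_log_iff_exp_le hNp]
      exact (Nat.lt_of_floor_lt hcon).le
    have hx2 : Real.log N ≤ K * (t * lt) := by
      rw [Real.log_le_iff_le_exp hNp]
      exact le_trans (by exact_mod_cast hNR) hRle
    have hxt : t ≤ Real.log N := by linarith
    have hxp : 0 < Real.log N := by linarith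
    have hlx1 : lt ≤ Real.log (Real.log N) := Real.log_le_log htp hxt
    have hlx2 : Real.log (Real.log N) ≤ 2 * lt := by
      have h1 : Real.log N ≤ t * t := by
        refine hx2.trans ?_
        calc K * (t * lt) = t * (K * lt) := by ring
          _ ≤ t * t := by gcongr
      have h2 := Real.log_le_log hxp h1
      rw [Real.log_mul htp.ne' htp.ne'] at h2
      linarith
    refine ⟨l, hlL0, hRg, ?_, ?_, ?_, ?_⟩
    · rw [hqt]
      have h1 : c1 * t ≤ 1 * t := by gcongr
      linarith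
    · rw [hqt]
      refine hx2.trans ?_
      calc K * (t * lt) = t * (K * lt) := by ring
        _ ≤ t * (c1 ^ 2 * t) := by gcongr
        _ = (c1 * t) ^ 2 := by ring
        _ ≤ 18 * (c1 * t / 2) ^ 2 := by
            have : 0 ≤ (c1 * t) ^ 2 := sq_nonneg _
            have h2 : 18 * (c1 * t / 2) ^ 2 = 9 / 2 * (c1 * t) ^ 2 := by ring
            linarith
    · rw [hqt]
      have h1 : t * Real.log (Real.log N) ≤ t * (2 * lt) := mul_le_mul_of_nonneg_left hlx2 htp.le
      have h2 : t * (2 * lt) = 2 * (t * lt) := by ring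
      have h3 : c1 * (t * Real.log (Real.log N)) ≤ c1 * Real.log N :=
        mul_le_mul_of_nonneg_left (by linarith) hc1.le
      calc 2 * (c1 * t / 2 * Real.log (Real.log N)) = c1 * (t * Real.log (Real.log N)) := by ring
        _ ≤ _ := h3
    · rw [div_le_iff₀ (by linarith)]
      calc c1 / (2 * K) * Real.log N ≤ c1 / (2 * K) * (K * (t * lt)) := by gcongr
        _ = c1 * t / 2 * lt := by field_simp
        _ = l * lt := by rw [← hqt]
        _ ≤ l * Real.log (Real.log N) := by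
            have : 0 ≤ l := by rw [hqt]; positivity
            gcongr
  have h1 : ∑ N ∈ (Icc 1 R).filter (fun N => ¬ ∃ l : ℝ, L0 ≤ l ∧ LS c C c1 (c1 / (2 * K)) l N), (1 : ℝ) / N ≤
      1 + 2 * (t * lt) := by
    refine (sum_le_sum_of_subset_of_nonneg hsub (fun _ _ _ => by positivity)).trans ?_
    refine (harm_one _).trans ?_
    have h2 : 1 ≤ ⌊Real.exp (2 * (t * lt))⌋₊ := by
      rw [Nat.one_le_floor_iff]
      exact Real.one_le_exp (by positivity)
    have h3 : Real.log (⌊Real.exp (2 * (t * lt))⌋₊ : ℝ) ≤ 2 * (t * lt) := by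
      rw [Real.log_le_iff_le_exp (by exact_mod_cast h2)]
      exact Nat.floor_le (Real.exp_pos _).le
    linarith
  refine h1.trans ?_
  have h2 : K * (t * lt) / 2 ≤ Real.log R := by linarith
  calc 1 + 2 * (t * lt) ≤ 4 * (t * lt) := by linarith
    _ = 8 * (t * lt) / 2 := by ring
    _ ≤ (ε * K) * (t * lt) / 2 := by gcongr
    _ = ε * (K * (t * lt) / 2) := by ring
    _ ≤ ε * Real.log R := by gcongr

end Pool.Agent.P8H14.PL
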