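import Pool.Agent.P8H14.PL.M6
import Pool.Agent.P8H13.GK.Split

set_option autoImplicit false

/-!
# Sums of a function against a product of models
-/

namespace Pool.Agent.P8H14.PL

open Finset
open Pool.Agent.H807R2.Dav
open Pool.Agent.TH823.PS (rr mem_rr)
open Pool.Agent.P8H13.PK
open Pool.Agent.P8H13.GK

lemma ee_ne_one {M : ℕ} (hM : 0 < M) {k : ℤ} (h : ¬ (M : ℤ) ∣ k) : ee ((k : ℝ) / M) ≠ 1 := by
  have hM0 : (0 : ℝ) < M := by exact_mod_cast hM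
  intro h2
  unfold ee at h2
  rw [Complex.exp_eq_one_iff] at h2
  obtain ⟨n, hn⟩ := h2
  have h3 : ((k : ℝ) / M : ℂ) = n := by
    have h4 : (2 * Real.pi * Complex.I : ℂ) ≠ 0 := by
      simp [Real.pi_ne_zero]
    have h5 : (2 * Real.pi * Complex.I : ℂ) * (((k : ℝ) / M : ℝ) : ℂ) = (2 * Real.pi * Complex.I : ℂ) * n := by
      rw [hn]; ring
    have := mul_left_cancel₀ h4 h5
    push_cast at this ⊢
    exact this
  have h4 : (k : ℝ) / M = n := by exact_mod_cast h3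
  rw [div_eq_iff hM0.ne'] at h4
  have h5 : k = n * M := by exact_mod_cast h4
  exact h ⟨n, by rw [h5]; ring⟩

lemma per_mul {M : Type*} {G : ℕ → M} {P : ℕ} (hper : ∀ n, G (n + P) = G n) (n k : ℕ) : G (n + P * k) = G n := by
  induction k with
  | zero => simp
  | succ k ih => rw [Nat.mul_succ, ← add_assoc, hper, ih]

lemma per_shift {G : ℕ → ℂ} {P : ℕ} (hper : ∀ n, G (n + P) = G n) (R : ℕ) :
    ∑ n ∈ range P, G (n + R) = ∑ n ∈ range P, G n := by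
  induction R with
  | zero => simp
  | succ R ih =>
    rw [← ih]
    have h1 := sum_range_succ (fun n => G (n + R)) P
    have h2 := sum_range_succ' (fun n => G (n + R)) P
    have h3 : G (P + R) = G (0 + R) := by rw [add_comm P R, hper, zero_add]
    rw [h1] at h2
    rw [h3] at h2
    have h4 := add_right_cancel h2
    rw [h4]
    apply sum_congr rfl
    intro n _
    rw [show n + (R + 1) = n + 1 + R by ring]

/-- Fourier inversion for a periodic function -/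
lemma four_inv {P : ℕ} (hP : 0 < P) {G : ℕ → ℂ} (hper : ∀ n, G (n + P) = G n) (n : ℕ) :
    (P : ℂ) * G n = ∑ j ∈ range P, (∑ m ∈ range P, G m * ee (-(j * ((m : ℝ) / P)))) * ee (n * ((j : ℝ) / P)) := by
  have hP0 : (P : ℝ) ≠ 0 := by positivity
  have h1 : ∀ j ∈ range P, (∑ m ∈ range P, G m * ee (-(j * ((m : ℝ) / P)))) * ee (n * ((j : ℝ) / P)) =
      ∑ m ∈ range P, G m * ee ((j : ℝ) * (((((n : ℤ) - m : ℤ)) : ℝ) / P)) := by
    intro j _
    rw [sum_mul]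
    apply sum_congr rfl
    intro m _
    rw [mul_assoc, ← ee_add]
    congr 2
    push_cast
    field_simp
    ring
  rw [sum_congr rfl h1, sum_comm]
  simp_rw [← mul_sum]
  have h2 : ∀ m ∈ range P, G m * ∑ j ∈ range P, ee ((j : ℝ) * (((((n : ℤ) - m : ℤ)) : ℝ) / P)) =
      if m = n % P then (P : ℂ) * G n else 0 := by
    intro m hm
    rw [mem_range] at hm
    rw [orth hP]
    by_cases h : m = n % P
    · rw [if_pos h, if_pos]
      · have h3 : G n = G (n % P) := by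
          conv_lhs => rw [← Nat.mod_add_div n P]
          exact per_mul hper _ _
        rw [h3, ← h]
        ring
      · rw [h]
        push_cast
        exact Int.dvd_self_sub_emod
    · rw [if_neg h, if_neg, mul_zero]
      intro h3
      apply h
      have h4 : m % P = n % P := Nat.modEq_iff_dvd.2 h3
      rw [← h4, Nat.mod_eq_of_lt hm]
  rw [sum_congr rfl h2, sum_ite_eq', if_pos (mem_range.2 (Nat.mod_lt _ hP))]

/-- **sums against a periodic function whose frequencies have small denominators** -/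
theorem det_sum {P F X : ℕ} (hP : 0 < P) {G : ℕ → ℂ} (hper : ∀ n, G (n + P) = G n)
    (hsupp : ∀ j < P, (¬ ∃ q ∈ Icc 1 F, P ∣ q * j) → ∑ m ∈ range P, G m * ee (-(j * ((m : ℝ) / P))) = 0) (D : ℕ → ℂ) :
    P * ‖∑ n ∈ range X, D n * G n‖ ^ 2 ≤ (∑ m ∈ range P, ‖G m‖ ^ 2) *
      ∑ q ∈ Icc 1 F, ∑ a ∈ rr q, ‖∑ n ∈ range X, D n * ee (n * ((a : ℝ) / q))‖ ^ 2 := by
  classical
  have hP0 : (0 : ℝ) < P := by exact_mod_cast hP
  set c : ℕ → ℂ := fun j => ∑ m ∈ range P, G m * ee (-(j * ((m : ℝ) / P))) with hc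
  set J := (range P).filter (fun j => ∃ q ∈ Icc 1 F, P ∣ q * j) with hJ
  set S : ℕ → ℂ := fun j => ∑ n ∈ range X, D n * ee (n * ((j : ℝ) / P)) with hS
  have h1 : (P : ℂ) * ∑ n ∈ range X, D n * G n = ∑ j ∈ J, c j * S j := by
    have e1 : (P : ℂ) * ∑ n ∈ range X, D n * G n = ∑ j ∈ range P, c j * S j := by
      rw [mul_sum]
      simp_rw [hS, mul_sum]
      rw [sum_comm]
      apply sum_congr rfl
      intro n _
      rw [mul_left_comm, four_inv hP hper n, mul_sum]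
      apply sum_congr rfl
      intro j _
      rw [hc]
      ring
    rw [e1, hJ, sum_filter]
    apply sum_congr rfl
    intro j hj
    split_ifs with h
    · rfl
    · rw [hc]
      simp only
      rw [hsupp j (mem_range.1 hj) h, zero_mul]
  have h2 : ∑ j ∈ range P, ‖c j‖ ^ 2 = P * ∑ m ∈ range P, ‖G m‖ ^ 2 := pars_neg hP G
  -- the frequencies as fractions
  have h3 : ∑ j ∈ J, ‖S j‖ ^ 2 ≤ ∑ q ∈ Icc 1 F, ∑ a ∈ rr q, ‖∑ n ∈ range X, D n * ee (n * ((a : ℝ) / q))‖ ^ 2 := by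
    rw [sum_sigma']
    set φ : ℕ → (Σ _ : ℕ, ℕ) := fun j => ⟨P / Nat.gcd j P, j / Nat.gcd j P⟩ with hφ
    have hg : ∀ j, 0 < Nat.gcd j P := fun j => Nat.gcd_pos_of_pos_right _ hP
    have hfr : ∀ j, (((j / Nat.gcd j P : ℕ) : ℝ) / ((P / Nat.gcd j P : ℕ) : ℝ)) = (j : ℝ) / P := by
      intro j
      have hg0 : ((Nat.gcd j P : ℕ) : ℝ) ≠ 0 := by
        have := hg j
        positivity
      rw [Nat.cast_div (Nat.gcd_dvd_left j P) hg0, Nat.cast_div (Nat.gcd_dvd_right j P) hg0]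
      field_simp
    have hinj : Set.InjOn φ (J : Set ℕ) := by
      intro j _ j' _ h
      rw [hφ] at h
      simp only [Sigma.mk.injEq, heq_eq_eq] at h
      have e1 := hfr j
      have e2 := hfr j'
      rw [h.1, h.2, e2] at e1
      rw [div_left_inj' hP0.ne'] at e1
      exact_mod_cast e1.symm
    have hval : ∀ j ∈ J, ‖S j‖ ^ 2 = ‖∑ n ∈ range X, D n * ee (n * (((φ j).2 : ℝ) / (φ j).1))‖ ^ 2 := by
      intro j _
      rw [hS, hφ]
      simp only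
      rw [hfr j]
    rw [sum_congr rfl hval, ← sum_image (f := fun s : (Σ _ : ℕ, ℕ) => ‖∑ n ∈ range X, D n * ee (n * ((s.2 : ℝ) / s.1))‖ ^ 2) hinj]
    apply sum_le_sum_of_subset_of_nonneg
    · intro s hs
      rw [mem_image] at hs
      obtain ⟨j, hj, rfl⟩ := hs
      rw [hJ, mem_filter, mem_range] at hj
      obtain ⟨hjP, q, hq, hdvd⟩ := hj
      rw [mem_Icc] at hq
      rw [mem_sigma, mem_Icc, mem_rr]
      have hgj := hg j
      have hPg : 0 < P / Nat.gcd j P := Nat.div_pos (Nat.le_of_dvd hP (Nat.gcd_dvd_right j P)) hgj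
      refine ⟨⟨hPg, ?_⟩, ?_, ?_⟩
      · refine le_trans (Nat.le_of_dvd hq.1 ?_) hq.2
        have e1 : (P / Nat.gcd j P) * Nat.gcd j P ∣ (q * (j / Nat.gcd j P)) * Nat.gcd j P := by
          rw [Nat.div_mul_cancel (Nat.gcd_dvd_right j P), mul_assoc, Nat.div_mul_cancel (Nat.gcd_dvd_left j P)]
          exact hdvd
        have e2 := Nat.dvd_of_mul_dvd_mul_right hgj e1
        exact (Nat.Coprime.dvd_of_dvd_mul_right (Nat.coprime_div_gcd_div_gcd hgj).symm e2)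
      · exact Nat.div_lt_div_of_lt_of_dvd (Nat.gcd_dvd_right j P) hjP
      · exact Nat.coprime_div_gcd_div_gcd hgj
    · intro _ _ _; positivity
  have h4 : ‖∑ j ∈ J, c j * S j‖ ^ 2 ≤ (∑ j ∈ J, ‖c j‖ ^ 2) * ∑ j ∈ J, ‖S j‖ ^ 2 := by
    have e1 : ‖∑ j ∈ J, c j * S j‖ ≤ ∑ j ∈ J, ‖c j‖ * ‖S j‖ := by
      refine (norm_sum_le _ _).trans (le_of_eq ?_)
      apply sum_congr rfl; intro j _; rw [norm_mul]
    exact (pow_le_pow_left₀ (norm_nonneg _) e1 2).trans (sum_mul_sq_le_sq_mul_sq _ _ _)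
  have h5 : ∑ j ∈ J, ‖c j‖ ^ 2 ≤ P * ∑ m ∈ range P, ‖G m‖ ^ 2 := by
    rw [← h2]
    exact sum_le_sum_of_subset_of_nonneg (filter_subset _ _) fun _ _ _ => sq_nonneg _
  have h6 : (P : ℝ) * (P * ‖∑ n ∈ range X, D n * G n‖ ^ 2) ≤ P * ((∑ m ∈ range P, ‖G m‖ ^ 2) *
      ∑ q ∈ Icc 1 F, ∑ a ∈ rr q, ‖∑ n ∈ range X, D n * ee (n * ((a : ℝ) / q))‖ ^ 2) := by
    calc (P : ℝ) * (P * ‖∑ n ∈ range X, D n * G n‖ ^ 2) = ‖(P : ℂ) * ∑ n ∈ range X, D n * G n‖ ^ 2 := by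
          rw [norm_mul, mul_pow, Complex.norm_natCast]; ring
      _ = ‖∑ j ∈ J, c j * S j‖ ^ 2 := by rw [h1]
      _ ≤ (∑ j ∈ J, ‖c j‖ ^ 2) * ∑ j ∈ J, ‖S j‖ ^ 2 := h4
      _ ≤ (P * ∑ m ∈ range P, ‖G m‖ ^ 2) *
        ∑ q ∈ Icc 1 F, ∑ a ∈ rr q, ‖∑ n ∈ range X, D n * ee (n * ((a : ℝ) / q))‖ ^ 2 := by
          apply mul_le_mul h5 h3 (sum_nonneg fun _ _ => sq_nonneg _)
          exact mul_nonneg hP0.le (sum_nonneg fun _ _ => sq_nonneg _)
      _ = _ := by ring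
  exact le_of_mul_le_mul_left h6 hP0

/-- the frequencies of a product of models have small denominators -/
lemma mo_supp {k Q F : ℕ} (hF : Q ^ k ≤ F) (h : Fin k → ℕ) {j : ℕ}
    (hj : ¬ ∃ q ∈ Icc 1 F, Pr Q ∣ q * j) :
    ∑ m ∈ range (Pr Q), ((∏ i, mo 1 Q 0 (m + h i) : ℝ) : ℂ) * ee (-(j * ((m : ℝ) / Pr Q))) = 0 := by
  classical
  have hP := Pr_pos Q
  have hP0 : ((Pr Q : ℕ) : ℝ) ≠ 0 := by positivity
  have h1 : ∀ m : ℕ, ((∏ i, mo 1 Q 0 (m + h i) : ℝ) : ℂ) =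
      ∑ r ∈ Fintype.piFinset (fun _ : Fin k => RQ 1 Q), ((∏ i, hr (r i) (m + h i) : ℝ) : ℂ) := by
    intro m
    rw [← Complex.ofReal_sum]
    congr 1
    unfold mo
    rw [prod_univ_sum]
    apply sum_congr rfl
    intro r _
    apply prod_congr rfl
    intro i _
    rw [zero_add, one_mul]
  simp_rw [h1, sum_mul]
  rw [sum_comm]
  apply sum_eq_zero
  intro r hr'
  rw [Fintype.mem_piFinset] at hr'
  have hr1 : ∀ i, 1 ≤ r i ∧ r i ≤ Q := fun i => (mem_RQ.1 (hr' i)).1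
  set R := ∏ i, r i with hR
  have hR1 : 1 ≤ R := Nat.one_le_iff_ne_zero.2 (prod_ne_zero_iff.2 fun i _ => by have := (hr1 i).1; omega)
  have hRF : R ≤ F := by
    refine le_trans ?_ hF
    calc R ≤ ∏ _i : Fin k, Q := prod_le_prod' fun i _ => (hr1 i).2
      _ = Q ^ k := by rw [prod_const, card_univ, Fintype.card_fin]
  set s : ℕ → ℂ := fun m => ((∏ i, hr (r i) (m + h i) : ℝ) : ℂ) * ee (-(j * ((m : ℝ) / Pr Q))) with hs
  -- periodicity of the products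
  have hp1 : ∀ m, (∏ i, hr (r i) (m + R + h i)) = ∏ i, hr (r i) (m + h i) := by
    intro m
    apply prod_congr rfl
    intro i _
    obtain ⟨c, hc⟩ : r i ∣ R := dvd_prod_of_mem _ (mem_univ i)
    rw [show m + R + h i = m + h i + r i * c by rw [← hc]; ring, hr_add]
  have hdP : ∀ i, r i ∣ Pr Q := by
    intro i
    have hsq := (mem_RQ.1 (hr' i)).2.1
    rw [← Nat.prod_primeFactors_of_squarefree hsq]
    unfold Pr
    apply prod_dvd_prod_of_subset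
    intro p hp
    exact mem_PQs.2 ⟨(Nat.le_of_dvd (hr1 i).1 (Nat.dvd_of_mem_primeFactors hp)).trans (hr1 i).2,
      Nat.prime_of_mem_primeFactors hp⟩
  have hp2 : ∀ m, (∏ i, hr (r i) (m + Pr Q + h i)) = ∏ i, hr (r i) (m + h i) := by
    intro m
    apply prod_congr rfl
    intro i _
    obtain ⟨c, hc⟩ := hdP i
    rw [show m + Pr Q + h i = m + h i + r i * c by rw [← hc]; ring, hr_add]
  have hper : ∀ m, s (m + Pr Q) = s m := by
    intro m
    rw [hs]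
    simp only
    rw [hp2]
    congr 1
    rw [show -((j : ℝ) * (((m + Pr Q : ℕ) : ℝ) / Pr Q)) = -(j * ((m : ℝ) / Pr Q)) + (((-(j : ℤ)) : ℤ) : ℝ) by
      push_cast; field_simp; ring, ee_add_int]
  have hsh : ∀ m, s (m + R) = s m * ee (((-((R * j : ℕ) : ℤ) : ℤ) : ℝ) / Pr Q) := by
    intro m
    rw [hs]
    simp only
    rw [hp1, mul_assoc, ← ee_add]
    congr 2
    push_cast
    field_simp
    ring
  have h2 := per_shift hper R
  simp_rw [hsh] at h2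
  rw [← sum_mul] at h2
  have hne : ee (((-((R * j : ℕ) : ℤ) : ℤ) : ℝ) / Pr Q) ≠ 1 := by
    apply ee_ne_one hP
    rw [dvd_neg, Int.natCast_dvd_natCast]
    exact fun hd => hj ⟨R, mem_Icc.2 ⟨hR1, hRF⟩, hd⟩
  have h3 : (∑ m ∈ range (Pr Q), s m) * (ee (((-((R * j : ℕ) : ℤ) : ℤ) : ℝ) / Pr Q) - 1) = 0 := by
    rw [mul_sub, h2, mul_one, sub_self]
  rcases mul_eq_zero.1 h3 with h | h
  · exact h
  · exact absurd (sub_eq_zero.1 h) hne

lemma shift_sum (f : ℕ → ℂ) (θ : ℝ) (X h : ℕ) :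
    ‖∑ n ∈ range X, f (n + h) * ee (n * θ)‖ ^ 2 ≤
      2 * ‖∑ n ∈ range (X + h), f n * ee (n * θ)‖ ^ 2 + 2 * ‖∑ n ∈ range h, f n * ee (n * θ)‖ ^ 2 := by
  have h1 : ee (h * θ) * ∑ n ∈ range X, f (n + h) * ee (n * θ) =
      ∑ n ∈ range (X + h), f n * ee (n * θ) - ∑ n ∈ range h, f n * ee (n * θ) := by
    rw [add_comm X h, sum_range_add, add_sub_cancel_left, mul_sum]
    apply sum_congr rfl
    intro n _
    rw [mul_left_comm, ← ee_add, add_comm h n]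
    congr 2
    push_cast
    ring
  have h2 : ‖∑ n ∈ range X, f (n + h) * ee (n * θ)‖ =
      ‖∑ n ∈ range (X + h), f n * ee (n * θ) - ∑ n ∈ range h, f n * ee (n * θ)‖ := by
    rw [← h1, norm_mul, norm_ee, one_mul]
  rw [h2]
  have h3 := norm_sub_le (∑ n ∈ range (X + h), f n * ee (n * θ)) (∑ n ∈ range h, f n * ee (n * θ))
  set a := ‖∑ n ∈ range (X + h), f n * ee (n * θ)‖
  set b := ‖∑ n ∈ range h, f n * ee (n * θ)‖
  calc _ ≤ (a + b) ^ 2 := pow_le_pow_left₀ (norm_nonneg _) h3 2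
    _ ≤ 2 * a ^ 2 + 2 * b ^ 2 := by
        have := sq_nonneg (a - b)
        linarith [this, (show (a - b) ^ 2 = 2 * a ^ 2 + 2 * b ^ 2 - (a + b) ^ 2 by ring)]

/-- **one prime and a product of models** -/
theorem det_mo (k : ℕ) : ∃ C : ℝ, 1 ≤ C ∧ ∀ (l E : ℝ) (Q T : ℕ), 3 ≤ Q → Q ^ k ≤ Ql l →
    (∀ Y : ℕ, Y ≤ T → ∑ q ∈ Icc 1 (Ql l), ∑ a ∈ rr q,
        ‖∑ t ∈ range Y, ((df l t : ℝ) : ℂ) * ee (t * ((a : ℝ) / q))‖ ^ 2 ≤ E) →
    ∀ (h : Fin k → ℕ) (h0 X : ℕ), X + h0 ≤ T →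
      |∑ n ∈ range X, df l (n + h0) * ∏ i, mo 1 Q 0 (n + h i)| ^ 2 ≤ C * Real.log Q ^ (4 * k + 2 ^ (2 * k)) * E := by
  obtain ⟨C, hC1, hC⟩ := mo_period k
  refine ⟨4 * C, by linarith, fun l E Q T hQ hF hE h h0 X hX => ?_⟩
  have hP := Pr_pos Q
  have hP0 : (0 : ℝ) < Pr Q := by exact_mod_cast hP
  have h1 := det_sum (P := Pr Q) (F := Ql l) (X := X) hP (G := fun n => ((∏ i, mo 1 Q 0 (n + h i) : ℝ) : ℂ)) (by
    intro n
    congr 1
    apply prod_congr rfl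
    intro i _
    rw [show n + Pr Q + h i = n + h i + Pr Q by ring, mo_per]) (by
    intro j _ hj
    exact mo_supp hF h hj) (fun n => ((df l (n + h0) : ℝ) : ℂ))
  have h2 : ‖∑ n ∈ range X, ((df l (n + h0) : ℝ) : ℂ) * ((∏ i, mo 1 Q 0 (n + h i) : ℝ) : ℂ)‖ =
      |∑ n ∈ range X, df l (n + h0) * ∏ i, mo 1 Q 0 (n + h i)| := by
    rw [← Real.norm_eq_abs, ← Complex.norm_real]
    congr 1
    push_cast
    rfl
  have h3 : ∑ m ∈ range (Pr Q), ‖((∏ i, mo 1 Q 0 (m + h i) : ℝ) : ℂ)‖ ^ 2 ≤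
      Pr Q * (C * Real.log Q ^ (4 * k + 2 ^ (2 * k))) := by
    refine le_trans (le_of_eq ?_) (hC Q hQ h)
    apply sum_congr rfl
    intro m _
    rw [Complex.norm_real, Real.norm_eq_abs, sq_abs]
  have h4 : ∑ q ∈ Icc 1 (Ql l), ∑ a ∈ rr q, ‖∑ n ∈ range X, ((df l (n + h0) : ℝ) : ℂ) * ee (n * ((a : ℝ) / q))‖ ^ 2 ≤ 4 * E := by
    have e1 := hE (X + h0) hX
    have e2 := hE h0 (by omega)
    calc _ ≤ ∑ q ∈ Icc 1 (Ql l), ∑ a ∈ rr q, (2 * ‖∑ n ∈ range (X + h0), ((df l n : ℝ) : ℂ) * ee (n * ((a : ℝ) / q))‖ ^ 2 +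
          2 * ‖∑ n ∈ range h0, ((df l n : ℝ) : ℂ) * ee (n * ((a : ℝ) / q))‖ ^ 2) :=
          sum_le_sum fun q _ => sum_le_sum fun a _ => shift_sum (fun n => ((df l n : ℝ) : ℂ)) _ X h0
      _ = 2 * (∑ q ∈ Icc 1 (Ql l), ∑ a ∈ rr q, ‖∑ n ∈ range (X + h0), ((df l n : ℝ) : ℂ) * ee (n * ((a : ℝ) / q))‖ ^ 2) +
          2 * (∑ q ∈ Icc 1 (Ql l), ∑ a ∈ rr q, ‖∑ n ∈ range h0, ((df l n : ℝ) : ℂ) * ee (n * ((a : ℝ) / q))‖ ^ 2) := by
          simp only [sum_add_distrib, mul_sum]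
      _ ≤ _ := by linarith
  rw [h2] at h1
  have hl : 0 ≤ Real.log Q := Real.log_natCast_nonneg Q
  have h5 : (Pr Q : ℝ) * |∑ n ∈ range X, df l (n + h0) * ∏ i, mo 1 Q 0 (n + h i)| ^ 2 ≤
      Pr Q * (4 * C * Real.log Q ^ (4 * k + 2 ^ (2 * k)) * E) := by
    refine h1.trans ((mul_le_mul h3 h4 ?_ ?_).trans (le_of_eq ?_))
    · exact sum_nonneg fun _ _ => sum_nonneg fun _ _ => sq_nonneg _
    · positivity
    · ring
  exact le_of_mul_le_mul_left h5 hP0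

end Pool.Agent.P8H14.PL
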