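import Pool.Agent.P8H14.PL.L8
import Pool.Agent.P8H14.PL.M7

set_option autoImplicit false

/-!
# The good scales with all the parameters
-/

open Finset Filter Topology

namespace Pool.Agent.P8H14.PL

open Pool.Agent.TH823.PS
open Pool.Agent.H807R2.Dav (ee norm_ee ee_add ee_int)
open Pool.Agent.H373R2.T7 (fz exI energy)
open Pool.Agent.P8H13.PK
open Pool.Agent.P8H13.GK
open Pool.Agent.P8H14.QP (ev_t sav sav_pos sav_mono sav_large log_ev)
open Pool.Agent.P8H14.QP.Len (sav_mul sav_one_le sav_log)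

/-- the fractions, in the form needed -/
theorem fracK (A : ℕ) {c C : ℝ} (hc : 0 < c) (hc8 : c ≤ 1 / 8) (hC : 0 < C) (κ : ℕ) (hκ : 1 ≤ κ) :
    ∃ c1 l0 : ℝ, 0 < c1 ∧ c1 ≤ 1 / 400 ∧ 1000 ≤ l0 ∧
    ∀ l : ℝ, l0 ≤ l → Reg c C (12 * l) → ∀ N : ℕ, l ≤ Real.log N → Real.log N ≤ 18 * l ^ 2 →
      2 * (l * Real.log (Real.log N)) ≤ c1 * Real.log N →
      ∀ Y : ℕ, Y ≤ κ * N → ∑ q ∈ Icc 1 (Ql l), ∑ a ∈ rr q,
        ‖∑ t ∈ range Y, ((df l t : ℝ) : ℂ) * ee (t * ((a : ℝ) / q))‖ ^ 2 ≤ ((κ * N : ℕ) : ℝ) ^ 2 / Real.log N ^ A := by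
  obtain ⟨c1, l0, hc1, hl0, hfr⟩ := fracA A hc hc8 hC
  obtain ⟨l1, hl1, hp1⟩ := pow_exp 10 (10 ^ 8 * 2 ^ 10)
  obtain ⟨l2, hl2, hp2⟩ := pow_exp (A + 12) (10 ^ 8 * 2 ^ (A + 12))
  refine ⟨min c1 (1 / 400), max (max l0 (l1 + l2)) κ, by positivity, min_le_right _ _,
    hl0.trans ((le_max_left _ _).trans (le_max_left _ _)), fun l hl hReg N hN1 hN2 hN3 Y hY => ?_⟩
  have hll0 : l0 ≤ l := ((le_max_left _ _).trans (le_max_left _ _)).trans hl
  have hll12 : l1 + l2 ≤ l := ((le_max_right _ _).trans (le_max_left _ _)).trans hl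
  have hlκ : (κ : ℝ) ≤ l := (le_max_right _ _).trans hl
  have hl1000 : 1000 ≤ l := hl0.trans hll0
  set Ln : ℝ := Real.log N with hLn
  have hLp : 0 < Ln := by linarith
  have hN0 : (0 : ℝ) < N := by
    rcases Nat.eq_zero_or_pos N with h | h
    · subst h
      rw [Nat.cast_zero, Real.log_zero] at hLn
      linarith
    · exact_mod_cast h
  have hNn : 1 ≤ N := by exact_mod_cast hN0
  set T : ℕ := κ * N with hT
  have hκ0 : (0 : ℝ) < κ := by exact_mod_cast hκ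
  have hTr : (T : ℝ) = κ * N := by rw [hT]; push_cast; ring
  have hT0 : (0 : ℝ) < T := by rw [hTr]; positivity
  have hTN : (N : ℝ) ≤ T := by
    rw [hTr]
    exact le_mul_of_one_le_left hN0.le (by exact_mod_cast hκ)
  set β : ℝ := Real.log T with hβ
  have hβ1 : Ln ≤ β := Real.log_le_log hN0 hTN
  have hβ2 : β ≤ 2 * Ln := by
    have h1 : β = Real.log κ + Ln := by rw [hβ, hTr, Real.log_mul hκ0.ne' hN0.ne']
    have h2 : Real.log κ ≤ κ - 1 := Real.log_le_sub_one_of_pos hκ0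
    linarith
  have hlog1 : 1 ≤ Real.log Ln := by
    rw [Real.le_log_iff_exp_le hLp]
    have := Real.exp_one_lt_d9
    linarith
  have h100 : 800 * l ≤ Ln := by
    have h1 : min c1 (1 / 400) * Ln ≤ 1 / 400 * Ln := mul_le_mul_of_nonneg_right (min_le_right _ _) hLp.le
    have h2 : l * 1 ≤ l * Real.log Ln := mul_le_mul_of_nonneg_left hlog1 (by linarith)
    linarith
  have hNe : (N : ℝ) = Real.exp Ln := (Real.exp_log hN0).symm
  have hTbig : Real.exp (100 * l) ≤ T := by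
    refine le_trans ?_ hTN
    rw [hNe]
    exact Real.exp_le_exp.2 (by linarith)
  have hβp : ∀ K : ℕ, β ^ K ≤ 2 ^ K * Ln ^ K := by
    intro K
    rw [← mul_pow]
    exact pow_le_pow_left₀ (by linarith) hβ2 K
  have hpar : Par l T 1 T := by
    refine ⟨by linarith, hTbig, ?_, le_rfl, ?_, by omega, by omega⟩
    · have h1 := hp1 l (by linarith) Ln hLp.le hN2
      refine le_trans ?_ h1
      have h2 := mul_le_mul_of_nonneg_left (hβp 10) (by norm_num : (0 : ℝ) ≤ 10 ^ 8)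
      linarith
    · rw [Nat.cast_one]
      exact Real.one_le_exp (by linarith)
  have hbig : (10 : ℝ) ^ 8 * β ^ (A + 12) ≤ Real.exp (l / 100) := by
    have h1 := hp2 l (by linarith) Ln hLp.le hN2
    refine le_trans ?_ h1
    have h2 := mul_le_mul_of_nonneg_left (hβp (A + 12)) (by norm_num : (0 : ℝ) ≤ 10 ^ 8)
    linarith
  have hlb : l * Real.log β ≤ c1 * β := by
    have h1 : Real.log β ≤ 2 * Real.log Ln := by
      have h2 : Real.log β ≤ Real.log (2 * Ln) := Real.log_le_log (by linarith) hβ2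
      rw [Real.log_mul (by norm_num) hLp.ne'] at h2
      have := Real.log_two_lt_d9
      linarith
    have h2 : l * Real.log β ≤ l * (2 * Real.log Ln) := mul_le_mul_of_nonneg_left h1 (by linarith)
    have h3 : min c1 (1 / 400) * Ln ≤ c1 * Ln := mul_le_mul_of_nonneg_right (min_le_left _ _) hLp.le
    have h4 : c1 * Ln ≤ c1 * β := mul_le_mul_of_nonneg_left hβ1 hc1.le
    linarith
  have hmain := hfr l hll0 T hpar hReg hbig (by linarith) hlb Y hY
  rw [← hβ] at hmain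
  refine hmain.trans ?_
  have hLA : 0 < Ln ^ A := by positivity
  apply div_le_div_of_nonneg_left (by positivity) hLA
  exact pow_le_pow_left₀ hLp.le hβ1 A

/-- finitely many orders of the energy -/
theorem famL_all {c C : ℝ} (hc : 0 < c) (hc8 : c ≤ 1 / 8) (hC : 0 < C) (B A : ℕ) (hB : 1 ≤ B) (P : ℕ) :
    ∃ c1 l0 : ℝ, 0 < c1 ∧ 1000 ≤ l0 ∧
    ∀ l : ℝ, l0 ≤ l → Reg c C (12 * l) → ∀ N : ℕ, l ≤ Real.log N → Real.log N ≤ 18 * l ^ 2 →
      2 * (l * Real.log (Real.log N)) ≤ c1 * Real.log N → ∀ p : ℕ, 1 ≤ p → p ≤ P → ∀ y : ℝ, 1 ≤ y →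
        y ≤ Real.exp (l / (40 * P + 20)) → FLm B p A y l N := by
  suffices h : ∀ K : ℕ, ∃ c1 l0 : ℝ, 0 < c1 ∧ 1000 ≤ l0 ∧
    ∀ l : ℝ, l0 ≤ l → Reg c C (12 * l) → ∀ N : ℕ, l ≤ Real.log N → Real.log N ≤ 18 * l ^ 2 →
      2 * (l * Real.log (Real.log N)) ≤ c1 * Real.log N → ∀ p : ℕ, 1 ≤ p → p ≤ K → ∀ y : ℝ, 1 ≤ y →
        y ≤ Real.exp (l / (40 * p + 20)) → FLm B p A y l N by
    obtain ⟨c1, l0, hc1, hl0, h1⟩ := h P
    refine ⟨c1, l0, hc1, hl0, fun l hl hReg N hN1 hN2 hN3 p hp hpP y hy1 hy2 => ?_⟩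
    refine h1 l hl hReg N hN1 hN2 hN3 p hp hpP y hy1 (hy2.trans (Real.exp_le_exp.2 ?_))
    have : (p : ℝ) ≤ P := by exact_mod_cast hpP
    apply div_le_div_of_nonneg_left (by linarith) (by positivity)
    linarith
  intro K
  induction K with
  | zero => exact ⟨1, 1000, one_pos, le_rfl, fun l _ _ N _ _ _ p hp hp2 => by omega⟩
  | succ K ih =>
    obtain ⟨c1, l0, hc1, hl0, h1⟩ := ih
    obtain ⟨c2, l2, hc2, hl2, h2⟩ := famL hc hc8 hC B (K + 1) A hB (by omega)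
    refine ⟨min c1 c2, max l0 l2, lt_min hc1 hc2, hl0.trans (le_max_left _ _),
      fun l hl hReg N hN1 hN2 hN3 p hp hpK y hy1 hy2 => ?_⟩
    have hl1000 : 1000 ≤ l := hl0.trans ((le_max_left _ _).trans hl)
    have hLn : 0 ≤ Real.log N := by linarith
    rcases Nat.lt_or_ge p (K + 1) with h | h
    · exact h1 l ((le_max_left _ _).trans hl) hReg N hN1 hN2
        (hN3.trans (mul_le_mul_of_nonneg_right (min_le_left _ _) hLn)) p hp (by omega) y hy1 hy2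
    · obtain rfl : p = K + 1 := by omega
      exact h2 l ((le_max_right _ _).trans hl) hReg N hN1 hN2
        (hN3.trans (mul_le_mul_of_nonneg_right (min_le_right _ _) hLn)) y hy1 hy2

lemma Reg_div {c C R : ℝ} (h : Reg c C R) {κ : ℕ} (hκ : 1 ≤ κ) (hR : 0 < R) : Reg (c / κ) (C * κ ^ 2) (R / κ) := by
  have hκ0 : (0 : ℝ) < κ := by exact_mod_cast hκ
  have hκ1 : (1 : ℝ) ≤ κ := by exact_mod_cast hκ
  have hRκ : R / κ ≤ R := div_le_self hR.le hκ1
  intro q _ hq χ hχ z h1 h2 h3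
  have e1 : c / κ / (R / κ) = c / R := by field_simp
  rw [e1] at h1
  obtain ⟨g1, g2⟩ := h q (hq.trans (Real.exp_le_exp.2 hRκ)) χ hχ z h1 h2 (h3.trans (Real.exp_le_exp.2 hRκ))
  refine ⟨g1, g2.trans (le_of_eq ?_)⟩
  rw [div_pow]
  field_simp

/-- a good scale with all its parameters -/
structure GS (B P A κ : ℕ) (c' y l : ℝ) (N : ℕ) : Prop where
  g1 : 800 * l ≤ Real.log N
  g2 : Real.log N ≤ 18 * (l / κ) ^ 2
  g3 : c' * Real.log N / Real.log (Real.log N) ≤ l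
  fam : ∀ p : ℕ, 1 ≤ p → p ≤ P → FLm B p A y (l / κ) N
  fr : ∀ Y : ℕ, Y ≤ (B + 2) * N → ∑ q ∈ Icc 1 (Ql l), ∑ a ∈ rr q,
        ‖∑ t ∈ range Y, ((df l t : ℝ) : ℂ) * ee (t * ((a : ℝ) / q))‖ ^ 2 ≤ (((B + 2) * N : ℕ) : ℝ) ^ 2 / Real.log N ^ A

lemma log_sq_le {x : ℝ} (hx : 1 ≤ x) : Real.log x ^ 2 ≤ 16 * √x := by
  have h0 : 0 ≤ Real.log x := Real.log_nonneg hx
  have h1 : Real.log x ≤ 4 * √√x := by
    have e1 : Real.log x = 4 * Real.log (√√x) := by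
      rw [Real.log_sqrt (Real.sqrt_nonneg _), Real.log_sqrt (by linarith)]; ring
    have e2 : Real.log (√√x) ≤ √√x - 1 := Real.log_le_sub_one_of_pos (by positivity)
    linarith
  calc Real.log x ^ 2 ≤ (4 * √√x) ^ 2 := pow_le_pow_left₀ h0 h1 2
    _ = 16 * √x := by rw [mul_pow, Real.sq_sqrt (Real.sqrt_nonneg _)]; norm_num

/-- **most scales are good** -/
theorem most_GS (B P A κ : ℕ) (hB : 1 ≤ B) (hκ : 1 ≤ κ) {ε : ℝ} (hε : 0 < ε) : ∃ c' c : ℝ, 0 < c' ∧ 0 < c ∧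
    ∀ (L0 : ℝ) (N₁ : ℕ), Most ε (fun N => N₁ ≤ N ∧ ∃ l : ℝ, L0 ≤ l ∧ GS B P A κ c' (sav c N) l N) := by
  obtain ⟨c, C, hc, hc8, hC, hmost⟩ := most_LS
  have hκ0 : (0 : ℝ) < κ := by exact_mod_cast hκ
  have hκ1 : (1 : ℝ) ≤ κ := by exact_mod_cast hκ
  obtain ⟨c1, l1, hc1, hl1, hfam⟩ := famL_all (c := c / κ) (C := C * κ ^ 2) (by positivity)
    ((div_le_self hc.le hκ1).trans hc8) (by positivity) B A hB P
  obtain ⟨c2, l2, hc2, hc24, hl2, hfr⟩ := fracK A hc hc8 hC (B + 2) (by omega)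
  obtain ⟨c', hc', hM⟩ := hmost (min c1 c2) (lt_min hc1 hc2) ((min_le_right _ _).trans (by linarith)) (ε / 2) (by positivity)
  set c3 : ℝ := c' / (κ * (40 * P + 20)) with hc3
  have hc30 : 0 < c3 := by positivity
  refine ⟨c', c3, hc', hc30, fun L0 N₁ => ?_⟩
  refine most_mono (N₁ := max N₁ 16) hε (hM (max (max L0 (κ * l1)) (max l2 ((κ ^ 2 / c' ^ 2) ^ 2)))) fun N hN hG =>
    ⟨(le_max_left _ _).trans hN, ?_⟩
  obtain ⟨l, hl, hReg, hLn1, hLn2, hLn3, hLn4⟩ := hG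
  have hN16 : 16 ≤ N := (le_max_right _ _).trans hN
  have hlL0 : L0 ≤ l := ((le_max_left _ _).trans (le_max_left _ _)).trans hl
  have hlκ : κ * l1 ≤ l := ((le_max_right _ _).trans (le_max_left _ _)).trans hl
  have hll2 : l2 ≤ l := ((le_max_left _ _).trans (le_max_right _ _)).trans hl
  have hlc : (κ ^ 2 / c' ^ 2) ^ 2 ≤ l := ((le_max_right _ _).trans (le_max_right _ _)).trans hl
  have hl1000 : 1000 ≤ l := hl2.trans hll2
  have hlκ' : l1 ≤ l / κ := by rw [le_div_iff₀ hκ0]; linarith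
  have hlκl : l / κ ≤ l := div_le_self (by linarith) hκ1
  set Ln : ℝ := Real.log N with hLn
  have hLp : 0 < Ln := by linarith
  have hlog1 : 1 ≤ Real.log Ln := by
    rw [Real.le_log_iff_exp_le hLp]
    have := Real.exp_one_lt_d9
    linarith
  have h800 : 800 * l ≤ Ln := by
    have h1 : min c1 c2 * Ln ≤ 1 / 400 * Ln := mul_le_mul_of_nonneg_right ((min_le_right _ _).trans hc24) hLp.le
    have h2 : l * 1 ≤ l * Real.log Ln := mul_le_mul_of_nonneg_left hlog1 (by linarith)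
    linarith
  have h2 : Ln ≤ 18 * (l / κ) ^ 2 := by
    have e1 := log_sq_le (x := Ln) (by linarith)
    have e2 : κ ^ 2 / c' ^ 2 ≤ √Ln := by
      rw [Real.le_sqrt (by positivity) hLp.le]
      exact hlc.trans hLn1
    have e3 : (κ : ℝ) ^ 2 ≤ c' ^ 2 * √Ln := by
      rw [div_le_iff₀ (by positivity)] at e2
      linarith
    have e4 : c' * Ln ≤ l * Real.log Ln := by
      rw [div_le_iff₀ (by linarith)] at hLn4
      exact hLn4
    have e5 : (c' * Ln) ^ 2 ≤ (l * Real.log Ln) ^ 2 := pow_le_pow_left₀ (by positivity) e4 2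
    have e6 : (c' * Ln) ^ 2 ≤ l ^ 2 * (16 * √Ln) := by
      refine e5.trans ?_
      rw [mul_pow]
      gcongr
    have e7 : κ ^ 2 * Ln * (c' ^ 2 * Ln) ≤ 16 * l ^ 2 * (c' ^ 2 * Ln) := by
      calc κ ^ 2 * Ln * (c' ^ 2 * Ln) = κ ^ 2 * (c' * Ln) ^ 2 := by ring
        _ ≤ (c' ^ 2 * √Ln) * (l ^ 2 * (16 * √Ln)) := by gcongr
        _ = 16 * l ^ 2 * (c' ^ 2 * (√Ln * √Ln)) := by ring
        _ = _ := by rw [Real.mul_self_sqrt hLp.le]
    have e8 : κ ^ 2 * Ln ≤ 16 * l ^ 2 := le_of_mul_le_mul_right e7 (by positivity)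
    rw [div_pow, ← mul_div_assoc, le_div_iff₀ (by positivity)]
    have : 0 ≤ l ^ 2 := sq_nonneg l
    linarith
  refine ⟨l, hlL0, ⟨h800, h2, hLn4, fun p hp hpP => ?_, ?_⟩⟩
  · refine hfam (l / κ) hlκ' ?_ N (hlκl.trans hLn1) h2 ?_ p hp hpP (sav c3 N) (sav_one_le hc30.le hN16) ?_
    · have := Reg_div hReg hκ (by linarith)
      rwa [mul_div_assoc] at this
    · have e1 : 2 * (l / κ * Real.log Ln) ≤ 2 * (l * Real.log Ln) := by gcongr
      exact (e1.trans hLn3).trans (mul_le_mul_of_nonneg_right (min_le_left _ _) hLp.le)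
    · unfold sav
      apply Real.exp_le_exp.2
      rw [hc3, ← hLn]
      calc c' / (κ * (40 * P + 20)) * Ln / Real.log Ln = (c' * Ln / Real.log Ln) / (κ * (40 * P + 20)) := by ring
        _ ≤ l / (κ * (40 * P + 20)) := by gcongr
        _ = _ := by rw [div_div]
  · exact hfr l hll2 hReg N hLn1 hLn2 (hLn3.trans (mul_le_mul_of_nonneg_right (min_le_right _ _) hLp.le))

end Pool.Agent.P8H14.PL
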