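import Pool.Agent.P8H14.PL.L3
import Pool.Agent.TH823.PS.FamGood

set_option autoImplicit false

/-!
# The exceptional members of a family for a function with a bounded mean square
-/

open Finset

namespace Pool.Agent.P8H14.PL

open Pool.Agent.TH823.PS
open Pool.Agent.H807R2.Dav (ee norm_ee ee_add ee_int)
open Pool.Agent.H373R2.T7 (fz exI energy moment_energy)

/-- short sums of shifts -/
lemma short_fz {f : ℕ → ℂ} {H t : ℕ} {Fs : ℝ}
    (hfs : ∀ u v : ℕ, v ≤ H → v ≤ u + t → ∑ n ∈ Ioc u v, ‖f n‖ ^ 2 ≤ Fs) (s : ℤ) {x0 A' : ℕ} (h : A' ≤ x0 + t) :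
    ∑ b ∈ Ioc x0 A', ‖fz f H (b + s)‖ ^ 2 ≤ Fs := by
  classical
  set u : ℕ := ((x0 : ℤ) + s).toNat with hu
  set v : ℕ := min ((A' : ℤ) + s).toNat H with hv
  refine le_trans ?_ (hfs u v (min_le_right _ _) (by omega))
  set I := (Ioc x0 A').filter (fun b : ℕ => 1 ≤ (b : ℤ) + s ∧ (b : ℤ) + s ≤ H) with hI
  have h1 : ∑ b ∈ Ioc x0 A', ‖fz f H (b + s)‖ ^ 2 = ∑ b ∈ I, ‖f ((b : ℤ) + s).toNat‖ ^ 2 := by
    rw [hI, sum_filter]
    apply sum_congr rfl
    intro b _
    unfold fz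
    split_ifs <;> simp
  rw [h1]
  have hinj : Set.InjOn (fun b : ℕ => ((b : ℤ) + s).toNat) (I : Set ℕ) := by
    intro b hb b' hb' hbb
    rw [mem_coe, hI, mem_filter] at hb hb'
    simp only at hbb
    omega
  rw [← sum_image (f := fun n => ‖f n‖ ^ 2) hinj]
  apply sum_le_sum_of_subset_of_nonneg
  · intro n hn
    rw [mem_image] at hn
    obtain ⟨b, hb, rfl⟩ := hn
    rw [hI, mem_filter, mem_Ioc] at hb
    rw [mem_Ioc]
    omega
  · intro _ _ _; positivity

open Classical in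
/-- the exceptional members of one family: all the constants explicit -/
theorem fam_goodL {f : ℕ → ℂ} (B L p : ℕ) (hp : 1 ≤ p) {y V Wg Fb Fs τ ρ D : ℝ} {N t J : ℕ} (hy0 : 0 < y)
    (hNn : 1 ≤ N) (ht1 : 1 ≤ t) (hV : 0 < V) (hτ0 : 0 < τ) (hρ0 : 0 ≤ ρ)
    (hf : ∑ n ∈ Icc 1 ((2 * p + 3) * ((B + 1) * N) - 1), ‖f n‖ ^ 2 ≤ Fb)
    (hfs : ∀ u v : ℕ, v ≤ (2 * p + 3) * ((B + 1) * N) - 1 → v ≤ u + t → ∑ n ∈ Ioc u v, ‖f n‖ ^ 2 ≤ Fs)
    (hshort : √(Wg * Fs) ≤ V)
    (hbal : τ * √(Fb * Wg) + ρ * √(((2 * ((2 * p + 3) * ((B + 1) * N)) : ℕ) : ℝ) * Wg) < V)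
    (hD : ((B * N / t + 1 : ℕ) : ℝ) ≤ D)
    (hJ : (4 * p + 6) * ((B : ℝ) + 1) * ((L + 1) * D / τ) ^ (2 * p) * y ^ (2 * p + 1) ≤ J)
    (hK : ∀ K ⊆ range (2 * ((2 * p + 3) * ((B + 1) * N))), K.card ≤ J →
        ∑ t ∈ K, ‖∑ n ∈ Icc 1 ((2 * p + 3) * ((B + 1) * N) - 1),
          f n * ee (n * ((t : ℝ) / (2 * ((2 * p + 3) * ((B + 1) * N)) : ℕ)))‖ ^ 2 ≤
          (ρ * ((2 * ((2 * p + 3) * ((B + 1) * N)) : ℕ) : ℝ)) ^ 2)
    (x : ℕ) (s : ℕ → ℤ) (hs : ∀ m ∈ Icc 1 x, |s m| ≤ B * N)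
    (hE : (energy p x s : ℝ) * N ≤ y * (x : ℝ) ^ (2 * p))
    (a : Fin L → ℕ) (g : Fin L → ℕ → ℂ) (ha : ∀ l, 1 ≤ a l)
    (hg : ∀ l, ∑ n ∈ Icc 1 (B * N / a l), ‖g l n‖ ^ 2 ≤ Wg) :
    (((Icc 1 x).filter (fun m => ¬ ∀ l, ∀ X : ℕ, a l * X ≤ B * N →
        ‖∑ n ∈ Icc 1 X, g l n * exI f (a l * n + s m)‖ ≤ 2 * V)).card : ℝ) ≤ x / y := by
  set B1 : ℕ := B + 1 with hB1
  have hB1r : (1 : ℝ) ≤ B1 := by exact_mod_cast (by omega : 1 ≤ B1)
  have hB1c : (B1 : ℝ) = B + 1 := by rw [hB1]; push_cast; ring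
  rw [← hB1c] at hJ
  rcases Nat.eq_zero_or_pos x with hx | hx
  · subst hx
    simp
  have hx0 : (0 : ℝ) < x := by exact_mod_cast hx
  have hD0 : 0 < D := lt_of_lt_of_le (by positivity) hD
  set LD : ℝ := (L + 1) * D with hLD
  have hLD0 : 0 < LD := by positivity
  have hN1 : (1 : ℝ) ≤ N := by exact_mod_cast hNn
  have hN0 : (0 : ℝ) < N := by linarith
  set A : ℕ := B * N with hA
  set T : ℕ := (2 * p + 3) * (B1 * N) with hT
  set H : ℕ := T - 1 with hH
  set M : ℕ := 2 * T with hM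
  have hBN : B * N ≤ B1 * N := Nat.mul_le_mul_right _ (by omega)
  have hB1N : 1 ≤ B1 * N := Nat.mul_pos (by omega) hNn
  have hT5 : 5 * (B1 * N) ≤ T := by
    rw [hT]; exact Nat.mul_le_mul_right _ (by omega)
  have hM1 : 1 ≤ M := by omega
  have hHM : H ≤ M := by omega
  have hAM : A ≤ M := by omega
  have hMr : (M : ℝ) = (4 * p + 6) * (B1 * N) := by rw [hM, hT]; push_cast; ring
  have hsz : ∀ m ∈ Icc 1 x, |s m| ≤ (B1 * N : ℕ) := by
    intro m hm
    have h1 := hs m hm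
    have h2 : (B : ℤ) * N ≤ (B1 * N : ℕ) := by exact_mod_cast hBN
    linarith
  set Gl : Fin L → ℕ → ℂ := fun l m => if a l ∣ m then g l (m / a l) else 0 with hGl
  have hGlsq : ∀ l, ∑ m ∈ Icc 1 A, ‖Gl l m‖ ^ 2 ≤ Wg := by
    intro l
    rw [hGl]
    simp only
    rw [sum_sq_spread (g l) (ha l)]
    exact hg l
  set Ej : Fin L → ℕ → Finset ℕ := fun l j => (Icc 1 x).filter
    (fun m => V ≤ ‖∑ b ∈ Icc 1 A, (if b ≤ t * j then Gl l b else 0) * fz f H (b + s m)‖) with hEj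
  have hcov : (Icc 1 x).filter (fun m => ¬ ∀ l, ∀ X : ℕ, a l * X ≤ B * N →
        ‖∑ n ∈ Icc 1 X, g l n * exI f (a l * n + s m)‖ ≤ 2 * V) ⊆
      (univ : Finset (Fin L)).biUnion (fun l => (range (A / t + 1)).biUnion (Ej l)) := by
    intro m hm
    rw [mem_filter] at hm
    obtain ⟨hm1, hm2⟩ := hm
    push Not at hm2
    obtain ⟨l, X, hX, hbig⟩ := hm2
    rw [mem_biUnion]
    refine ⟨l, mem_univ _, ?_⟩
    rw [mem_biUnion]
    set A' := a l * X with hA'
    refine ⟨A' / t, ?_, ?_⟩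
    · rw [mem_range]
      exact Nat.lt_succ_of_le (Nat.div_le_div_right hX)
    · rw [hEj]
      simp only
      rw [mem_filter]
      refine ⟨hm1, ?_⟩
      set x0 := t * (A' / t) with hx0
      have hx0A : x0 ≤ A' := Nat.mul_div_le A' t
      have hAx0 : A' < x0 + t := by
        have := Nat.lt_mul_div_succ A' ht1
        rw [mul_add, mul_one] at this
        exact this
      have hsm := abs_le.1 (hsz m hm1)
      have e0 : ∑ n ∈ Icc 1 X, g l n * exI f (a l * n + s m) =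
          ∑ b ∈ Icc 1 A', Gl l b * fz f H (b + s m) := by
        have h1 := Pool.Agent.TH823.Fam.spread (fun b : ℕ => exI f ((b : ℤ) + s m)) (g l) (a l) X (ha l)
        simp only [Nat.cast_mul] at h1
        rw [h1]
        apply sum_congr rfl
        intro b hb
        rw [mem_Icc] at hb
        rw [exI_eq_fz f (H := H) (by
          have h2 : (b : ℤ) ≤ (B1 * N : ℕ) := by exact_mod_cast (hb.2.trans (hX.trans hBN))
          have h3 : (5 : ℤ) * (B1 * N : ℕ) ≤ T := by exact_mod_cast hT5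
          have h4 : (H : ℤ) = T - 1 := by omega
          have h5 : (1 : ℤ) ≤ (B1 * N : ℕ) := by exact_mod_cast hB1N
          linarith)]
      rw [e0] at hbig
      have e1 : ∑ b ∈ Icc 1 A, (if b ≤ x0 then Gl l b else 0) * fz f H (b + s m) =
          ∑ b ∈ Icc 1 x0, Gl l b * fz f H (b + s m) := by
        have : Icc 1 x0 = (Icc 1 A).filter (fun n => n ≤ x0) := by
          ext n; simp only [mem_Icc, mem_filter]; omega
        rw [this, sum_filter]
        apply sum_congr rfl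
        intro n _
        split_ifs <;> simp
      rw [e1]
      have e2 : ∑ b ∈ Icc 1 A', Gl l b * fz f H (b + s m) = ∑ b ∈ Icc 1 x0, Gl l b * fz f H (b + s m) +
          ∑ b ∈ Ioc x0 A', Gl l b * fz f H (b + s m) := by
        rw [← sum_union (by
          rw [disjoint_left]; intro n h1 h2; rw [mem_Icc] at h1; rw [mem_Ioc] at h2; omega)]
        apply sum_congr _ (fun _ _ => rfl)
        ext n; simp only [mem_Icc, mem_union, mem_Ioc]; omega
      have e3 : ‖∑ b ∈ Ioc x0 A', Gl l b * fz f H (b + s m)‖ ≤ V := by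
        have h1 : ‖∑ b ∈ Ioc x0 A', Gl l b * fz f H (b + s m)‖ ≤
            ∑ b ∈ Ioc x0 A', ‖Gl l b‖ * ‖fz f H (b + s m)‖ := by
          refine (norm_sum_le _ _).trans (le_of_eq ?_)
          exact sum_congr rfl fun n _ => norm_mul _ _
        refine h1.trans ((Real.sum_mul_le_sqrt_mul_sqrt _ _ _).trans (le_trans ?_ hshort))
        rw [← Real.sqrt_mul (sum_nonneg fun _ _ => by positivity)]
        apply Real.sqrt_le_sqrt
        have h5 : ∑ b ∈ Ioc x0 A', ‖Gl l b‖ ^ 2 ≤ Wg := by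
          refine le_trans ?_ (hGlsq l)
          apply sum_le_sum_of_subset_of_nonneg
          · intro n hn; rw [mem_Ioc] at hn; rw [mem_Icc]; omega
          · intro _ _ _; positivity
        have h6 := short_fz (f := f) (H := H) (t := t) (Fs := Fs) hfs (s m) (x0 := x0) (A' := A') hAx0.le
        exact mul_le_mul h5 h6 (sum_nonneg fun _ _ => by positivity)
          (le_trans (sum_nonneg fun _ _ => by positivity) h5)
      rw [e2] at hbig
      have h4 := norm_add_le (∑ b ∈ Icc 1 x0, Gl l b * fz f H (b + s m))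
        (∑ b ∈ Ioc x0 A', Gl l b * fz f H (b + s m))
      linarith
  -- one piece
  have hmom : ∑ u ∈ range M, ‖∑ m ∈ Icc 1 x, ee ((u : ℝ) * (((-s m : ℤ) : ℝ) / M))‖ ^ (2 * p) ≤
      (4 * p + 6) * B1 * (y * (x : ℝ) ^ (2 * p)) := by
    have h1 := moment_energy p x (fun m => -s m) M (B1 * N) hM1 (fun m hm => by
      rw [abs_neg]; exact hsz m hm) (by
      have h2 : 2 * p * (B1 * N) ≤ 4 * p * (B1 * N) := Nat.mul_le_mul_right _ (by omega)
      have h3 : 2 * ((2 * p + 3) * (B1 * N)) = 4 * p * (B1 * N) + 6 * (B1 * N) := by ring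
      omega)
    have h2 : energy p x (fun m => -s m) = energy p x s := by
      unfold energy
      congr 1
      apply filter_congr
      intro q _
      simp only [sum_neg_distrib, neg_inj]
    rw [h1, h2, hMr]
    have h3 := mul_le_mul_of_nonneg_left hE (by positivity : 0 ≤ (4 * (p : ℝ) + 6) * B1)
    linarith
  have hEjc : ∀ l j, LD * ((Ej l j).card : ℝ) ≤ x / y := by
    intro l j
    have h1 := corrF2 (A := A) (H := H) (M := M) (x := x) (p := p) hp hM1 hf (s := s) (by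
        intro b hb m hm n hn
        rw [mem_Icc] at hb hn
        have hsm := abs_le.1 (hsz m hm)
        have h1 : (b : ℤ) ≤ (B1 * N : ℕ) := by exact_mod_cast (hb.2.trans hBN)
        have h2 : (n : ℤ) ≤ H := by exact_mod_cast hn.2
        have h3 : (5 : ℤ) * (B1 * N : ℕ) ≤ T := by exact_mod_cast hT5
        have h4 : (1 : ℤ) ≤ (B1 * N : ℕ) := by exact_mod_cast hB1N
        have h5 : (1 : ℤ) ≤ b := by exact_mod_cast hb.1
        have h6 : (1 : ℤ) ≤ n := by exact_mod_cast hn.1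
        have h7 : (H : ℤ) = T - 1 := by omega
        have h8 : (M : ℤ) = 2 * T := by omega
        rw [abs_lt]
        constructor <;> linarith [hsm.1, hsm.2]) hAM hHM
      (G := fun b => if b ≤ t * j then Gl l b else 0) (W := Wg) (by
        refine le_trans (sum_le_sum fun n _ => ?_) (hGlsq l)
        split_ifs
        · exact le_rfl
        · simp) (E := Ej l j) (filter_subset _ _) (V := V) (τ := τ) (ρ := ρ)
      (Mm := (4 * p + 6) * B1 * (y * (x : ℝ) ^ (2 * p))) hV hτ0 hρ0 (by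
        intro m hm
        rw [hEj] at hm
        simp only at hm
        rw [mem_filter] at hm
        exact hm.2) hmom (J := J) hK hbal
    have h2 : (4 * p + 6) * B1 * (LD / τ) ^ (2 * p) * (y ^ (2 * p) * y) ≤ J := by
      rw [← pow_succ]
      exact hJ
    set c : ℝ := ((Ej l j).card : ℝ) with hc
    have hc0 : 0 ≤ c := Nat.cast_nonneg _
    have h4 : (4 * p + 6) * B1 * (LD / τ) ^ (2 * p) * (y ^ (2 * p) * y) * (τ * c) ^ (2 * p) ≤
        (4 * p + 6) * B1 * (y * (x : ℝ) ^ (2 * p)) :=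
      (mul_le_mul_of_nonneg_right h2 (by positivity)).trans h1
    have h5 : (4 * p + 6) * B1 * (LD / τ) ^ (2 * p) * (y ^ (2 * p) * y) * (τ * c) ^ (2 * p) =
        (4 * p + 6) * B1 * (y * (LD * c * y) ^ (2 * p)) := by
      have h6 : (LD / τ) ^ (2 * p) * (τ * c) ^ (2 * p) = (LD * c) ^ (2 * p) := by
        rw [← mul_pow]
        congr 1
        field_simp
      calc (4 * p + 6) * B1 * (LD / τ) ^ (2 * p) * (y ^ (2 * p) * y) * (τ * c) ^ (2 * p) =
          (4 * p + 6) * B1 * (y * (((LD / τ) ^ (2 * p) * (τ * c) ^ (2 * p)) * y ^ (2 * p))) := by ring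
        _ = (4 * p + 6) * B1 * (y * (LD * c * y) ^ (2 * p)) := by rw [h6, ← mul_pow]
    rw [h5] at h4
    have h6 : (LD * c * y) ^ (2 * p) ≤ (x : ℝ) ^ (2 * p) := by
      have h7 := le_of_mul_le_mul_left h4 (by positivity : (0 : ℝ) < (4 * p + 6) * B1)
      exact le_of_mul_le_mul_left h7 hy0
    have h7 : LD * c * y ≤ x := le_of_pow_le_pow_left₀ (by omega) hx0.le h6
    rw [le_div_iff₀ hy0]
    exact h7
  have hcard : (((Icc 1 x).filter (fun m => ¬ ∀ l, ∀ X : ℕ, a l * X ≤ B * N →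
        ‖∑ n ∈ Icc 1 X, g l n * exI f (a l * n + s m)‖ ≤ 2 * V)).card : ℝ) ≤
      ∑ l : Fin L, ∑ j ∈ range (A / t + 1), ((Ej l j).card : ℝ) := by
    have h1 := (card_le_card hcov).trans card_biUnion_le
    have h2 : ∀ l : Fin L, (((range (A / t + 1)).biUnion (Ej l)).card : ℝ) ≤
        ∑ j ∈ range (A / t + 1), ((Ej l j).card : ℝ) := by
      intro l
      have := card_biUnion_le (s := range (A / t + 1)) (t := Ej l)
      exact_mod_cast this
    have h3 : (((Icc 1 x).filter (fun m => ¬ ∀ l, ∀ X : ℕ, a l * X ≤ B * N →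
        ‖∑ n ∈ Icc 1 X, g l n * exI f (a l * n + s m)‖ ≤ 2 * V)).card : ℝ) ≤
        ∑ l : Fin L, (((range (A / t + 1)).biUnion (Ej l)).card : ℝ) := by exact_mod_cast h1
    exact h3.trans (sum_le_sum fun l _ => h2 l)
  set Rr : ℝ := x / y with hRr
  have hRr0 : 0 ≤ Rr := by positivity
  have hone : ∀ l j, ((Ej l j).card : ℝ) ≤ Rr / LD := by
    intro l j
    rw [le_div_iff₀ hLD0, mul_comm]
    exact hEjc l j
  refine hcard.trans ?_
  calc ∑ l : Fin L, ∑ j ∈ range (A / t + 1), ((Ej l j).card : ℝ)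
      ≤ ∑ l : Fin L, ∑ j ∈ range (A / t + 1), Rr / LD :=
        sum_le_sum fun l _ => sum_le_sum fun j _ => hone l j
    _ = L * (((A / t + 1 : ℕ) : ℝ) * (Rr / LD)) := by
        rw [sum_const, sum_const, card_range, card_univ, Fintype.card_fin, nsmul_eq_mul, nsmul_eq_mul]
    _ ≤ (L + 1) * (D * (Rr / LD)) := by
        apply mul_le_mul (by linarith) _ (by positivity) (by positivity)
        exact mul_le_mul_of_nonneg_right hD (by positivity)
    _ = Rr := by rw [hLD]; field_simp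

end Pool.Agent.P8H14.PL
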