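import Pool.Agent.P8H14.PL.L2
import Pool.Agent.P8H14.PL.L4

set_option autoImplicit false

/-!
# Families: primes minus the model, at one scale
-/

open Finset

namespace Pool.Agent.P8H14.PL

open Pool.Agent.TH823.PS
open Pool.Agent.H807R2.Dav (ee norm_ee ee_add ee_int)
open Pool.Agent.H373R2.T7 (fz exI energy moment_energy)
open Pool.Agent.P8H13.PK
open Pool.Agent.P8H13.GK

/-- exponentials beat powers -/
lemma pow_exp (K : ℕ) (C0 : ℝ) : ∃ l1 : ℝ, 1 ≤ l1 ∧ ∀ l : ℝ, l1 ≤ l → ∀ t : ℝ, 0 ≤ t → t ≤ 18 * l ^ 2 →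
    C0 * t ^ K ≤ Real.exp (l / 100) := by
  refine ⟨max 1 (|C0| * 18 ^ K * (100 ^ (2 * K + 1) * (2 * K + 1).factorial)), le_max_left _ _,
    fun l hl t ht0 ht => ?_⟩
  have hl1 : 1 ≤ l := (le_max_left _ _).trans hl
  have hl2 : |C0| * 18 ^ K * (100 ^ (2 * K + 1) * (2 * K + 1).factorial) ≤ l := (le_max_right _ _).trans hl
  have hl0 : 0 < l := by linarith
  have h1 := Real.pow_div_factorial_le_exp (l / 100) (by positivity) (2 * K + 1)
  refine le_trans ?_ h1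
  have h2 : C0 * t ^ K ≤ |C0| * (18 * l ^ 2) ^ K := by
    calc C0 * t ^ K ≤ |C0| * t ^ K := mul_le_mul_of_nonneg_right (le_abs_self _) (by positivity)
      _ ≤ _ := mul_le_mul_of_nonneg_left (pow_le_pow_left₀ ht0 ht K) (abs_nonneg _)
  refine h2.trans ?_
  have hfac : (0 : ℝ) < (2 * K + 1).factorial := by exact_mod_cast Nat.factorial_pos _
  rw [div_pow, div_div, le_div_iff₀ (by positivity)]
  calc |C0| * (18 * l ^ 2) ^ K * (100 ^ (2 * K + 1) * (2 * K + 1).factorial) =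
        (|C0| * 18 ^ K * (100 ^ (2 * K + 1) * (2 * K + 1).factorial)) * l ^ (2 * K) := by
          rw [mul_pow, ← pow_mul]; ring
    _ ≤ l * l ^ (2 * K) := mul_le_mul_of_nonneg_right hl2 (by positivity)
    _ = l ^ (2 * K + 1) := by rw [pow_succ]; ring

open Classical in
/-- the members of a family with a large correlation with the primes minus the model are rare: saving `y` -/
def FLm (B p A : ℕ) (y l : ℝ) (N : ℕ) : Prop :=
  ∀ (x : ℕ) (s : ℕ → ℤ), (∀ m ∈ Icc 1 x, |s m| ≤ B * N) →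
    (energy p x s : ℝ) * N ≤ y * (x : ℝ) ^ (2 * p) →
    ∀ (L : ℕ), (L : ℝ) ≤ y → ∀ (a : Fin L → ℕ) (g : Fin L → ℕ → ℂ), (∀ i, 1 ≤ a i) →
      (∀ i, ∑ n ∈ Icc 1 (B * N / a i), ‖g i n‖ ^ 2 ≤ N * Real.log N ^ A) →
      (((Icc 1 x).filter (fun m => ¬ ∀ i, ∀ X : ℕ, a i * X ≤ B * N →
        ‖∑ n ∈ Icc 1 X, g i n * exI (fun n => ((df l n : ℝ) : ℂ)) (a i * n + s m)‖ ≤ N / Real.log N ^ A)).card : ℝ) ≤ x / y

/-- squares of the difference in short intervals -/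
lemma df_sq : ∃ C : ℝ, 0 < C ∧ ∀ (l : ℝ) (u v Z : ℕ), 1 ≤ l → v ≤ Z → u ≤ v →
    ∑ n ∈ Ioc u v, ‖((df l n : ℝ) : ℂ)‖ ^ 2 ≤
      2 * (((v : ℝ) - u) * Real.log Z ^ 2) + 2 * (((v : ℝ) - u) * (C * (1 + l)) + 2 * Real.exp (2 * l)) := by
  obtain ⟨C, hC, hmo⟩ := mo_sq
  refine ⟨C, hC, fun l u v Z hl hvZ huv => ?_⟩
  have hQ1 : ((Ql l : ℕ) : ℝ) ≤ Real.exp (l / 2) := Nat.floor_le (Real.exp_pos _).le
  have hQn : 1 ≤ Ql l := Nat.floor_pos.2 (Real.one_le_exp (by linarith))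
  have hQ0 : (0 : ℝ) < Ql l := by exact_mod_cast hQn
  have huvr : (u : ℝ) ≤ v := by exact_mod_cast huv
  have h1 : ∀ n ∈ Ioc u v, ‖((df l n : ℝ) : ℂ)‖ ^ 2 ≤ 2 * Real.log Z ^ 2 + 2 * mo 1 (Ql l) 0 n ^ 2 := by
    intro n hn
    rw [mem_Ioc] at hn
    rw [Complex.norm_real, Real.norm_eq_abs, sq_abs, df_eq]
    have h2 : th n ^ 2 ≤ Real.log Z ^ 2 := pow_le_pow_left₀ (th_nonneg n) (th_le_of_le (hn.2.trans hvZ)) 2
    have h3 : 0 ≤ (th n + mo 1 (Ql l) 0 n) ^ 2 := sq_nonneg _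
    nlinarith
  refine (sum_le_sum h1).trans ?_
  rw [sum_add_distrib, ← mul_sum, ← mul_sum, sum_const, Nat.card_Ioc, nsmul_eq_mul, Nat.cast_sub huv]
  have h2 : ∑ n ∈ Ioc u v, mo 1 (Ql l) 0 n ^ 2 = ∑ t ∈ range (v - u), mo 1 (Ql l) (u + 1) t ^ 2 := by
    have h3 : Ioc u v = (range (v - u)).image (fun t => u + 1 + t) := by
      ext n
      simp only [mem_Ioc, mem_image, mem_range]
      constructor
      · intro h
        exact ⟨n - (u + 1), by omega, by omega⟩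
      · rintro ⟨t, ht, rfl⟩
        omega
    rw [h3, sum_image (fun x _ y _ h => by simpa using h)]
    apply sum_congr rfl
    intro t _
    unfold mo
    simp
  rw [h2]
  have h3 := hmo 1 (Ql l) (u + 1) (v - u) hQn
  rw [Nat.cast_sub huv] at h3
  have h4 : Real.log (Ql l) ≤ l := by
    have := Real.log_le_log hQ0 hQ1
    rw [Real.log_exp] at this
    linarith
  have h5 : ((Ql l : ℕ) : ℝ) ^ 4 ≤ Real.exp (2 * l) := by
    calc ((Ql l : ℕ) : ℝ) ^ 4 ≤ Real.exp (l / 2) ^ 4 := pow_le_pow_left₀ hQ0.le hQ1 4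
      _ = _ := by rw [← Real.exp_nat_mul]; congr 1; push_cast; ring
  have h6 : ((v : ℝ) - u) * (C * (1 + Real.log (Ql l))) ≤ ((v : ℝ) - u) * (C * (1 + l)) := by
    apply mul_le_mul_of_nonneg_left _ (by linarith)
    apply mul_le_mul_of_nonneg_left _ hC.le
    linarith
  linarith

end Pool.Agent.P8H14.PL
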