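import Pool.Agent.P8H14.PL.N2
import Pool.Agent.P8H14.QP.C1

set_option autoImplicit false

/-!
# The formula of Hardy and Littlewood for almost all tuples from families
-/

open Finset Polynomial

namespace Pool.Agent.P8H14.PL

open Pool.Agent.P8H13.PK
open Pool.Agent.P8H13.GK
open Pool.Agent.P8H14.SS (SG mo_HL)
open Pool.Agent.H373R2.T7 (exI energy avg_coord)
open Pool.Agent.TH823.PS (energy_mono energy_one Most most_mono)
open Pool.Agent.TH823.Fam (energy_poly')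
open Pool.Agent.P8H14.QP (sav sav_pos sav_mono sav_large log_ev)
open Pool.Agent.P8H14.QP.Len (sav_mul sav_one_le sav_log)

lemma energy_congr {p x : ℕ} {s s' : ℕ → ℤ} (h : ∀ m ∈ Icc 1 x, s m = s' m) : energy p x s = energy p x s' := by
  unfold energy
  congr 1
  apply filter_congr
  intro q hq
  rw [mem_product, Fintype.mem_piFinset, Fintype.mem_piFinset] at hq
  rw [sum_congr rfl fun i _ => h _ (hq.1 i), sum_congr rfl fun i _ => h _ (hq.2 i)]

/-- the families -/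
def Fam (B P : ℕ) (𝓕 : Finset ℤ[X]) (y : ℝ) (N x : ℕ) (s : ℕ → ℤ) : Prop :=
  (∀ m ∈ Icc 1 x, |s m| ≤ B * N) ∧
    ((∃ p : ℕ, 1 ≤ p ∧ p ≤ P ∧ (energy p x s : ℝ) * N ≤ y * (x : ℝ) ^ (2 * p)) ∨
      ∃ f ∈ 𝓕, 1 ≤ f.natDegree ∧ (N : ℝ) ≤ y * (x : ℝ) ^ f.natDegree ∧ ∃ b : ℤ, ∀ m ∈ Icc 1 x, s m = b + f.eval (m : ℤ))

lemma fam_order (P : ℕ) (𝓕 : Finset ℤ[X]) : ∃ (P' : ℕ) (C1 : ℝ), 1 ≤ C1 ∧ P ≤ P' ∧ ∀ (B N x : ℕ) (y : ℝ) (s : ℕ → ℤ),
    1 ≤ N → 0 ≤ y → Fam B P 𝓕 y N x s → ∃ p : ℕ, 1 ≤ p ∧ p ≤ P' ∧ (energy p x s : ℝ) * N ≤ C1 * y * (x : ℝ) ^ (2 * p) := by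
  classical
  induction 𝓕 using Finset.induction_on with
  | empty =>
    refine ⟨P, 1, le_rfl, le_rfl, fun B N x y s hN hy hF => ?_⟩
    rcases hF.2 with ⟨p, hp1, hp2, h⟩ | ⟨f, hf, _⟩
    · exact ⟨p, hp1, hp2, by rw [one_mul]; exact h⟩
    · simp at hf
  | insert f 𝓕 hf ih =>
    obtain ⟨P1, C1, hC1, hP1, h1⟩ := ih
    by_cases hd : 1 ≤ f.natDegree
    · obtain ⟨p0, C0, hC0, h0⟩ := energy_poly' f hd
      refine ⟨P1 + p0 + 1, C1 + C0, by linarith, by omega, fun B N x y s hN hy hF => ?_⟩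
      have hx0 : (0 : ℝ) ≤ x := Nat.cast_nonneg x
      have hold : Fam B P 𝓕 y N x s → ∃ p : ℕ, 1 ≤ p ∧ p ≤ P1 + p0 + 1 ∧
          (energy p x s : ℝ) * N ≤ (C1 + C0) * y * (x : ℝ) ^ (2 * p) := by
        intro hF'
        obtain ⟨p, g1, g2, g3⟩ := h1 B N x y s hN hy hF'
        refine ⟨p, g1, by omega, g3.trans ?_⟩
        apply mul_le_mul_of_nonneg_right _ (by positivity)
        exact mul_le_mul_of_nonneg_right (by linarith) hy
      rcases hF.2 with h | ⟨g, hg, hgd, hgN, b, hgb⟩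
      · exact hold ⟨hF.1, Or.inl h⟩
      · rcases mem_insert.1 hg with rfl | hg'
        · refine ⟨p0 + 1, by omega, by omega, ?_⟩
          have hx1 : 1 ≤ x := by
            by_contra hcon
            have : x = 0 := by omega
            subst this
            rw [Nat.cast_zero, zero_pow (by omega), mul_zero] at hgN
            have : (1 : ℝ) ≤ N := by exact_mod_cast hN
            linarith
          have e1 := h0 x hx1 b
          rw [← energy_congr (s := s) hgb] at e1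
          have e2 := energy_mono (Nat.le_succ p0) x s
          have h5 : 2 * (p0.succ - p0) = 2 := by omega
          rw [h5] at e2
          have h6 : (x : ℝ) ^ (2 * (p0 + 1)) = (x : ℝ) ^ 2 * (x : ℝ) ^ (2 * p0) := by
            rw [← pow_add]; congr 1; ring
          calc (energy (p0 + 1) x s : ℝ) * N ≤ ((x : ℝ) ^ 2 * energy p0 x s) * (y * (x : ℝ) ^ g.natDegree) := by
                apply mul_le_mul e2 hgN (Nat.cast_nonneg _) (by positivity)
            _ = (x : ℝ) ^ 2 * y * ((energy p0 x s : ℝ) * (x : ℝ) ^ g.natDegree) := by ring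
            _ ≤ (x : ℝ) ^ 2 * y * (C0 * (x : ℝ) ^ (2 * p0)) := mul_le_mul_of_nonneg_left e1 (by positivity)
            _ ≤ (x : ℝ) ^ 2 * y * ((C1 + C0) * (x : ℝ) ^ (2 * p0)) := by
                apply mul_le_mul_of_nonneg_left _ (by positivity)
                exact mul_le_mul_of_nonneg_right (by linarith) (by positivity)
            _ = _ := by rw [h6]; ring
        · exact hold ⟨hF.1, Or.inr ⟨g, hg', hgd, hgN, b, hgb⟩⟩
    · refine ⟨P1, C1, hC1, hP1, fun B N x y s hN hy hF => ?_⟩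
      rcases hF.2 with h | ⟨g, hg, hgd, hgN, b, hgb⟩
      · exact h1 B N x y s hN hy ⟨hF.1, Or.inl h⟩
      · rcases mem_insert.1 hg with rfl | hg'
        · exact absurd hgd hd
        · exact h1 B N x y s hN hy ⟨hF.1, Or.inr ⟨g, hg', hgd, hgN, b, hgb⟩⟩

open Classical in
/-- the number of the elements with a property -/
noncomputable def num {α : Type} (S : Finset α) (E : α → Prop) : ℝ := ((S.filter E).card : ℝ)

/-- the formula of Hardy and Littlewood -/
def HLn (A N : ℕ) {k : ℕ} (h : Fin k → ℕ) : Prop := ∀ X : ℕ, X ≤ N →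
  |∑ n ∈ Icc 1 X, ∏ i, ArithmeticFunction.vonMangoldt (n + h i) - SG h * X| ≤ N / Real.log N ^ A

/-- the shifts -/
def sh {k : ℕ} (h0 : ℕ) (s : Fin k → ℕ → ℤ) (m : Fin k → ℕ) : Fin (k + 1) → ℕ := Fin.cons h0 (fun i => (s i (m i)).toNat)

/-- the von Mangoldt function minus the model on the integers -/
noncomputable def dz (Q : ℕ) (m : ℤ) : ℝ := if 1 ≤ m then ArithmeticFunction.vonMangoldt m.toNat - mo 1 Q 0 m.toNat else 0

/-- squares along a progression -/
lemma prog_sq (g : ℕ → ℝ) {a X M : ℕ} (ha : 1 ≤ a) (s : ℤ) (h : ∀ n ∈ Icc 1 X, (a : ℤ) * n + s ≤ M) :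
    ∑ n ∈ Icc 1 X, (if 1 ≤ (a : ℤ) * n + s then g ((a : ℤ) * n + s).toNat else 0) ^ 2 ≤ ∑ m ∈ Icc 1 M, g m ^ 2 := by
  classical
  have e1 : ∑ n ∈ Icc 1 X, (if 1 ≤ (a : ℤ) * n + s then g ((a : ℤ) * n + s).toNat else 0) ^ 2 =
      ∑ n ∈ (Icc 1 X).filter (fun n : ℕ => 1 ≤ (a : ℤ) * n + s), g ((a : ℤ) * n + s).toNat ^ 2 := by
    rw [sum_filter]
    apply sum_congr rfl
    intro n _
    split_ifs <;> simp
  rw [e1]
  rw [← sum_image (f := fun m => g m ^ 2) (g := fun n : ℕ => ((a : ℤ) * n + s).toNat)]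
  · apply sum_le_sum_of_subset_of_nonneg
    · intro m hm
      rw [mem_image] at hm
      obtain ⟨n, hn, rfl⟩ := hm
      rw [mem_filter] at hn
      have := h n hn.1
      rw [mem_Icc]
      constructor
      · omega
      · omega
    · intro _ _ _; positivity
  · intro n hn n' hn' hnn
    rw [mem_coe, mem_filter] at hn hn'
    simp only at hnn
    have e2 : (a : ℤ) * n + s = (a : ℤ) * n' + s := by omega
    have e3 : (a : ℤ) * n = (a : ℤ) * n' := by linarith
    have e4 := mul_left_cancel₀ (by exact_mod_cast (by omega : a ≠ 0) : (a : ℤ) ≠ 0) e3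
    exact_mod_cast e4

/-- the prime powers are negligible -/
lemma pp_small {a B N X : ℕ} {G : ℝ} (ha : 1 ≤ a) (hB : 1 ≤ B) (hN : 3 ≤ N) (hX : a * X ≤ B * N) {s : ℤ} (hs : |s| ≤ B * N)
    (w : ℕ → ℂ) (hw : ∑ n ∈ Icc 1 (B * N / a), ‖w n‖ ^ 2 ≤ G) :
    ‖∑ n ∈ Icc 1 X, w n * exI (fun n => ((ArithmeticFunction.vonMangoldt n - th n : ℝ) : ℂ)) (a * n + s)‖ ^ 2 ≤
      G * (Real.log ((2 * B * N : ℕ) : ℝ) * (2 * √((2 * B * N : ℕ) : ℝ) * Real.log ((2 * B * N : ℕ) : ℝ))) := by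
  set M : ℕ := 2 * B * N with hM
  have hM1 : 1 ≤ M := by
    rw [hM]
    have : 0 < 2 * B * N := Nat.mul_pos (by omega) (by omega)
    omega
  have hXle : X ≤ B * N / a := by
    rw [Nat.le_div_iff_mul_le (by omega), mul_comm]
    exact hX
  have e1 : ‖∑ n ∈ Icc 1 X, w n * exI (fun n => ((ArithmeticFunction.vonMangoldt n - th n : ℝ) : ℂ)) (a * n + s)‖ ^ 2 ≤
      (∑ n ∈ Icc 1 X, ‖w n‖ ^ 2) * ∑ n ∈ Icc 1 X, ‖exI (fun n => ((ArithmeticFunction.vonMangoldt n - th n : ℝ) : ℂ)) (a * n + s)‖ ^ 2 := by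
    have f1 : ‖∑ n ∈ Icc 1 X, w n * exI (fun n => ((ArithmeticFunction.vonMangoldt n - th n : ℝ) : ℂ)) (a * n + s)‖ ≤
        ∑ n ∈ Icc 1 X, ‖w n‖ * ‖exI (fun n => ((ArithmeticFunction.vonMangoldt n - th n : ℝ) : ℂ)) (a * n + s)‖ := by
      refine (norm_sum_le _ _).trans (le_of_eq ?_)
      apply sum_congr rfl; intro n _; rw [norm_mul]
    exact (pow_le_pow_left₀ (norm_nonneg _) f1 2).trans (sum_mul_sq_le_sq_mul_sq _ _ _)
  have e2 : ∑ n ∈ Icc 1 X, ‖w n‖ ^ 2 ≤ G := by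
    refine le_trans ?_ hw
    exact sum_le_sum_of_subset_of_nonneg (Icc_subset_Icc_right hXle) fun _ _ _ => sq_nonneg _
  have e3 : ∑ n ∈ Icc 1 X, ‖exI (fun n => ((ArithmeticFunction.vonMangoldt n - th n : ℝ) : ℂ)) (a * n + s)‖ ^ 2 ≤
      ∑ m ∈ Icc 1 M, (ArithmeticFunction.vonMangoldt m - th m) ^ 2 := by
    refine le_trans (le_of_eq ?_) (prog_sq (fun m => ArithmeticFunction.vonMangoldt m - th m) (M := M) ha s (X := X) ?_)
    · apply sum_congr rfl
      intro n _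
      unfold exI
      split_ifs
      · rw [Complex.norm_real, Real.norm_eq_abs, sq_abs]
      · simp
    · intro n hn
      rw [mem_Icc] at hn
      have f1 : a * n ≤ B * N := (Nat.mul_le_mul_left a hn.2).trans hX
      have f2 : (a : ℤ) * n ≤ B * N := by exact_mod_cast f1
      have f3 := (abs_le.1 hs).2
      rw [hM]
      push_cast
      linarith
  have e4 : ∑ m ∈ Icc 1 M, (ArithmeticFunction.vonMangoldt m - th m) ^ 2 ≤
      Real.log M * (2 * √(M : ℝ) * Real.log M) := by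
    calc ∑ m ∈ Icc 1 M, (ArithmeticFunction.vonMangoldt m - th m) ^ 2 ≤
          ∑ m ∈ Icc 1 M, Real.log M * (ArithmeticFunction.vonMangoldt m - th m) := by
          apply sum_le_sum
          intro m hm
          rw [mem_Icc] at hm
          have f1 : 0 ≤ ArithmeticFunction.vonMangoldt m - th m := by linarith [th_le m]
          have f2 : ArithmeticFunction.vonMangoldt m - th m ≤ Real.log M := by
            have g1 : ArithmeticFunction.vonMangoldt m ≤ Real.log m := ArithmeticFunction.vonMangoldt_le_log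
            have g2 : Real.log m ≤ Real.log M := Real.log_le_log (by exact_mod_cast hm.1) (by exact_mod_cast hm.2)
            have g3 := th_nonneg m
            linarith
          rw [sq]
          exact mul_le_mul_of_nonneg_right f2 f1
      _ = Real.log M * ∑ m ∈ Icc 1 M, (ArithmeticFunction.vonMangoldt m - th m) := by rw [mul_sum]
      _ ≤ _ := mul_le_mul_of_nonneg_left (sum_La_sub_th hM1) (Real.log_natCast_nonneg M)
  refine e1.trans (mul_le_mul e2 (e3.trans e4) (sum_nonneg fun _ _ => sq_nonneg _) ?_)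
  exact le_trans (sum_nonneg fun _ _ => sq_nonneg _) hw

end Pool.Agent.P8H14.PL
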