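import Pool.Agent.P8H13.PK.Model
import Pool.Agent.Helper256.KM.Mertens
import Pool.Agent.H398R2.BA1

set_option autoImplicit false

/-!
# Moments of the model
-/

open Finset

namespace Pool.Agent.P8H14.PL

open Pool.Agent.P8H13.PK

/-- the primes up to `Q` -/
def PQs (Q : ℕ) : Finset ℕ := (Icc 1 Q).filter Nat.Prime

lemma mem_PQs {Q p : ℕ} : p ∈ PQs Q ↔ p ≤ Q ∧ p.Prime := by
  unfold PQs
  rw [mem_filter, mem_Icc]
  constructor
  · rintro ⟨⟨_, h⟩, hp⟩; exact ⟨h, hp⟩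
  · rintro ⟨h, hp⟩; exact ⟨⟨hp.one_le, h⟩, hp⟩

/-- products over the primes -/
lemma prod_primes (m : ℕ) : ∃ C : ℝ, 1 ≤ C ∧ ∀ Q : ℕ, 3 ≤ Q →
    ∏ p ∈ PQs Q, (1 + (m : ℝ) / p) ≤ C * Real.log Q ^ m := by
  obtain ⟨C, hC⟩ := Pool.Agent.Helper256.KM.mertens_inv
  have hC0 : 0 ≤ C := (abs_nonneg _).trans (hC 3 le_rfl)
  refine ⟨Real.exp (m * C), Real.one_le_exp (by positivity), fun Q hQ => ?_⟩
  have h1 := (abs_le.1 (hC Q hQ)).2
  have hl : 1 < Real.log Q := by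
    rw [Real.lt_log_iff_exp_lt (by positivity)]
    have := Real.exp_one_lt_d9
    have h3 : (3 : ℝ) ≤ Q := by exact_mod_cast hQ
    linarith
  calc ∏ p ∈ PQs Q, (1 + (m : ℝ) / p) ≤ ∏ p ∈ PQs Q, Real.exp ((m : ℝ) * (1 / p)) := by
        apply prod_le_prod (fun p _ => by positivity)
        intro p _
        have := Real.add_one_le_exp ((m : ℝ) * (1 / p))
        calc 1 + (m : ℝ) / p = (m : ℝ) * (1 / p) + 1 := by ring
          _ ≤ _ := this
    _ = Real.exp (m * ∑ p ∈ PQs Q, (1 : ℝ) / p) := by rw [← Real.exp_sum, mul_sum]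
    _ ≤ Real.exp (m * (Real.log (Real.log Q) + C)) := by
        apply Real.exp_le_exp.2
        apply mul_le_mul_of_nonneg_left _ (Nat.cast_nonneg _)
        unfold PQs
        linarith
    _ = Real.exp (m * C) * Real.log Q ^ m := by
        rw [mul_add, Real.exp_add, Real.exp_nat_mul, Real.exp_log (by linarith), mul_comm]

/-- the number of the small primes dividing `n`, as a power of two -/
noncomputable def tw (Q n : ℕ) : ℝ := ∏ p ∈ PQs Q, (if p ∣ n then (2 : ℝ) else 1)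

lemma tw_nonneg (Q n : ℕ) : 0 ≤ tw Q n := prod_nonneg fun p _ => by split_ifs <;> norm_num

/-- the size of the model -/
theorem mo_tw : ∃ C : ℝ, 1 ≤ C ∧ ∀ Q : ℕ, 3 ≤ Q → ∀ n : ℕ, |mo 1 Q 0 n| ≤ tw Q n * (C * Real.log Q ^ 2) := by
  obtain ⟨C, hC1, hC⟩ := prod_primes 2
  refine ⟨C, hC1, fun Q hQ n => ?_⟩
  have h1 : |mo 1 Q 0 n| ≤ ∑ r ∈ RQ 1 Q, ∏ p ∈ r.primeFactors, |lf p n| := by
    unfold mo
    refine (abs_sum_le_sum_abs _ _).trans (sum_le_sum fun r _ => ?_)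
    unfold hr
    rw [abs_prod, zero_add, one_mul]
  refine h1.trans ((sum_RQ_le (fun p => |lf p n|) (fun p _ => abs_nonneg _)).trans ?_)
  have hS : (Icc 1 Q).filter (fun p => p.Prime ∧ ¬ p ∣ 1) = PQs Q := by
    unfold PQs
    ext p
    rw [mem_filter, mem_filter]
    constructor
    · rintro ⟨h1, h2, _⟩; exact ⟨h1, h2⟩
    · rintro ⟨h1, h2⟩; exact ⟨h1, h2, fun h => h2.one_lt.ne' (Nat.dvd_one.1 h)⟩
  rw [hS]
  calc ∏ p ∈ PQs Q, (1 + |lf p n|) ≤ ∏ p ∈ PQs Q, ((if p ∣ n then (2 : ℝ) else 1) * (1 + ((2 : ℕ) : ℝ) / p)) := by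
        apply prod_le_prod (fun p _ => by positivity)
        intro p hp
        have hp' := (mem_PQs.1 hp).2
        have h2 : (2 : ℝ) ≤ p := by exact_mod_cast hp'.two_le
        unfold lf
        split_ifs with h
        · rw [abs_neg, abs_one]
          have : 0 ≤ ((2 : ℕ) : ℝ) / p := by positivity
          linarith
        · rw [abs_of_nonneg (by apply div_nonneg <;> linarith), one_mul]
          have : 1 / ((p : ℝ) - 1) ≤ ((2 : ℕ) : ℝ) / p := by
            rw [div_le_div_iff₀ (by linarith) (by linarith)]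
            push_cast
            linarith
          linarith
    _ = tw Q n * ∏ p ∈ PQs Q, (1 + ((2 : ℕ) : ℝ) / p) := by rw [prod_mul_distrib]; rfl
    _ ≤ _ := mul_le_mul_of_nonneg_left (hC Q hQ) (tw_nonneg Q n)

/-- the divisor function dominates -/
lemma tw_le {Q n : ℕ} (hn : 1 ≤ n) : tw Q n ≤ n.divisors.card := by
  have h1 : tw Q n ≤ ∏ p ∈ n.primeFactors, (2 : ℝ) := by
    unfold tw
    rw [prod_ite, prod_const_one, mul_one, prod_const, prod_const]
    apply pow_le_pow_right₀ (by norm_num)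
    apply card_le_card
    intro p hp
    rw [mem_filter] at hp
    exact Nat.mem_primeFactors.2 ⟨(mem_PQs.1 hp.1).2, hp.2, by omega⟩
  refine h1.trans ?_
  rw [Nat.card_divisors (by omega)]
  push_cast
  apply prod_le_prod (fun _ _ => by norm_num)
  intro p hp
  have : 1 ≤ n.factorization p := (Nat.prime_of_mem_primeFactors hp).factorization_pos_of_dvd (by omega)
    (Nat.dvd_of_mem_primeFactors hp)
  have : (1 : ℝ) ≤ n.factorization p := by exact_mod_cast this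
  linarith

/-- moments over an interval -/
theorem mo_moment (m : ℕ) : ∃ C : ℝ, 1 ≤ C ∧ ∀ Q Z : ℕ, 3 ≤ Q → Q ≤ Z →
    ∑ n ∈ Icc 1 Z, |mo 1 Q 0 n| ^ m ≤ Z * (C * Real.log Z ^ (2 * m + 2 ^ m)) := by
  obtain ⟨C, hC1, hC⟩ := mo_tw
  refine ⟨C ^ m * 2 ^ (2 ^ m), one_le_mul_of_one_le_of_one_le (one_le_pow₀ hC1) (one_le_pow₀ (by norm_num)),
    fun Q Z hQ hQZ => ?_⟩
  have hl : 1 < Real.log Q := by
    rw [Real.lt_log_iff_exp_lt (by positivity)]
    have := Real.exp_one_lt_d9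
    have h3 : (3 : ℝ) ≤ Q := by exact_mod_cast hQ
    linarith
  have hlZ : Real.log Q ≤ Real.log Z := Real.log_le_log (by positivity) (by exact_mod_cast hQZ)
  have h1 : ∀ n ∈ Icc 1 Z, |mo 1 Q 0 n| ^ m ≤ (C * Real.log Z ^ 2) ^ m * (Z * ((n.divisors.card : ℝ) ^ m / n)) := by
    intro n hn
    rw [mem_Icc] at hn
    have hn0 : (0 : ℝ) < n := by exact_mod_cast hn.1
    have h2 : |mo 1 Q 0 n| ≤ (n.divisors.card : ℝ) * (C * Real.log Z ^ 2) := by
      refine (hC Q hQ n).trans ?_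
      gcongr
      exact tw_le hn.1
    calc |mo 1 Q 0 n| ^ m ≤ ((n.divisors.card : ℝ) * (C * Real.log Z ^ 2)) ^ m := pow_le_pow_left₀ (abs_nonneg _) h2 m
      _ = (C * Real.log Z ^ 2) ^ m * ((n.divisors.card : ℝ) ^ m * 1) := by rw [mul_pow]; ring
      _ ≤ (C * Real.log Z ^ 2) ^ m * ((n.divisors.card : ℝ) ^ m * (Z / n)) := by
          apply mul_le_mul_of_nonneg_left _ (by positivity)
          apply mul_le_mul_of_nonneg_left _ (by positivity)
          rw [one_le_div hn0]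
          exact_mod_cast hn.2
      _ = _ := by ring
  refine (sum_le_sum h1).trans ?_
  rw [← mul_sum, ← mul_sum]
  have h3 := Pool.Agent.H398R2.BV.sum_card_pow_div m Z
  calc (C * Real.log Z ^ 2) ^ m * (Z * ∑ n ∈ Icc 1 Z, (n.divisors.card : ℝ) ^ m / n)
      ≤ (C * Real.log Z ^ 2) ^ m * (Z * (2 * Real.log Z) ^ 2 ^ m) := by
        apply mul_le_mul_of_nonneg_left _ (by positivity)
        apply mul_le_mul_of_nonneg_left _ (by positivity)
        refine h3.trans ?_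
        apply pow_le_pow_left₀ (by linarith)
        linarith
    _ = _ := by
        rw [mul_pow, mul_pow, ← pow_mul, pow_add]
        ring

/-- the period of the model -/
def Pr (Q : ℕ) : ℕ := ∏ p ∈ PQs Q, p

lemma Pr_pos (Q : ℕ) : 0 < Pr Q := prod_pos fun p hp => (mem_PQs.1 hp).2.pos

lemma mo_per (Q n : ℕ) : mo 1 Q 0 (n + Pr Q) = mo 1 Q 0 n := by
  unfold mo
  apply sum_congr rfl
  intro r hr'
  rw [mem_RQ] at hr'
  unfold hr
  apply prod_congr rfl
  intro p hp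
  have hp' := Nat.prime_of_mem_primeFactors hp
  have hd : p ∣ Pr Q := dvd_prod_of_mem _ (mem_PQs.2
    ⟨(Nat.le_of_dvd (by omega) (Nat.dvd_of_mem_primeFactors hp)).trans hr'.1.2, hp'⟩)
  apply lf_congr
  rw [zero_add, zero_add, one_mul, one_mul, Nat.dvd_add_left hd]

/-- moments over a period -/
theorem tw_period (m : ℕ) : ∃ C : ℝ, 1 ≤ C ∧ ∀ Q : ℕ, 3 ≤ Q → ∀ h : ℕ,
    ∑ n ∈ range (Pr Q), tw Q (n + h) ^ m ≤ Pr Q * (C * Real.log Q ^ (2 ^ m)) := by
  obtain ⟨C, hC1, hC⟩ := prod_primes (2 ^ m)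
  refine ⟨C, hC1, fun Q hQ h => ?_⟩
  set f : ℕ → ℕ → ℝ := fun p t => if p ∣ t + h then (2 : ℝ) ^ m else 1 with hf
  have h1 : ∀ n, tw Q (n + h) ^ m = ∏ p ∈ PQs Q, f p n := by
    intro n
    unfold tw
    rw [← prod_pow]
    apply prod_congr rfl
    intro p _
    rw [hf]
    simp only
    split_ifs <;> simp
  have h2 := per_prod (S := PQs Q) (fun p hp => (mem_PQs.1 hp).2) (f := f) (by
    intro p _ t
    rw [hf]
    simp only
    have e : (p ∣ t + p + h) ↔ p ∣ t + h := by rw [show t + p + h = t + h + p by ring, Nat.dvd_add_self_right]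
    by_cases hd : p ∣ t + h
    · rw [if_pos hd, if_pos (e.2 hd)]
    · rw [if_neg hd, if_neg (fun h' => hd (e.1 h'))])
  rw [sum_congr rfl fun n _ => h1 n]
  unfold Pr
  rw [h2]
  have h3 : ∀ p ∈ PQs Q, ∑ t ∈ range p, f p t ≤ p * (1 + ((2 ^ m : ℕ) : ℝ) / p) := by
    intro p hp
    have hp' := (mem_PQs.1 hp).2
    have hp0 : (0 : ℝ) < p := by exact_mod_cast hp'.pos
    obtain ⟨b0, hb0', hiff⟩ := dvd_unique hp' (D := 1) (by
      intro h; exact hp'.one_lt.ne' (Nat.dvd_one.1 h)) h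
    have h4 : ∀ t ∈ range p, f p t ≤ 1 + if t = b0 then (2 : ℝ) ^ m else 0 := by
      intro t ht
      rw [hf]
      simp only
      have h5 := hiff t ht
      rw [one_mul, add_comm] at h5
      by_cases h6 : t = b0
      · rw [if_pos (h5.2 h6), if_pos h6]; linarith
      · rw [if_neg (fun h => h6 (h5.1 h)), if_neg h6]; linarith
    refine (sum_le_sum h4).trans ?_
    rw [sum_add_distrib, sum_ite_eq', if_pos hb0', sum_const, card_range, nsmul_eq_mul, mul_one, mul_add, mul_one,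
      mul_div_cancel₀ _ hp0.ne']
    push_cast
    exact le_rfl
  calc ∏ p ∈ PQs Q, ∑ t ∈ range p, f p t ≤ ∏ p ∈ PQs Q, ((p : ℝ) * (1 + ((2 ^ m : ℕ) : ℝ) / p)) := by
        apply prod_le_prod _ h3
        intro p _
        apply sum_nonneg
        intro t _
        rw [hf]
        simp only
        split_ifs <;> positivity
    _ = ((∏ p ∈ PQs Q, p : ℕ) : ℝ) * ∏ p ∈ PQs Q, (1 + ((2 ^ m : ℕ) : ℝ) / p) := by
        rw [prod_mul_distrib]; push_cast; rfl
    _ ≤ _ := mul_le_mul_of_nonneg_left (hC Q hQ) (Nat.cast_nonneg _)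

/-- a crude inequality between products and sums of powers -/
lemma prod_le_sum_pow {k : ℕ} (a : Fin k → ℝ) (ha : ∀ i, 0 ≤ a i) : ∏ i, a i ≤ 1 + ∑ i, a i ^ k := by
  rcases Nat.eq_zero_or_pos k with hk | hk
  · subst hk; simp
  · have hne : (univ : Finset (Fin k)).Nonempty := ⟨⟨0, hk⟩, mem_univ _⟩
    obtain ⟨j, _, hj⟩ := exists_max_image univ a hne
    calc ∏ i, a i ≤ ∏ _i : Fin k, a j := prod_le_prod (fun i _ => ha i) (fun i _ => hj i (mem_univ i))
      _ = a j ^ k := by rw [prod_const, card_univ, Fintype.card_fin]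
      _ ≤ ∑ i, a i ^ k := single_le_sum (f := fun i => a i ^ k) (fun i _ => pow_nonneg (ha i) k) (mem_univ j)
      _ ≤ _ := by linarith

/-- the mean square of a product of models over a period -/
theorem mo_period (k : ℕ) : ∃ C : ℝ, 1 ≤ C ∧ ∀ Q : ℕ, 3 ≤ Q → ∀ h : Fin k → ℕ,
    ∑ n ∈ range (Pr Q), (∏ i, mo 1 Q 0 (n + h i)) ^ 2 ≤ Pr Q * (C * Real.log Q ^ (4 * k + 2 ^ (2 * k))) := by
  obtain ⟨C, hC1, hC⟩ := mo_tw
  obtain ⟨D, hD1, hD⟩ := tw_period (2 * k)
  refine ⟨1 + k * (C ^ (2 * k) * D), ?_, fun Q hQ h => ?_⟩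
  · have : 0 ≤ k * (C ^ (2 * k) * D) := by positivity
    linarith
  have hl : 1 < Real.log Q := by
    rw [Real.lt_log_iff_exp_lt (by positivity)]
    have := Real.exp_one_lt_d9
    have h3 : (3 : ℝ) ≤ Q := by exact_mod_cast hQ
    linarith
  have h1 : ∀ n ∈ range (Pr Q), (∏ i, mo 1 Q 0 (n + h i)) ^ 2 ≤ 1 + ∑ i, (C * Real.log Q ^ 2) ^ (2 * k) * tw Q (n + h i) ^ (2 * k) := by
    intro n _
    have h2 := prod_le_sum_pow (fun i => mo 1 Q 0 (n + h i) ^ 2) (fun i => sq_nonneg _)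
    rw [← prod_pow]
    refine h2.trans ?_
    apply add_le_add_right
    apply sum_le_sum
    intro i _
    rw [← mul_pow, mul_comm (C * Real.log Q ^ 2), pow_mul (tw Q (n + h i) * (C * Real.log Q ^ 2)) 2 k]
    apply pow_le_pow_left₀ (sq_nonneg _)
    rw [← sq_abs (mo 1 Q 0 (n + h i))]
    exact pow_le_pow_left₀ (abs_nonneg _) (hC Q hQ _) 2
  refine (sum_le_sum h1).trans ?_
  rw [sum_add_distrib, sum_comm, sum_const, card_range, nsmul_eq_mul, mul_one]
  have h3 : ∀ i ∈ (univ : Finset (Fin k)), ∑ n ∈ range (Pr Q), (C * Real.log Q ^ 2) ^ (2 * k) * tw Q (n + h i) ^ (2 * k) ≤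
      (C * Real.log Q ^ 2) ^ (2 * k) * (Pr Q * (D * Real.log Q ^ (2 ^ (2 * k)))) := by
    intro i _
    rw [← mul_sum]
    exact mul_le_mul_of_nonneg_left (hD Q hQ (h i)) (by positivity)
  have h4 := sum_le_sum h3
  rw [sum_const, card_univ, Fintype.card_fin, nsmul_eq_mul] at h4
  have h5 : (C * Real.log Q ^ 2) ^ (2 * k) * (Pr Q * (D * Real.log Q ^ (2 ^ (2 * k)))) =
      Pr Q * (C ^ (2 * k) * D) * Real.log Q ^ (4 * k + 2 ^ (2 * k)) := by
    rw [mul_pow, ← pow_mul, pow_add, show 2 * (2 * k) = 4 * k by ring]; ring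
  rw [h5] at h4
  have h6 : (1 : ℝ) ≤ Real.log Q ^ (4 * k + 2 ^ (2 * k)) := one_le_pow₀ hl.le
  calc (Pr Q : ℝ) + _ ≤ Pr Q * Real.log Q ^ (4 * k + 2 ^ (2 * k)) +
        k * (Pr Q * (C ^ (2 * k) * D) * Real.log Q ^ (4 * k + 2 ^ (2 * k))) := by
        apply add_le_add _ h4
        exact le_mul_of_one_le_right (Nat.cast_nonneg _) h6
    _ = _ := by ring

end Pool.Agent.P8H14.PL
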