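import Pool.Agent.P8H14.PL.L1
import Pool.Agent.P8H13.GK.Split

set_option autoImplicit false

/-!
# The exponential sums of the primes minus the model: few frequencies
-/

namespace Pool.Agent.P8H14.PL

open Finset
open Pool.Agent.H807R2.Dav
open Pool.Agent.TH823.PS (rr mem_rr)
open Pool.Agent.P8H13.PK
open Pool.Agent.P8H13.GK

/-- one minor frequency -/
lemma minor_df {l : ℝ} {T : ℕ} (hpar : Par l T 1 T) {α : ℝ} (hα : ¬ Maj (Ql l) (HH l T) α) :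
    ‖∑ t ∈ range T, ((df l t : ℝ) : ℂ) * ee (t * α)‖ ≤ T * Real.exp (-(l / 5)) := by
  have hT0 : (0 : ℝ) < T := hpar.T0
  have hl10 := hpar.hl
  apply minor_FF hpar (by norm_num : 0 < 1)
  apply minor_of_not_maj (H := HH l T) _ hα
  have f1 : ((HH l T : ℕ) : ℝ) ≤ T * Real.exp (-(4 * l)) := HH_le T
  have hpi := Real.pi_lt_four
  have hpi0 := Real.pi_pos
  have f2 : ((HH l T : ℕ) : ℝ) * (7 * (1 : ℕ) * Real.exp (3 * l) / T) ≤ 7 * Real.exp (-l) := by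
    rw [mul_div_assoc', div_le_iff₀ hT0]
    calc ((HH l T : ℕ) : ℝ) * (7 * (1 : ℕ) * Real.exp (3 * l)) ≤ (T * Real.exp (-(4 * l))) * (7 * (1 : ℕ) * Real.exp (3 * l)) := by
          gcongr
      _ = 7 * (Real.exp (-(4 * l)) * Real.exp (3 * l)) * T := by push_cast; ring
      _ = 7 * Real.exp (-l) * T := by rw [← Real.exp_add]; ring_nf
  have f3 : Real.exp (-l) ≤ 1 / 100 := by
    have := exp_big (l := l) (c := 1) hl10 (by norm_num)
    rw [one_mul] at this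
    rw [Real.exp_neg, inv_eq_one_div]
    exact one_div_le_one_div_of_le (by norm_num) this
  have f4 : 0 ≤ ((HH l T : ℕ) : ℝ) * (7 * (1 : ℕ) * Real.exp (3 * l) / T) := by positivity
  calc Real.pi * ((HH l T : ℕ) : ℝ) * (7 * (1 : ℕ) * Real.exp (3 * l) / T) =
        Real.pi * (((HH l T : ℕ) : ℝ) * (7 * (1 : ℕ) * Real.exp (3 * l) / T)) := by ring
    _ ≤ 4 * (7 * (1 / 100)) := by
        apply mul_le_mul hpi.le _ f4 (by norm_num)
        linarith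
    _ ≤ 1 := by norm_num

open Classical in
/-- **few frequencies** -/
theorem freqA (A : ℕ) {c C : ℝ} (hc : 0 < c) (hc8 : c ≤ 1 / 8) (hC : 0 < C) : ∃ c1 l0 : ℝ, 0 < c1 ∧ 1000 ≤ l0 ∧
    ∀ l : ℝ, l0 ≤ l → ∀ T : ℕ, Par l T 1 T → Reg c C (12 * l) →
      (10 : ℝ) ^ 8 * Real.log T ^ (A + 13) ≤ Real.exp (l / 100) →
      Real.log T ≤ 36 * l ^ 2 → l * Real.log (Real.log T) ≤ c1 * Real.log T →
      ∀ S ⊆ range (2 * T), (S.card : ℝ) ≤ Real.exp (l / 5) →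
        ∑ k ∈ S, ‖∑ t ∈ range T, ((df l t : ℝ) : ℂ) * ee (t * ((k : ℝ) / (2 * T : ℕ)))‖ ^ 2 ≤
          (T : ℝ) ^ 2 / Real.log T ^ A := by
  obtain ⟨c1, l0, hc1, hl0, hmaj⟩ := majA (A + 1) hc hc8 hC
  refine ⟨c1, l0, hc1, hl0, fun l hl T hpar hReg hbig hβ1 hβ2 S hS hSc => ?_⟩
  have h1 := hmaj l hl T hpar hReg hbig hβ1 hβ2
  have hT0 : (0 : ℝ) < T := hpar.T0
  have hlog : 100 * l ≤ Real.log T := hpar.L1
  have hl1000 : 1000 ≤ l := hl0.trans hl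
  set β := Real.log (T : ℝ) with hβ
  have hβ0 : 0 < β := by linarith
  have hβ1' : 1 ≤ β := by linarith
  have hβA : 0 < β ^ A := by positivity
  have hsplit := sum_filter_add_sum_filter_not S (fun k : ℕ => Maj (Ql l) (HH l T) ((k : ℝ) / (2 * T : ℕ)))
    (fun k => ‖∑ t ∈ range T, ((df l t : ℝ) : ℂ) * ee (t * ((k : ℝ) / (2 * T : ℕ)))‖ ^ 2)
  rw [← hsplit]
  have g1 : ∑ k ∈ S.filter (fun k : ℕ => Maj (Ql l) (HH l T) ((k : ℝ) / (2 * T : ℕ))),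
      ‖∑ t ∈ range T, ((df l t : ℝ) : ℂ) * ee (t * ((k : ℝ) / (2 * T : ℕ)))‖ ^ 2 ≤ (T : ℝ) ^ 2 / β ^ (A + 1) := by
    refine le_trans ?_ h1
    apply sum_le_sum_of_subset_of_nonneg (filter_subset_filter _ hS)
    intro _ _ _
    positivity
  have g2 : ∑ k ∈ S.filter (fun k : ℕ => ¬ Maj (Ql l) (HH l T) ((k : ℝ) / (2 * T : ℕ))),
      ‖∑ t ∈ range T, ((df l t : ℝ) : ℂ) * ee (t * ((k : ℝ) / (2 * T : ℕ)))‖ ^ 2 ≤
      Real.exp (l / 5) * (T * Real.exp (-(l / 5))) ^ 2 := by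
    have f1 : ∀ k ∈ S.filter (fun k : ℕ => ¬ Maj (Ql l) (HH l T) ((k : ℝ) / (2 * T : ℕ))),
        ‖∑ t ∈ range T, ((df l t : ℝ) : ℂ) * ee (t * ((k : ℝ) / (2 * T : ℕ)))‖ ^ 2 ≤ (T * Real.exp (-(l / 5))) ^ 2 := by
      intro k hk
      exact pow_le_pow_left₀ (norm_nonneg _) (minor_df hpar (mem_filter.1 hk).2) 2
    refine (sum_le_sum f1).trans ?_
    rw [sum_const, nsmul_eq_mul]
    apply mul_le_mul_of_nonneg_right _ (by positivity)
    refine le_trans ?_ hSc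
    exact_mod_cast card_le_card (filter_subset _ _)
  have g3 : Real.exp (l / 5) * (T * Real.exp (-(l / 5))) ^ 2 = (T : ℝ) ^ 2 * Real.exp (-(l / 5)) := by
    have : Real.exp (l / 5) * Real.exp (-(l / 5)) = 1 := by rw [← Real.exp_add]; simp
    calc _ = (T : ℝ) ^ 2 * Real.exp (-(l / 5)) * (Real.exp (l / 5) * Real.exp (-(l / 5))) := by ring
      _ = _ := by rw [this, mul_one]
  have g4 : (T : ℝ) ^ 2 * Real.exp (-(l / 5)) ≤ (T : ℝ) ^ 2 / β ^ A * (1 / 2) := by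
    have f1 : Real.exp (-(l / 5)) ≤ 1 / (2 * β ^ A) := by
      rw [Real.exp_neg, inv_eq_one_div]
      apply one_div_le_one_div_of_le (by positivity)
      have f2 : Real.exp (l / 100) ≤ Real.exp (l / 5) := Real.exp_le_exp.2 (by linarith)
      have f3 : β ^ A * 1 ≤ β ^ A * β ^ 13 := mul_le_mul_of_nonneg_left (one_le_pow₀ hβ1') hβA.le
      rw [pow_add] at hbig
      linarith
    calc (T : ℝ) ^ 2 * Real.exp (-(l / 5)) ≤ (T : ℝ) ^ 2 * (1 / (2 * β ^ A)) := by gcongr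
      _ = _ := by field_simp
  have g5 : (T : ℝ) ^ 2 / β ^ (A + 1) ≤ (T : ℝ) ^ 2 / β ^ A * (1 / 2) := by
    rw [pow_succ β A, ← div_div, div_eq_mul_one_div ((T : ℝ) ^ 2 / β ^ A) β]
    apply mul_le_mul_of_nonneg_left _ (by positivity)
    exact one_div_le_one_div_of_le (by norm_num) (by linarith)
  linarith

end Pool.Agent.P8H14.PL
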