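import Pool.Agent.TH823.Fam.Fam2

set_option autoImplicit false

/-!
# Large correlations for many shifts of a family
-/

open Finset

namespace Pool.Agent.P8H14.PL

open Pool.Agent.H807R2.Dav (ee norm_ee ee_add ee_int)
open Pool.Agent.H373R2.T7 (orth fz triple majorant_pow parseval_Icc)

theorem corrF2 {A H M x p : ℕ} (hp : 1 ≤ p) (hM1 : 1 ≤ M) {f : ℕ → ℂ} {Fb : ℝ} (hf : ∑ n ∈ Icc 1 H, ‖f n‖ ^ 2 ≤ Fb) {s : ℕ → ℤ}
    (hM : ∀ a ∈ Icc 1 A, ∀ m ∈ Icc 1 x, ∀ n ∈ Icc 1 H, |(a : ℤ) + s m - n| < M) (hAM : A ≤ M)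
    (hHM : H ≤ M) {G : ℕ → ℂ} {W : ℝ} (hG : ∑ a ∈ Icc 1 A, ‖G a‖ ^ 2 ≤ W) {E : Finset ℕ}
    (hE : E ⊆ Icc 1 x) {V τ ρ Mm : ℝ} (hV0 : 0 < V) (hτ : 0 < τ) (hρ : 0 ≤ ρ)
    (hV : ∀ m ∈ E, V ≤ ‖∑ a ∈ Icc 1 A, G a * fz f H (a + s m)‖)
    (hmom : ∑ t ∈ range M, ‖∑ m ∈ Icc 1 x, ee ((t : ℝ) * (((-s m : ℤ) : ℝ) / M))‖ ^ (2 * p) ≤ Mm) {J : ℕ}
    (hK : ∀ K ⊆ range M, K.card ≤ J →
      ∑ t ∈ K, ‖∑ n ∈ Icc 1 H, f n * ee (n * ((t : ℝ) / M))‖ ^ 2 ≤ (ρ * M) ^ 2)
    (hbal : τ * √(Fb * W) + ρ * √(M * W) < V) :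
    J * (τ * E.card) ^ (2 * p) ≤ Mm := by
  classical
  by_contra hcon
  push Not at hcon
  have hMm0 : 0 ≤ Mm := le_trans (sum_nonneg fun _ _ => by positivity) hmom
  have hM0 : (0 : ℝ) < M := by exact_mod_cast hM1
  have hW0 : 0 ≤ W := le_trans (sum_nonneg fun _ _ => by positivity) hG
  have hE0 : (0 : ℝ) < E.card := by
    rcases Nat.eq_zero_or_pos E.card with h | h
    · rw [h, Nat.cast_zero, mul_zero, zero_pow (by omega), mul_zero] at hcon
      linarith
    · exact_mod_cast h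
  set S : ℕ → ℂ := fun m => ∑ a ∈ Icc 1 A, G a * fz f H (a + s m) with hS
  set c : ℕ → ℂ := fun m => if m ∈ E then (starRingEnd ℂ) (S m) / ‖S m‖ else 0 with hc
  have hSpos : ∀ m ∈ E, 0 < ‖S m‖ := fun m hm => lt_of_lt_of_le hV0 (hV m hm)
  have hc1 : ∀ m, ‖c m‖ ≤ 1 := by
    intro m
    rw [hc]
    simp only
    split_ifs with hm
    · rw [norm_div, RCLike.norm_conj, Complex.norm_real, norm_norm, div_self (hSpos m hm).ne']
    · rw [norm_zero]; norm_num
  have hcS : ∀ m ∈ E, c m * S m = ‖S m‖ := by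
    intro m hm
    have h1 := hSpos m hm
    have h2 : ((‖S m‖ : ℝ) : ℂ) ≠ 0 := by exact_mod_cast h1.ne'
    rw [hc]
    simp only
    rw [if_pos hm, div_mul_eq_mul_div, Complex.conj_mul', sq, mul_div_assoc, div_self h2, mul_one]
  set fh : ℕ → ℂ := fun t => ∑ n ∈ Icc 1 H, f n * ee (n * ((t : ℝ) / M)) with hfh
  set Gh : ℕ → ℂ := fun t => ∑ a ∈ Icc 1 A, G a * ee ((t : ℝ) * ((((-1 : ℤ) * a : ℤ) : ℝ) / M)) with hGh
  set Sh : ℕ → ℂ := fun t => ∑ m ∈ Icc 1 x, c m * ee ((t : ℝ) * (((-s m : ℤ) : ℝ) / M)) with hSh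
  -- the Fourier identity
  have hid : (M : ℂ) * ∑ a ∈ Icc 1 A, ∑ m ∈ Icc 1 x, G a * c m * fz f H (a + s m) =
      ∑ t ∈ range M, fh t * Gh t * Sh t := by
    have h1 : ∀ t ∈ range M, fh t * Gh t * Sh t = ∑ a ∈ Icc 1 A, ∑ m ∈ Icc 1 x, ∑ n ∈ Icc 1 H,
        G a * c m * f n * ee ((t : ℝ) * (((n - a - s m : ℤ) : ℝ) / M)) := by
      intro t _
      rw [hfh, hGh, hSh]
      simp only
      rw [← triple]
      apply sum_congr rfl
      intro a _
      apply sum_congr rfl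
      intro m _
      apply sum_congr rfl
      intro n _
      have h2 : ee ((t : ℝ) * (((n - a - s m : ℤ) : ℝ) / M)) =
          ee ((t : ℝ) * ((((-1 : ℤ) * a : ℤ) : ℝ) / M)) * ee (n * ((t : ℝ) / M)) *
            ee ((t : ℝ) * (((-s m : ℤ) : ℝ) / M)) := by
        rw [← ee_add, ← ee_add]
        congr 1
        push_cast
        ring
      rw [h2]
      ring
    rw [sum_congr rfl h1]
    symm
    rw [sum_comm, mul_sum]
    apply sum_congr rfl
    intro a ha
    rw [sum_comm, mul_sum]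
    apply sum_congr rfl
    intro m hm
    rw [sum_comm]
    have h2 : ∀ n ∈ Icc 1 H, ∑ t ∈ range M, G a * c m * f n * ee ((t : ℝ) * (((n - a - s m : ℤ) : ℝ) / M)) =
        if (n : ℤ) = a + s m then (M : ℂ) * (G a * c m * f n) else 0 := by
      intro n hn
      rw [← mul_sum, orth M hM1]
      by_cases h3 : (n : ℤ) = a + s m
      · rw [if_pos h3, if_pos (by rw [h3]; simp)]
        ring
      · rw [if_neg h3, if_neg, mul_zero]
        intro hd
        apply h3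
        have h4 : (M : ℤ) ∣ (a : ℤ) + s m - n := by
          obtain ⟨w, hw⟩ := hd
          exact ⟨-w, by rw [mul_neg, ← hw]; ring⟩
        have := Int.eq_zero_of_abs_lt_dvd h4 (hM a ha m hm n hn)
        omega
    rw [sum_congr rfl h2]
    unfold fz
    by_cases h3 : 1 ≤ (a : ℤ) + s m ∧ (a : ℤ) + s m ≤ H
    · rw [if_pos h3, sum_eq_single ((a : ℤ) + s m).toNat]
      · rw [if_pos (by rw [Int.toNat_of_nonneg (by omega)])]
      · intro n _ hne
        rw [if_neg]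
        intro h4
        apply hne
        omega
      · intro h4
        exfalso
        apply h4
        rw [mem_Icc]
        omega
    · rw [if_neg h3, mul_zero, mul_zero]
      apply sum_eq_zero
      intro n hn
      rw [mem_Icc] at hn
      rw [if_neg]
      omega
  have hsum : ∑ a ∈ Icc 1 A, ∑ m ∈ Icc 1 x, G a * c m * fz f H (a + s m) =
      ((∑ m ∈ E, ‖S m‖ : ℝ) : ℂ) := by
    rw [sum_comm]
    have h1 : ∀ m ∈ Icc 1 x, ∑ a ∈ Icc 1 A, G a * c m * fz f H (a + s m) =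
        if m ∈ E then ((‖S m‖ : ℝ) : ℂ) else 0 := by
      intro m _
      have h2 : ∑ a ∈ Icc 1 A, G a * c m * fz f H (a + s m) = c m * S m := by
        rw [hS, mul_sum]
        apply sum_congr rfl
        intro a _
        ring
      rw [h2]
      split_ifs with hm
      · exact hcS m hm
      · have : c m = 0 := by rw [hc]; simp only; rw [if_neg hm]
        rw [this, zero_mul]
    rw [sum_congr rfl h1, ← sum_filter,
      show (Icc 1 x).filter (fun m => m ∈ E) = E from by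
        ext m; rw [mem_filter]; exact ⟨fun h => h.2, fun h => ⟨hE h, h⟩⟩]
    push_cast
    rfl
  have hlow : (M : ℝ) * (V * E.card) ≤ ∑ t ∈ range M, ‖fh t‖ * ‖Gh t‖ * ‖Sh t‖ := by
    have h2 : (M : ℝ) * ∑ m ∈ E, ‖S m‖ = ‖∑ t ∈ range M, fh t * Gh t * Sh t‖ := by
      rw [← hid, hsum, norm_mul, Complex.norm_natCast, Complex.norm_real,
        Real.norm_of_nonneg (sum_nonneg fun _ _ => norm_nonneg _)]
    have h4 : V * E.card ≤ ∑ m ∈ E, ‖S m‖ := by
      have := sum_le_sum hV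
      rw [sum_const, nsmul_eq_mul] at this
      linarith
    calc (M : ℝ) * (V * E.card) ≤ M * ∑ m ∈ E, ‖S m‖ := mul_le_mul_of_nonneg_left h4 hM0.le
      _ = _ := h2
      _ ≤ ∑ t ∈ range M, ‖fh t * Gh t * Sh t‖ := norm_sum_le _ _
      _ = _ := by
          apply sum_congr rfl
          intro k _
          rw [norm_mul, norm_mul]
  -- Parseval
  have hFb0 : 0 ≤ Fb := le_trans (sum_nonneg fun _ _ => by positivity) hf
  have pF : ∑ t ∈ range M, ‖fh t‖ ^ 2 ≤ M * Fb := by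
    have h1 := parseval_Icc H M hM1 hHM f 1 (Or.inl rfl)
    have h2 : ∑ t ∈ range M, ‖fh t‖ ^ 2 =
        ∑ t ∈ range M, ‖∑ a ∈ Icc 1 H, f a * ee ((t : ℝ) * ((((1 : ℤ) * a : ℤ) : ℝ) / M))‖ ^ 2 := by
      apply sum_congr rfl
      intro t _
      congr 2
      rw [hfh]
      apply sum_congr rfl
      intro n _
      congr 2
      push_cast
      ring
    rw [h2, h1]
    exact mul_le_mul_of_nonneg_left hf hM0.le
  have pG : ∑ t ∈ range M, ‖Gh t‖ ^ 2 ≤ M * W := by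
    have h1 := parseval_Icc A M hM1 hAM G (-1) (Or.inr rfl)
    rw [h1]
    exact mul_le_mul_of_nonneg_left hG hM0.le
  have hShle : ∀ t, ‖Sh t‖ ≤ E.card := by
    intro t
    refine (norm_sum_le _ _).trans ?_
    have h1 : ∀ m ∈ Icc 1 x, ‖c m * ee ((t : ℝ) * (((-s m : ℤ) : ℝ) / M))‖ ≤
        if m ∈ E then (1 : ℝ) else 0 := by
      intro m _
      rw [norm_mul, norm_ee, mul_one]
      split_ifs with hm
      · exact hc1 m
      · have : c m = 0 := by rw [hc]; simp only; rw [if_neg hm]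
        rw [this, norm_zero]
    refine (sum_le_sum h1).trans ?_
    rw [← sum_filter, sum_const, nsmul_eq_mul, mul_one,
      show (Icc 1 x).filter (fun m => m ∈ E) = E from by
        ext m; rw [mem_filter]; exact ⟨fun h => h.2, fun h => ⟨hE h, h⟩⟩]
  -- the large values
  set K := (range M).filter (fun t => τ * E.card < ‖Sh t‖) with hKd
  have hKc : K.card ≤ J := by
    have h1 : (K.card : ℝ) * (τ * E.card) ^ (2 * p) ≤ Mm := by
      refine le_trans ?_ ((majorant_pow p x c hc1 (fun m => -s m) M hM1).trans hmom)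
      calc (K.card : ℝ) * (τ * E.card) ^ (2 * p) = ∑ k ∈ K, (τ * E.card) ^ (2 * p) := by
            rw [sum_const, nsmul_eq_mul]
        _ ≤ ∑ k ∈ K, ‖Sh k‖ ^ (2 * p) := by
            apply sum_le_sum
            intro k hk
            rw [hKd, mem_filter] at hk
            exact pow_le_pow_left₀ (by positivity) hk.2.le _
        _ ≤ ∑ k ∈ range M, ‖Sh k‖ ^ (2 * p) :=
            sum_le_sum_of_subset_of_nonneg (filter_subset _ _) fun _ _ _ => by positivity
    by_contra h2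
    push Not at h2
    have h3 : (J : ℝ) * (τ * E.card) ^ (2 * p) ≤ K.card * (τ * E.card) ^ (2 * p) := by
      apply mul_le_mul_of_nonneg_right _ (by positivity)
      exact_mod_cast h2.le
    linarith
  have hKF := hK K (filter_subset _ _) hKc
  -- the upper bound
  have u1 : ∑ t ∈ range M, ‖fh t‖ * ‖Gh t‖ * ‖Sh t‖ ≤
      τ * E.card * ∑ t ∈ range M, ‖fh t‖ * ‖Gh t‖ + E.card * ∑ t ∈ K, ‖fh t‖ * ‖Gh t‖ := by
    have h1 : ∀ t ∈ range M, ‖fh t‖ * ‖Gh t‖ * ‖Sh t‖ ≤ τ * E.card * (‖fh t‖ * ‖Gh t‖) +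
        (if t ∈ K then E.card * (‖fh t‖ * ‖Gh t‖) else 0) := by
      intro t ht
      split_ifs with htK
      · have h2 := mul_le_mul_of_nonneg_left (hShle t) (by positivity : 0 ≤ ‖fh t‖ * ‖Gh t‖)
        have h3 : 0 ≤ τ * E.card * (‖fh t‖ * ‖Gh t‖) := by positivity
        linarith
      · have h2 : ‖Sh t‖ ≤ τ * E.card := by
          by_contra h3
          push Not at h3
          exact htK (mem_filter.2 ⟨ht, h3⟩)
        have h3 := mul_le_mul_of_nonneg_left h2 (by positivity : 0 ≤ ‖fh t‖ * ‖Gh t‖)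
        linarith
    refine (sum_le_sum h1).trans ?_
    rw [sum_add_distrib, ← mul_sum, ← sum_filter,
      show (range M).filter (fun k => k ∈ K) = K from by
        ext k; rw [mem_filter]; exact ⟨fun h => h.2, fun h => ⟨(mem_filter.1 h).1, h⟩⟩,
      ← mul_sum]
  have cs1 : ∑ t ∈ range M, ‖fh t‖ * ‖Gh t‖ ≤ M * √(Fb * W) := by
    refine (Real.sum_mul_le_sqrt_mul_sqrt _ _ _).trans ?_
    rw [← Real.sqrt_mul (sum_nonneg fun _ _ => by positivity)]
    have h1 : (∑ t ∈ range M, ‖fh t‖ ^ 2) * ∑ t ∈ range M, ‖Gh t‖ ^ 2 ≤ (M * Fb) * (M * W) :=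
      mul_le_mul pF pG (sum_nonneg fun _ _ => by positivity) (by positivity)
    refine (Real.sqrt_le_sqrt h1).trans (le_of_eq ?_)
    rw [show (M : ℝ) * Fb * (M * W) = M ^ 2 * (Fb * W) by ring, Real.sqrt_mul (by positivity),
      Real.sqrt_sq hM0.le]
  have cs2 : ∑ t ∈ K, ‖fh t‖ * ‖Gh t‖ ≤ ρ * M * √(M * W) := by
    refine (Real.sum_mul_le_sqrt_mul_sqrt _ _ _).trans ?_
    have h1 : √(∑ t ∈ K, ‖fh t‖ ^ 2) ≤ ρ * M := by
      rw [Real.sqrt_le_left (by positivity)]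
      exact hKF
    have h2 : √(∑ t ∈ K, ‖Gh t‖ ^ 2) ≤ √(M * W) := by
      apply Real.sqrt_le_sqrt
      refine le_trans ?_ pG
      exact sum_le_sum_of_subset_of_nonneg (filter_subset _ _) fun _ _ _ => by positivity
    exact mul_le_mul h1 h2 (Real.sqrt_nonneg _) (by positivity)
  have fin1 : (M : ℝ) * (V * E.card) ≤
      τ * E.card * (M * √(Fb * W)) + E.card * (ρ * M * √(M * W)) :=
    hlow.trans (u1.trans (add_le_add (mul_le_mul_of_nonneg_left cs1 (by positivity))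
      (mul_le_mul_of_nonneg_left cs2 (by positivity))))
  have fin2 : τ * E.card * (M * √(Fb * W)) + E.card * (ρ * M * √(M * W)) =
      M * ((τ * √(Fb * W) + ρ * √(M * W)) * E.card) := by ring
  rw [fin2] at fin1
  have fin3 : (M : ℝ) * ((τ * √(Fb * W) + ρ * √(M * W)) * E.card) < M * (V * E.card) := by
    apply mul_lt_mul_of_pos_left _ hM0
    exact mul_lt_mul_of_pos_right hbal hE0
  linarith

end Pool.Agent.P8H14.PL
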