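import Pool.Agent.P8H14.PL.L5

set_option autoImplicit false

/-!
# Families: primes minus the model, the parameters
-/

open Finset

namespace Pool.Agent.P8H14.PL

open Pool.Agent.TH823.PS
open Pool.Agent.H807R2.Dav (ee norm_ee ee_add ee_int)
open Pool.Agent.H373R2.T7 (fz exI energy moment_energy)
open Pool.Agent.P8H13.PK
open Pool.Agent.P8H13.GK

/-- the frequencies, in the form needed -/
theorem freqK (A : ℕ) {c C : ℝ} (hc : 0 < c) (hc8 : c ≤ 1 / 8) (hC : 0 < C) (κ : ℕ) (hκ : 1 ≤ κ) :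
    ∃ c1 l0 : ℝ, 0 < c1 ∧ c1 ≤ 1 / 400 ∧ 1000 ≤ l0 ∧
    ∀ l : ℝ, l0 ≤ l → Reg c C (12 * l) → ∀ N : ℕ, l ≤ Real.log N → Real.log N ≤ 18 * l ^ 2 →
      2 * (l * Real.log (Real.log N)) ≤ c1 * Real.log N →
      ∀ S ⊆ range (2 * (κ * N)), (S.card : ℝ) ≤ Real.exp (l / 5) →
        ∑ k ∈ S, ‖∑ n ∈ Icc 1 (κ * N - 1), ((df l n : ℝ) : ℂ) * ee (n * ((k : ℝ) / (2 * (κ * N) : ℕ)))‖ ^ 2 ≤
          4 * ((κ * N : ℕ) : ℝ) ^ 2 / Real.log N ^ A := by
  obtain ⟨c1, l0, hc1, hl0, hfr⟩ := freqA A hc hc8 hC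
  obtain ⟨l1, hl1, hp1⟩ := pow_exp 10 (10 ^ 8 * 2 ^ 10)
  obtain ⟨l2, hl2, hp2⟩ := pow_exp (A + 13) (10 ^ 8 * 2 ^ (A + 13))
  refine ⟨min c1 (1 / 400), max (max l0 (l1 + l2)) κ, by positivity, min_le_right _ _,
    hl0.trans ((le_max_left _ _).trans (le_max_left _ _)), fun l hl hReg N hN1 hN2 hN3 S hS hSc => ?_⟩
  have hll0 : l0 ≤ l := ((le_max_left _ _).trans (le_max_left _ _)).trans hl
  have hll12 : l1 + l2 ≤ l := ((le_max_right _ _).trans (le_max_left _ _)).trans hl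
  have hlκ : (κ : ℝ) ≤ l := (le_max_right _ _).trans hl
  have hl1000 : 1000 ≤ l := hl0.trans hll0
  set Ln : ℝ := Real.log N with hLn
  have hLp : 0 < Ln := by linarith
  have hN0 : (0 : ℝ) < N := by
    rcases Nat.eq_zero_or_pos N with h | h
    · subst h
      rw [Nat.cast_zero, Real.log_zero] at hLn
      linarith
    · exact_mod_cast h
  have hNn : 1 ≤ N := by exact_mod_cast hN0
  set T : ℕ := κ * N with hT
  have hκ0 : (0 : ℝ) < κ := by exact_mod_cast hκ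
  have hTr : (T : ℝ) = κ * N := by rw [hT]; push_cast; ring
  have hT0 : (0 : ℝ) < T := by rw [hTr]; positivity
  have hTN : (N : ℝ) ≤ T := by
    rw [hTr]
    exact le_mul_of_one_le_left hN0.le (by exact_mod_cast hκ)
  set β : ℝ := Real.log T with hβ
  have hβ1 : Ln ≤ β := Real.log_le_log hN0 hTN
  have hβ2 : β ≤ 2 * Ln := by
    have h1 : β = Real.log κ + Ln := by rw [hβ, hTr, Real.log_mul hκ0.ne' hN0.ne']
    have h2 : Real.log κ ≤ κ - 1 := Real.log_le_sub_one_of_pos hκ0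
    linarith
  have hlog1 : 1 ≤ Real.log Ln := by
    rw [Real.le_log_iff_exp_le hLp]
    have := Real.exp_one_lt_d9
    linarith
  have h100 : 800 * l ≤ Ln := by
    have h1 : min c1 (1 / 400) * Ln ≤ 1 / 400 * Ln := mul_le_mul_of_nonneg_right (min_le_right _ _) hLp.le
    have h2 : l * 1 ≤ l * Real.log Ln := mul_le_mul_of_nonneg_left hlog1 (by linarith)
    linarith
  have hNe : (N : ℝ) = Real.exp Ln := (Real.exp_log hN0).symm
  have hTbig : Real.exp (100 * l) ≤ T := by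
    refine le_trans ?_ hTN
    rw [hNe]
    exact Real.exp_le_exp.2 (by linarith)
  have hβp : ∀ K : ℕ, β ^ K ≤ 2 ^ K * Ln ^ K := by
    intro K
    rw [← mul_pow]
    exact pow_le_pow_left₀ (by linarith) hβ2 K
  have hpar : Par l T 1 T := by
    refine ⟨by linarith, hTbig, ?_, le_rfl, ?_, by omega, by omega⟩
    · have h1 := hp1 l (by linarith) Ln hLp.le hN2
      refine le_trans ?_ h1
      have h2 := mul_le_mul_of_nonneg_left (hβp 10) (by norm_num : (0 : ℝ) ≤ 10 ^ 8)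
      linarith
    · rw [Nat.cast_one]
      exact Real.one_le_exp (by linarith)
  have hbig : (10 : ℝ) ^ 8 * β ^ (A + 13) ≤ Real.exp (l / 100) := by
    have h1 := hp2 l (by linarith) Ln hLp.le hN2
    refine le_trans ?_ h1
    have h2 := mul_le_mul_of_nonneg_left (hβp (A + 13)) (by norm_num : (0 : ℝ) ≤ 10 ^ 8)
    linarith
  have hlb : l * Real.log β ≤ c1 * β := by
    have h1 : Real.log β ≤ 2 * Real.log Ln := by
      have h2 : Real.log β ≤ Real.log (2 * Ln) := Real.log_le_log (by linarith) hβ2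
      rw [Real.log_mul (by norm_num) hLp.ne'] at h2
      have := Real.log_two_lt_d9
      linarith
    have h2 : l * Real.log β ≤ l * (2 * Real.log Ln) := mul_le_mul_of_nonneg_left h1 (by linarith)
    have h3 : min c1 (1 / 400) * Ln ≤ c1 * Ln := mul_le_mul_of_nonneg_right (min_le_left _ _) hLp.le
    have h4 : c1 * Ln ≤ c1 * β := mul_le_mul_of_nonneg_left hβ1 hc1.le
    linarith
  have hmain := hfr l hll0 T hpar hReg hbig (by linarith) hlb S hS hSc
  rw [← hβ] at hmain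
  have hQ1 : ((Ql l : ℕ) : ℝ) ≤ Real.exp (l / 2) := Nat.floor_le (Real.exp_pos _).le
  have hd0 : |df l 0| ≤ Real.exp (l / 2) := by
    rw [df_eq, th_zero, zero_sub, abs_neg]
    exact (abs_mo_le 1 (Ql l) 0 0).trans hQ1
  have hT1 : 1 ≤ T := by exact_mod_cast hT0
  have hsum : ∀ k : ℕ, ∑ n ∈ Icc 1 (T - 1), ((df l n : ℝ) : ℂ) * ee (n * ((k : ℝ) / (2 * T : ℕ))) =
      ∑ n ∈ range T, ((df l n : ℝ) : ℂ) * ee (n * ((k : ℝ) / (2 * T : ℕ))) - ((df l 0 : ℝ) : ℂ) := by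
    intro k
    have h1 : range T = insert 0 (Icc 1 (T - 1)) := by
      ext n; simp only [mem_range, mem_insert, mem_Icc]; omega
    rw [h1, sum_insert (by simp)]
    have h2 : ee (((0 : ℕ) : ℝ) * ((k : ℝ) / (2 * T : ℕ))) = 1 := by
      rw [Nat.cast_zero, zero_mul]
      have := ee_int 0
      simpa using this
    rw [h2]
    ring
  have hone : ∀ k ∈ S, ‖∑ n ∈ Icc 1 (T - 1), ((df l n : ℝ) : ℂ) * ee (n * ((k : ℝ) / (2 * T : ℕ)))‖ ^ 2 ≤
      2 * ‖∑ n ∈ range T, ((df l n : ℝ) : ℂ) * ee (n * ((k : ℝ) / (2 * T : ℕ)))‖ ^ 2 + 2 * Real.exp l := by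
    intro k _
    rw [hsum k]
    have h1 := norm_sub_le (∑ n ∈ range T, ((df l n : ℝ) : ℂ) * ee (n * ((k : ℝ) / (2 * T : ℕ)))) ((df l 0 : ℝ) : ℂ)
    rw [Complex.norm_real, Real.norm_eq_abs] at h1
    set a := ‖∑ n ∈ range T, ((df l n : ℝ) : ℂ) * ee (n * ((k : ℝ) / (2 * T : ℕ)))‖
    have h2 := pow_le_pow_left₀ (norm_nonneg _) h1 2
    have h3 : (a + |df l 0|) ^ 2 ≤ 2 * a ^ 2 + 2 * |df l 0| ^ 2 := by
      have : 0 ≤ (a - |df l 0|) ^ 2 := sq_nonneg _
      linarith [this, add_sq a |df l 0|, sub_sq a |df l 0|]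
    have h4 : |df l 0| ^ 2 ≤ Real.exp l := by
      calc |df l 0| ^ 2 ≤ Real.exp (l / 2) ^ 2 := pow_le_pow_left₀ (abs_nonneg _) hd0 2
        _ = _ := by rw [← Real.exp_nat_mul]; push_cast; ring_nf
    linarith
  refine (sum_le_sum hone).trans ?_
  rw [sum_add_distrib, ← mul_sum, sum_const, nsmul_eq_mul]
  have hLA : 0 < Ln ^ A := by positivity
  have hβA : (T : ℝ) ^ 2 / β ^ A ≤ (T : ℝ) ^ 2 / Ln ^ A := by
    apply div_le_div_of_nonneg_left (by positivity) hLA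
    exact pow_le_pow_left₀ hLp.le hβ1 A
  have hsec : (S.card : ℝ) * (2 * Real.exp l) ≤ 2 * ((T : ℝ) ^ 2 / Ln ^ A) := by
    have h1 : (S.card : ℝ) * (2 * Real.exp l) ≤ Real.exp (l / 5) * (2 * Real.exp l) := by gcongr
    refine h1.trans ?_
    have h2 : Ln ^ A ≤ Real.exp (l / 100) := by
      refine le_trans ?_ hbig
      have h3 : Ln ^ A ≤ β ^ A := pow_le_pow_left₀ hLp.le hβ1 A
      have h4 : β ^ A * 1 ≤ β ^ A * β ^ 13 :=
        mul_le_mul_of_nonneg_left (one_le_pow₀ (by linarith)) (by positivity)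
      rw [pow_add]
      have h5 : 0 ≤ β ^ A * β ^ 13 := by
        have : 0 ≤ β := by linarith
        positivity
      linarith
    have h3 : Real.exp (l / 5) * Real.exp l * Real.exp (l / 100) ≤ (T : ℝ) ^ 2 := by
      calc Real.exp (l / 5) * Real.exp l * Real.exp (l / 100) = Real.exp (l / 5 + l + l / 100) := by
            rw [Real.exp_add, Real.exp_add]
        _ ≤ Real.exp (100 * l) := Real.exp_le_exp.2 (by linarith)
        _ ≤ T := hTbig
        _ ≤ (T : ℝ) ^ 2 := le_self_pow₀ (by exact_mod_cast hT1) (by norm_num)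
    have h4 : Real.exp (l / 5) * Real.exp l ≤ (T : ℝ) ^ 2 / Ln ^ A := by
      rw [le_div_iff₀ hLA]
      refine le_trans ?_ h3
      gcongr
    linarith
  have hfin : 4 * (T : ℝ) ^ 2 / Ln ^ A = 2 * ((T : ℝ) ^ 2 / Ln ^ A) + 2 * ((T : ℝ) ^ 2 / Ln ^ A) := by ring
  rw [hfin]
  linarith

end Pool.Agent.P8H14.PL
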