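import Pool.Agent.P8H14.PL.L6

set_option autoImplicit false

/-!
# Families: primes minus the model, at one scale
-/

open Finset

namespace Pool.Agent.P8H14.PL

open Pool.Agent.TH823.PS
open Pool.Agent.H807R2.Dav (ee norm_ee ee_add ee_int)
open Pool.Agent.H373R2.T7 (fz exI energy moment_energy)
open Pool.Agent.P8H13.PK
open Pool.Agent.P8H13.GK

theorem famL {c C : ℝ} (hc : 0 < c) (hc8 : c ≤ 1 / 8) (hC : 0 < C) (B p A : ℕ) (hB : 1 ≤ B) (hp : 1 ≤ p) :
    ∃ c1 l0 : ℝ, 0 < c1 ∧ 1000 ≤ l0 ∧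
    ∀ l : ℝ, l0 ≤ l → Reg c C (12 * l) → ∀ N : ℕ, l ≤ Real.log N → Real.log N ≤ 18 * l ^ 2 →
      2 * (l * Real.log (Real.log N)) ≤ c1 * Real.log N → ∀ y : ℝ, 1 ≤ y → y ≤ Real.exp (l / (40 * p + 20)) →
      FLm B p A y l N := by
  classical
  set κ : ℕ := (2 * p + 3) * (B + 1) with hκ
  have hκ1 : 1 ≤ κ := Nat.mul_pos (by omega) (by omega)
  obtain ⟨c1, l0, hc1, hc14, hl0, hfr⟩ := freqK (4 * A + 6) hc hc8 hC κ hκ1
  obtain ⟨C0, hC0, hsq⟩ := df_sq
  obtain ⟨l1, hl1, hp1⟩ := pow_exp ((5 * A + 10) * (2 * p)) ((4 * p + 6) * (B + 1) * 2 ^ (2 * p))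
  obtain ⟨l2, hl2, hp2⟩ := pow_exp (3 * A + 6) 2
  refine ⟨c1, (l0 + l1 + l2) + (2 * κ + 2 * B + 40 + 4 * C0 + κ * (12 + 2 * C0)) * 2, hc1, by
    have : (0 : ℝ) ≤ (2 * κ + 2 * B + 40 + 4 * C0 + κ * (12 + 2 * C0)) * 2 := by positivity
    linarith, fun l hl hReg N hN1 hN2 hN3 y hy1 hy2 => ?_⟩
  have hκC0 : (0 : ℝ) ≤ κ * (12 + 2 * C0) := by positivity
  have hκ00 : (0 : ℝ) ≤ κ := Nat.cast_nonneg _
  have hB00 : (0 : ℝ) ≤ B := Nat.cast_nonneg _
  have hlκC : (κ : ℝ) * (12 + 2 * C0) ≤ l := by linarith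
  have hκr : (1 : ℝ) ≤ κ := by exact_mod_cast hκ1
  have hBr : (1 : ℝ) ≤ B := by exact_mod_cast hB
  have hll0 : l0 ≤ l := by linarith
  have hl1000 : 1000 ≤ l := hl0.trans hll0
  have hlκ : 2 * (κ : ℝ) ≤ l := by linarith
  have hlB : 2 * (B : ℝ) + 2 ≤ l := by linarith
  have hlC : 40 + 4 * C0 ≤ l := by linarith
  set Ln : ℝ := Real.log N with hLn
  have hLp : 0 < Ln := by linarith
  have hN0 : (0 : ℝ) < N := by
    rcases Nat.eq_zero_or_pos N with h | h
    · subst h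
      rw [Nat.cast_zero, Real.log_zero] at hLn
      linarith
    · exact_mod_cast h
  have hNn : 1 ≤ N := by exact_mod_cast hN0
  have hfreq := hfr l hll0 hReg N hN1 hN2 hN3
  have hlog1 : 1 ≤ Real.log Ln := by
    rw [Real.le_log_iff_exp_le hLp]
    have := Real.exp_one_lt_d9
    linarith
  have h800 : 800 * l ≤ Ln := by
    have h1 : c1 * Ln ≤ 1 / 400 * Ln := mul_le_mul_of_nonneg_right hc14 hLp.le
    have h2 : l * 1 ≤ l * Real.log Ln := mul_le_mul_of_nonneg_left hlog1 (by linarith)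
    linarith
  have hNe : (N : ℝ) = Real.exp Ln := (Real.exp_log hN0).symm
  -- powers of the logarithm
  have hpw1 := hp1 l (by linarith) Ln hLp.le hN2
  have hpw2 := hp2 l (by linarith) Ln hLp.le hN2
  have hL1 : 1 ≤ Ln := by linarith
  have hLA : 0 < Ln ^ A := by positivity
  set E : ℕ := 3 * A + 6 with hE
  have hLE : 0 < Ln ^ E := by positivity
  set T : ℕ := (2 * p + 3) * ((B + 1) * N) with hT
  have hTκ : κ * N = T := by rw [hκ, hT]; ring
  have hTr : (T : ℝ) = κ * N := by rw [← hTκ]; push_cast; ring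
  have hT0 : (0 : ℝ) < T := by rw [hTr]; positivity
  have hlT : Real.log T ≤ 2 * Ln := by
    rw [hTr, Real.log_mul (by positivity) hN0.ne', ← hLn]
    have := Real.log_le_sub_one_of_pos (by linarith : (0 : ℝ) < κ)
    linarith
  have hlT0 : 0 ≤ Real.log T := Real.log_natCast_nonneg T
  -- the step
  set t : ℕ := ⌊(N : ℝ) / Ln ^ E⌋₊ with ht
  have hNE : Real.exp (2 * l) ≤ N / Ln ^ E := by
    rw [le_div_iff₀ hLE]
    have h1 : Ln ^ E ≤ Real.exp (l / 100) := by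
      have : 0 ≤ Ln ^ E := hLE.le
      linarith
    calc Real.exp (2 * l) * Ln ^ E ≤ Real.exp (2 * l) * Real.exp (l / 100) := by gcongr
      _ = Real.exp (2 * l + l / 100) := by rw [Real.exp_add]
      _ ≤ Real.exp Ln := Real.exp_le_exp.2 (by linarith)
      _ = N := hNe.symm
  have hNE2 : 2 ≤ N / Ln ^ E := by
    refine le_trans ?_ hNE
    have := Real.add_one_le_exp (2 * l)
    linarith
  have ht1 : 1 ≤ t := Nat.le_floor (by rw [Nat.cast_one]; linarith)
  have htle : (t : ℝ) ≤ N / Ln ^ E := Nat.floor_le (by positivity)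
  have ht0 : (0 : ℝ) < t := by exact_mod_cast ht1
  have htge : N / Ln ^ E / 2 ≤ t := by
    have h1 := Nat.lt_floor_add_one ((N : ℝ) / Ln ^ E)
    rw [← ht] at h1
    linarith
  -- short sums
  set Fs : ℝ := N / Ln ^ E * Ln ^ 3 with hFs
  have hshort : ∀ u v : ℕ, v ≤ T - 1 → v ≤ u + t → ∑ n ∈ Ioc u v, ‖((df l n : ℝ) : ℂ)‖ ^ 2 ≤ Fs := by
    intro u v hv huv
    rcases lt_or_ge v u with h | h
    · rw [Ioc_eq_empty (by omega), sum_empty]
      positivity
    · refine (hsq l u v T (by linarith) (by omega) h).trans ?_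
      have h1 : (v : ℝ) - u ≤ N / Ln ^ E := by
        have : (v : ℝ) ≤ u + t := by exact_mod_cast huv
        linarith
      have h2 : Real.log T ^ 2 ≤ 4 * Ln ^ 2 := by
        calc Real.log T ^ 2 ≤ (2 * Ln) ^ 2 := pow_le_pow_left₀ hlT0 hlT 2
          _ = _ := by ring
      have h3 : (1 + l) ≤ Ln := by linarith
      have h4 : Ln ≤ Ln ^ 2 := le_self_pow₀ hL1 (by norm_num)
      have h5 : (1 : ℝ) ≤ Ln ^ 2 := one_le_pow₀ hL1
      have hvu : (0 : ℝ) ≤ v - u := by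
        have : (u : ℝ) ≤ v := by exact_mod_cast h
        linarith
      have hNE0 : 0 ≤ N / Ln ^ E := by positivity
      calc 2 * (((v : ℝ) - u) * Real.log T ^ 2) + 2 * (((v : ℝ) - u) * (C0 * (1 + l)) + 2 * Real.exp (2 * l))
          ≤ 2 * (N / Ln ^ E * (4 * Ln ^ 2)) + 2 * (N / Ln ^ E * (C0 * Ln ^ 2) + 2 * (N / Ln ^ E * Ln ^ 2)) := by
            have e1 : C0 * (1 + l) ≤ C0 * Ln ^ 2 := mul_le_mul_of_nonneg_left (h3.trans h4) hC0.le
            have e2 : Real.exp (2 * l) ≤ N / Ln ^ E * Ln ^ 2 :=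
              hNE.trans (le_mul_of_one_le_right hNE0 h5)
            gcongr
        _ = N / Ln ^ E * (Ln ^ 2 * (12 + 2 * C0)) := by ring
        _ ≤ N / Ln ^ E * (Ln ^ 2 * Ln) := by
            gcongr
            linarith
        _ = Fs := by rw [hFs]; ring
  -- the total mass
  set Fb : ℝ := N * Ln ^ 3 with hFb
  have htot : ∑ n ∈ Icc 1 (T - 1), ‖((df l n : ℝ) : ℂ)‖ ^ 2 ≤ Fb := by
    have h0 : Icc 1 (T - 1) = Ioc 0 (T - 1) := by ext n; simp only [mem_Icc, mem_Ioc]; omega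
    rw [h0]
    refine (hsq l 0 (T - 1) T (by linarith) (by omega) (Nat.zero_le _)).trans ?_
    have h1 : ((T - 1 : ℕ) : ℝ) - ((0 : ℕ) : ℝ) ≤ κ * N := by
      rw [Nat.cast_zero, sub_zero, ← hTr]
      exact_mod_cast Nat.sub_le _ _
    have h1' : 0 ≤ ((T - 1 : ℕ) : ℝ) - ((0 : ℕ) : ℝ) := by
      rw [Nat.cast_zero, sub_zero]; exact Nat.cast_nonneg _
    have h2 : Real.log T ^ 2 ≤ 4 * Ln ^ 2 := by
      calc Real.log T ^ 2 ≤ (2 * Ln) ^ 2 := pow_le_pow_left₀ hlT0 hlT 2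
        _ = _ := by ring
    have h3 : (1 + l) ≤ Ln := by linarith
    have h4 : Ln ≤ Ln ^ 2 := le_self_pow₀ hL1 (by norm_num)
    have h5 : (1 : ℝ) ≤ Ln ^ 2 := one_le_pow₀ hL1
    have e2 : Real.exp (2 * l) ≤ κ * N * Ln ^ 2 := by
      have h6 : Real.exp (2 * l) ≤ N := by
        rw [hNe]; exact Real.exp_le_exp.2 (by linarith)
      have h7 : (N : ℝ) ≤ κ * N := le_mul_of_one_le_left hN0.le hκr
      exact (h6.trans h7).trans (le_mul_of_one_le_right (by positivity) h5)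
    calc 2 * ((((T - 1 : ℕ) : ℝ) - ((0 : ℕ) : ℝ)) * Real.log T ^ 2) +
          2 * ((((T - 1 : ℕ) : ℝ) - ((0 : ℕ) : ℝ)) * (C0 * (1 + l)) + 2 * Real.exp (2 * l))
        ≤ 2 * (κ * N * (4 * Ln ^ 2)) + 2 * (κ * N * (C0 * Ln ^ 2) + 2 * (κ * N * Ln ^ 2)) := by
          have e1 : C0 * (1 + l) ≤ C0 * Ln ^ 2 := mul_le_mul_of_nonneg_left (h3.trans h4) hC0.le
          gcongr
      _ = N * (Ln ^ 2 * (κ * (12 + 2 * C0))) := by ring
      _ ≤ N * (Ln ^ 2 * Ln) := by
          have h6 : κ * (12 + 2 * C0) ≤ Ln := by linarith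
          gcongr
      _ = Fb := by rw [hFb]; ring
  -- the parameters
  set V : ℝ := N / (2 * Ln ^ A) with hV
  have hV0 : 0 < V := by positivity
  set Wg : ℝ := N * Ln ^ A with hWg
  set τ : ℝ := 1 / Ln ^ (2 * A + 3) with hτ
  have hτ0 : 0 < τ := by positivity
  have c1' : √(Wg * Fs) ≤ V := by
    rw [Real.sqrt_le_left hV0.le]
    have h1 : Wg * Fs = (N : ℝ) ^ 2 * (Ln ^ (A + 3) / Ln ^ E) := by
      rw [hWg, hFs, pow_add]
      ring
    have h2 : V ^ 2 = (N : ℝ) ^ 2 * (1 / (4 * Ln ^ (2 * A))) := by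
      rw [hV, div_pow, mul_pow, ← pow_mul, mul_comm A 2]
      ring
    rw [h1, h2]
    apply mul_le_mul_of_nonneg_left _ (by positivity)
    rw [div_le_div_iff₀ hLE (by positivity), one_mul]
    have h3 : Ln ^ E = Ln ^ (A + 3) * Ln ^ (2 * A) * Ln ^ 3 := by
      rw [← pow_add, ← pow_add, hE]
      congr 1
      ring
    rw [h3]
    have h4 : Ln ≤ Ln ^ 3 := le_self_pow₀ hL1 (by norm_num)
    calc Ln ^ (A + 3) * (4 * Ln ^ (2 * A)) = Ln ^ (A + 3) * Ln ^ (2 * A) * 4 := by ring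
      _ ≤ _ := by
        gcongr
        linarith
  have c2' : τ * √(Fb * Wg) + τ * √(((2 * T : ℕ) : ℝ) * Wg) < V := by
    have h1 : √(Fb * Wg) ≤ N * Ln ^ (A + 2) := by
      rw [Real.sqrt_le_left (by positivity)]
      have h2 : Fb * Wg = (N : ℝ) ^ 2 * Ln ^ (A + 3) := by rw [hFb, hWg, pow_add]; ring
      have h3 : (N * Ln ^ (A + 2)) ^ 2 = (N : ℝ) ^ 2 * Ln ^ (2 * A + 4) := by
        rw [mul_pow, ← pow_mul]; congr 2; ring
      rw [h2, h3]
      apply mul_le_mul_of_nonneg_left _ (by positivity)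
      exact pow_le_pow_right₀ hL1 (by omega)
    have h2 : √(((2 * T : ℕ) : ℝ) * Wg) ≤ N * Ln ^ (A + 2) := by
      rw [Real.sqrt_le_left (by positivity)]
      have h2 : ((2 * T : ℕ) : ℝ) * Wg = (N : ℝ) ^ 2 * (2 * κ * Ln ^ A) := by
        rw [Nat.cast_mul, hTr, hWg]; push_cast; ring
      have h3 : (N * Ln ^ (A + 2)) ^ 2 = (N : ℝ) ^ 2 * Ln ^ (2 * A + 4) := by
        rw [mul_pow, ← pow_mul]; congr 2; ring
      rw [h2, h3]
      apply mul_le_mul_of_nonneg_left _ (by positivity)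
      calc 2 * (κ : ℝ) * Ln ^ A ≤ Ln * Ln ^ A := by
            gcongr
            linarith
        _ = Ln ^ (A + 1) := by rw [pow_succ]; ring
        _ ≤ _ := pow_le_pow_right₀ hL1 (by omega)
    have h3 : τ * (N * Ln ^ (A + 2)) = V * (2 / Ln) := by
      rw [hτ, hV, show 2 * A + 3 = (A + 2) + A + 1 by ring, pow_add, pow_add Ln (A + 2) A, pow_one]
      field_simp
    have h4 : τ * √(Fb * Wg) + τ * √(((2 * T : ℕ) : ℝ) * Wg) ≤ V * (2 / Ln) + V * (2 / Ln) := by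
      rw [← h3]
      gcongr
    refine lt_of_le_of_lt h4 ?_
    have h5 : V * (2 / Ln) + V * (2 / Ln) = V * (4 / Ln) := by ring
    rw [h5]
    apply mul_lt_of_lt_one_right hV0
    rw [div_lt_one hLp]
    linarith
  have c3' : ((B * N / t + 1 : ℕ) : ℝ) ≤ Ln ^ (E + 1) := by
    push_cast
    have h1 : ((B * N / t : ℕ) : ℝ) ≤ 2 * B * Ln ^ E := by
      refine Nat.cast_div_le.trans ?_
      rw [div_le_iff₀ ht0]
      have h2 : 2 * B * Ln ^ E * (N / Ln ^ E / 2) = ((B * N : ℕ) : ℝ) := by push_cast; field_simp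
      rw [← h2]
      gcongr
    have h2 : 1 ≤ Ln ^ E := one_le_pow₀ hL1
    calc ((B * N / t : ℕ) : ℝ) + 1 ≤ 2 * B * Ln ^ E + Ln ^ E := add_le_add h1 h2
      _ = Ln ^ E * (2 * B + 1) := by ring
      _ ≤ Ln ^ E * Ln := by
          gcongr
          linarith
      _ = _ := (pow_succ Ln E).symm
  set J : ℕ := ⌊Real.exp (l / 5)⌋₊ with hJ
  have hJle : (J : ℝ) ≤ Real.exp (l / 5) := Nat.floor_le (Real.exp_pos _).le
  have hJge : Real.exp (l / 5) / 2 ≤ J := by
    have h1 := Nat.lt_floor_add_one (Real.exp (l / 5))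
    rw [← hJ] at h1
    have h2 := Real.add_one_le_exp (l / 5)
    linarith
  have hy0 : 0 < y := by linarith
  have hpy : y ^ (4 * p + 1) ≤ Real.exp (l / 10) := by
    calc y ^ (4 * p + 1) ≤ Real.exp (l / (40 * p + 20)) ^ (4 * p + 1) := pow_le_pow_left₀ hy0.le hy2 _
      _ = Real.exp (((4 * p + 1 : ℕ) : ℝ) * (l / (40 * p + 20))) := (Real.exp_nat_mul _ _).symm
      _ ≤ Real.exp (l / 10) := by
          apply Real.exp_le_exp.2
          push_cast
          rw [← mul_div_assoc, div_le_div_iff₀ (by positivity) (by norm_num)]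
          have : 0 ≤ l * p := by
            have : (0 : ℝ) ≤ p := Nat.cast_nonneg _
            have : 0 ≤ l := by linarith
            positivity
          linarith
  refine fun x s hs hE' L hL a g ha hg => ?_
  have c4' : (4 * p + 6) * ((B : ℝ) + 1) * ((L + 1) * Ln ^ (E + 1) / τ) ^ (2 * p) * y ^ (2 * p + 1) ≤ J := by
    have h1 : (L + 1) * Ln ^ (E + 1) / τ ≤ 2 * y * Ln ^ (5 * A + 10) := by
      have h2 : (L + 1) * Ln ^ (E + 1) / τ = (L + 1) * Ln ^ (5 * A + 10) := by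
        rw [hτ, div_div_eq_mul_div, div_one, mul_assoc, ← pow_add]
        congr 2
        rw [hE]
        ring
      rw [h2]
      gcongr
      linarith
    calc (4 * p + 6) * ((B : ℝ) + 1) * ((L + 1) * Ln ^ (E + 1) / τ) ^ (2 * p) * y ^ (2 * p + 1)
        ≤ (4 * p + 6) * ((B : ℝ) + 1) * (2 * y * Ln ^ (5 * A + 10)) ^ (2 * p) * y ^ (2 * p + 1) := by gcongr
      _ = ((4 * p + 6) * (B + 1) * 2 ^ (2 * p) * Ln ^ ((5 * A + 10) * (2 * p))) * y ^ (4 * p + 1) := by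
          rw [mul_pow, mul_pow, ← pow_mul, show 4 * p + 1 = 2 * p + (2 * p + 1) by ring, pow_add y]
          ring
      _ ≤ Real.exp (l / 100) * Real.exp (l / 10) := by gcongr
      _ = Real.exp (l / 100 + l / 10) := by rw [Real.exp_add]
      _ ≤ Real.exp (l / 5) / 2 := by
          have h3 : Real.exp (l / 5) = Real.exp (l / 100 + l / 10) * Real.exp (9 * l / 100) := by
            rw [← Real.exp_add]; congr 1; ring
          have h4 : 2 ≤ Real.exp (9 * l / 100) := by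
            have := Real.add_one_le_exp (9 * l / 100)
            linarith
          rw [h3, le_div_iff₀ (by norm_num)]
          gcongr
      _ ≤ J := hJge
  have hmain := fam_goodL (f := fun n => ((df l n : ℝ) : ℂ)) B L p hp (y := y) (V := V) (Wg := Wg) (Fb := Fb) (Fs := Fs)
    (τ := τ) (ρ := τ) (D := Ln ^ (E + 1)) (N := N) (t := t) (J := J) hy0 hNn ht1 hV0 hτ0 hτ0.le htot hshort c1' c2'
    c3' c4' (by
      intro K hK1 hK2
      have h1 := hfreq K (by rw [hTκ]; exact hK1) (le_trans (by exact_mod_cast hK2) hJle)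
      rw [hTκ] at h1
      refine h1.trans (le_of_eq ?_)
      rw [hτ, ← hT]
      push_cast
      rw [mul_pow, div_pow, one_pow, ← pow_mul, show (2 * A + 3) * 2 = 4 * A + 6 by ring]
      ring) x s hs hE' a g ha hg
  refine le_trans (le_of_eq ?_) hmain
  have h2V : 2 * V = N / Ln ^ A := by rw [hV]; field_simp
  rw [h2V]

end Pool.Agent.P8H14.PL
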