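import Pool.Agent.P8H14.PL.L1
import Pool.Agent.P8H14.PL.M5

set_option autoImplicit false

/-!
# The exponential sums of the primes minus the model at the fractions with small denominators
-/

namespace Pool.Agent.P8H14.PL

open Finset
open Pool.Agent.H807R2.Dav
open Pool.Agent.TH823.PS (rr mem_rr)
open Pool.Agent.P8H13.PK
open Pool.Agent.P8H13.GK

/-- from windows to initial segments -/
lemma win_one {H T Y : ℕ} (hY : Y ≤ T) (F : ℕ → ℂ) {M : ℝ} (hM0 : 0 ≤ M) (hM : ∀ t, t < T → ‖F t‖ ≤ M) :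
    (H : ℝ) ^ 2 * ‖∑ t ∈ range Y, F t‖ ^ 2 ≤
      4 * T * ∑ x ∈ Ico (2 * H) T, ‖∑ t ∈ Ico (x + 1 - H) (x + 1), F t‖ ^ 2 + 36 * (H : ℝ) ^ 4 * M ^ 2 := by
  set Z : ℂ := ∑ x ∈ Ico (2 * H) Y, ∑ t ∈ Ico (x + 1 - H) (x + 1), F t with hZ
  have hre := win_sum (fun t => (F t).re) (H := H) (n := Y) hM0 (fun t ht => (Complex.abs_re_le_norm _).trans (hM t (by omega)))
  have him := win_sum (fun t => (F t).im) (H := H) (n := Y) hM0 (fun t ht => (Complex.abs_im_le_norm _).trans (hM t (by omega)))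
  have e1 : ∑ x ∈ Ico (2 * H) Y, ∑ t ∈ Ico (x + 1 - H) (x + 1), (F t).re = Z.re := by
    rw [hZ, Complex.re_sum]
    apply sum_congr rfl; intro x _; rw [Complex.re_sum]
  have e2 : ∑ x ∈ Ico (2 * H) Y, ∑ t ∈ Ico (x + 1 - H) (x + 1), (F t).im = Z.im := by
    rw [hZ, Complex.im_sum]
    apply sum_congr rfl; intro x _; rw [Complex.im_sum]
  rw [e1, ← Complex.re_sum] at hre
  rw [e2, ← Complex.im_sum] at him
  set S : ℂ := ∑ t ∈ range Y, F t with hS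
  have h1 : (H : ℝ) * |S.re| ≤ ‖Z‖ + 3 * (H : ℝ) ^ 2 * M := hre.trans (by have := Complex.abs_re_le_norm Z; linarith)
  have h2 : (H : ℝ) * |S.im| ≤ ‖Z‖ + 3 * (H : ℝ) ^ 2 * M := him.trans (by have := Complex.abs_im_le_norm Z; linarith)
  have h3 : ‖S‖ ^ 2 = |S.re| ^ 2 + |S.im| ^ 2 := by
    rw [sq_abs, sq_abs, ← Complex.normSq_eq_norm_sq, Complex.normSq_apply]; ring
  have h4 : ((H : ℝ) * |S.re|) ^ 2 ≤ (‖Z‖ + 3 * (H : ℝ) ^ 2 * M) ^ 2 := pow_le_pow_left₀ (by positivity) h1 2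
  have h5 : ((H : ℝ) * |S.im|) ^ 2 ≤ (‖Z‖ + 3 * (H : ℝ) ^ 2 * M) ^ 2 := pow_le_pow_left₀ (by positivity) h2 2
  have h6 : (‖Z‖ + 3 * (H : ℝ) ^ 2 * M) ^ 2 ≤ 2 * ‖Z‖ ^ 2 + 2 * (3 * (H : ℝ) ^ 2 * M) ^ 2 := by
    have := sq_nonneg (‖Z‖ - 3 * (H : ℝ) ^ 2 * M)
    linarith [this, (show (‖Z‖ - 3 * (H : ℝ) ^ 2 * M) ^ 2 = 2 * ‖Z‖ ^ 2 + 2 * (3 * (H : ℝ) ^ 2 * M) ^ 2 -
      (‖Z‖ + 3 * (H : ℝ) ^ 2 * M) ^ 2 by ring)]
  have h7 : ‖Z‖ ^ 2 ≤ T * ∑ x ∈ Ico (2 * H) T, ‖∑ t ∈ Ico (x + 1 - H) (x + 1), F t‖ ^ 2 := by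
    have f1 : ‖Z‖ ≤ ∑ x ∈ Ico (2 * H) Y, ‖∑ t ∈ Ico (x + 1 - H) (x + 1), F t‖ := norm_sum_le _ _
    have f2 : ‖Z‖ ^ 2 ≤ ((Ico (2 * H) Y).card : ℝ) * ∑ x ∈ Ico (2 * H) Y, ‖∑ t ∈ Ico (x + 1 - H) (x + 1), F t‖ ^ 2 :=
      (pow_le_pow_left₀ (norm_nonneg _) f1 2).trans (sq_sum_le_card_mul_sum_sq)
    refine f2.trans ?_
    apply mul_le_mul
    · rw [Nat.card_Ico]
      have : Y - 2 * H ≤ T := by omega
      exact_mod_cast this
    · apply sum_le_sum_of_subset_of_nonneg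
      · exact Ico_subset_Ico le_rfl hY
      · intro _ _ _; positivity
    · exact sum_nonneg fun _ _ => sq_nonneg _
    · exact Nat.cast_nonneg _
  calc (H : ℝ) ^ 2 * ‖S‖ ^ 2 = ((H : ℝ) * |S.re|) ^ 2 + ((H : ℝ) * |S.im|) ^ 2 := by rw [h3]; ring
    _ ≤ 4 * ‖Z‖ ^ 2 + 36 * (H : ℝ) ^ 4 * M ^ 2 := by
        have : 2 * (3 * (H : ℝ) ^ 2 * M) ^ 2 = 18 * (H : ℝ) ^ 4 * M ^ 2 := by ring
        linarith
    _ ≤ _ := by linarith

/-- from windows to initial segments, at all the fractions -/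
lemma win_frac {H T Q Y : ℕ} (hHT : 3 * H ≤ T) (F : ℕ → ℂ) {M : ℝ} (hM0 : 0 ≤ M) (hM : ∀ t, t < T → ‖F t‖ ≤ M)
    (hY : Y ≤ T) :
    (H : ℝ) ^ 2 * ∑ q ∈ Icc 1 Q, ∑ a ∈ rr q, ‖∑ t ∈ range Y, F t * ee (t * ((a : ℝ) / q))‖ ^ 2 ≤
      8 * T * (∑ q ∈ Icc 1 Q, ∑ a ∈ rr q, ∑ x ∈ Ico (2 * H) T, ‖∑ t ∈ Ico (x + 1 - H) (x + 1), F t * ee (t * ((a : ℝ) / q))‖ ^ 2 +
        3 * (Q : ℝ) ^ 2 * (H : ℝ) ^ 3 * M ^ 2) := by
  have h1 : ∀ q ∈ Icc 1 Q, ∀ a ∈ rr q, (H : ℝ) ^ 2 * ‖∑ t ∈ range Y, F t * ee (t * ((a : ℝ) / q))‖ ^ 2 ≤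
      8 * T * (∑ x ∈ Ico (2 * H) T, ‖∑ t ∈ Ico (x + 1 - H) (x + 1), F t * ee (t * ((a : ℝ) / q))‖ ^ 2 +
        3 * (H : ℝ) ^ 3 * M ^ 2) := by
    intro q _ a _
    have h2 := win_one hY (H := H) (fun t => F t * ee (t * ((a : ℝ) / q))) hM0 (fun t ht => by
      rw [norm_mul, norm_ee, mul_one]; exact hM t ht)
    refine h2.trans ?_
    have h3 : (0 : ℝ) ≤ ∑ x ∈ Ico (2 * H) T, ‖∑ t ∈ Ico (x + 1 - H) (x + 1), F t * ee (t * ((a : ℝ) / q))‖ ^ 2 :=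
      sum_nonneg fun _ _ => sq_nonneg _
    have h4 : (3 : ℝ) * H ≤ T := by exact_mod_cast hHT
    have h5 : 36 * (H : ℝ) ^ 4 * M ^ 2 ≤ 24 * T * ((H : ℝ) ^ 3 * M ^ 2) := by
      calc 36 * (H : ℝ) ^ 4 * M ^ 2 = 12 * (3 * H) * ((H : ℝ) ^ 3 * M ^ 2) := by ring
        _ ≤ 12 * T * ((H : ℝ) ^ 3 * M ^ 2) := by gcongr
        _ ≤ 24 * T * ((H : ℝ) ^ 3 * M ^ 2) := by gcongr; norm_num
    have h6 : 0 ≤ (T : ℝ) * ∑ x ∈ Ico (2 * H) T, ‖∑ t ∈ Ico (x + 1 - H) (x + 1), F t * ee (t * ((a : ℝ) / q))‖ ^ 2 :=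
      mul_nonneg (Nat.cast_nonneg _) h3
    linarith
  have hk : (H : ℝ) ^ 2 * ∑ q ∈ Icc 1 Q, ∑ a ∈ rr q, ‖∑ t ∈ range Y, F t * ee (t * ((a : ℝ) / q))‖ ^ 2 ≤
      ∑ q ∈ Icc 1 Q, ∑ a ∈ rr q, 8 * T * (∑ x ∈ Ico (2 * H) T, ‖∑ t ∈ Ico (x + 1 - H) (x + 1), F t * ee (t * ((a : ℝ) / q))‖ ^ 2 +
        3 * (H : ℝ) ^ 3 * M ^ 2) := by
    rw [mul_sum]
    apply sum_le_sum
    intro q hq
    rw [mul_sum]
    exact sum_le_sum fun a ha => h1 q hq a ha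
  refine hk.trans ?_
  simp only [← mul_sum, sum_add_distrib, sum_const, nsmul_eq_mul, ← sum_mul]
  apply mul_le_mul_of_nonneg_left _ (by positivity)
  apply add_le_add le_rfl
  have h2 := card_fracs Q
  have h3 : 0 ≤ 3 * (H : ℝ) ^ 3 * M ^ 2 := by positivity
  have h4 := mul_le_mul_of_nonneg_right h2 h3
  linarith [h4]

open Classical in
/-- the energy of the fractions with small denominators -/
theorem fracA (A : ℕ) {c C : ℝ} (hc : 0 < c) (hc8 : c ≤ 1 / 8) (hC : 0 < C) : ∃ c1 l0 : ℝ, 0 < c1 ∧ 1000 ≤ l0 ∧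
    ∀ l : ℝ, l0 ≤ l → ∀ T : ℕ, Par l T 1 T → Reg c C (12 * l) →
      (10 : ℝ) ^ 8 * Real.log T ^ (A + 12) ≤ Real.exp (l / 100) →
      Real.log T ≤ 36 * l ^ 2 → l * Real.log (Real.log T) ≤ c1 * Real.log T →
      ∀ Y : ℕ, Y ≤ T → ∑ q ∈ Icc 1 (Ql l), ∑ a ∈ rr q,
        ‖∑ t ∈ range Y, ((df l t : ℝ) : ℂ) * ee (t * ((a : ℝ) / q))‖ ^ 2 ≤ (T : ℝ) ^ 2 / Real.log T ^ A := by
  obtain ⟨c0, Z0, hc0, hZ0, hAD⟩ := AD (A + 2) hc hc8 hC
  refine ⟨c0 / 6, max (max Z0 1000) (2 ^ (A + 10)), by positivity, (le_max_right _ _).trans (le_max_left _ _),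
    fun l hl T hpar hReg hbig hβ1 hβ2 Y hYT => ?_⟩
  have hlZ : Z0 ≤ l := (le_max_left _ _).trans ((le_max_left _ _).trans hl)
  have hl0 : 1000 ≤ l := (le_max_right _ _).trans ((le_max_left _ _).trans hl)
  have hlA : (2 : ℝ) ^ (A + 10) ≤ l := (le_max_right _ _).trans hl
  have hT0 : (0 : ℝ) < T := hpar.T0
  have hTn : 0 < T := by exact_mod_cast hT0
  have hlog : 100 * l ≤ Real.log T := hpar.L1
  set β := Real.log (T : ℝ) with hβ
  have hβ0 : 0 < β := by linarith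
  have hβ1' : 1 ≤ β := by linarith
  have hYexp : Real.exp β = (T : ℝ) := Real.exp_log hT0
  set Q := Ql l with hQ
  have hQ1 : (Q : ℝ) ≤ Real.exp (l / 2) := Nat.floor_le (Real.exp_pos _).le
  have hQ0 : (0 : ℝ) ≤ Q := Nat.cast_nonneg _
  have hQn : 1 ≤ Q := Nat.floor_pos.2 (Real.one_le_exp (by linarith))
  set H := HH l T with hH
  have hTbig : Real.exp (100 * l) ≤ T := hpar.hN
  have hx1 : 2 ≤ (T : ℝ) * Real.exp (-(4 * l)) := by
    calc (2 : ℝ) ≤ l + 1 := by linarith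
      _ ≤ Real.exp l := Real.add_one_le_exp l
      _ ≤ Real.exp (100 * l + -(4 * l)) := Real.exp_le_exp.2 (by linarith)
      _ = Real.exp (100 * l) * Real.exp (-(4 * l)) := by rw [Real.exp_add]
      _ ≤ _ := mul_le_mul_of_nonneg_right hTbig (Real.exp_pos _).le
  have hHle : (H : ℝ) ≤ T * Real.exp (-(4 * l)) := HH_le T
  have hHge : (T : ℝ) * Real.exp (-(4 * l)) / 2 ≤ H := by
    have f1 : (T : ℝ) * Real.exp (-(4 * l)) < H + 1 := Nat.lt_floor_add_one _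
    linarith
  have hHpos : (0 : ℝ) < H := by linarith
  have hHn : 1 ≤ H := by exact_mod_cast hHpos
  have he4 : Real.exp (-(4 * l)) ≤ 1 / 2 := by
    have f1 := Real.add_one_le_exp (4 * l)
    rw [Real.exp_neg, inv_eq_one_div]
    exact one_div_le_one_div_of_le (by norm_num) (by linarith)
  have hH2 : 2 * H ≤ T := by
    have f1 : (2 : ℝ) * H ≤ T := by
      have : (T : ℝ) * Real.exp (-(4 * l)) ≤ T * (1 / 2) := mul_le_mul_of_nonneg_left he4 hT0.le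
      linarith
    exact_mod_cast f1
  have hHT : H ≤ T := by omega
  have had := hAD (12 * l) (6 * l) (Real.exp (-(6 * l))) β 1 H T hReg (by ring) rfl le_rfl hHn hH2
    (by rw [one_mul]) (by linarith) (by
      rw [show (6 : ℝ) * l = √((6 * l) ^ 2) from (Real.sqrt_sq (by linarith)).symm]
      apply Real.sqrt_le_sqrt
      linarith) (by linarith) (by
      rw [one_mul]
      have f1 : Real.log ((T : ℝ) * Real.exp (-(4 * l)) / 2) ≤ Real.log (H : ℝ) :=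
        Real.log_le_log (by positivity) hHge
      rw [Real.log_div (by positivity) (by norm_num), Real.log_mul (by positivity) (by positivity), Real.log_exp, ← hβ] at f1
      have := Real.log_two_lt_d9
      linarith) (by
      rw [one_mul]
      have f1 : Real.exp (-(6 * l)) * ((T : ℝ) * Real.exp (-(4 * l)) / 2) ≤ Real.exp (-(6 * l)) * (H : ℝ) :=
        mul_le_mul_of_nonneg_left hHge (Real.exp_pos _).le
      refine le_trans ?_ f1
      rw [← hYexp]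
      have f2 : Real.exp (-(6 * l)) * (Real.exp β * Real.exp (-(4 * l)) / 2) = Real.exp (β - 10 * l) / 2 := by
        rw [show β - 10 * l = -(6 * l) + (β + -(4 * l)) by ring, Real.exp_add, Real.exp_add]
        ring
      rw [f2]
      have := Real.add_one_le_exp (β - 10 * l)
      linarith) (Q * 1) (by omega) (by
        rw [mul_one]
        exact hQ1.trans (Real.exp_le_exp.2 (by linarith)))
  have hav := avg_classes (W := 1) (Q := Q) (H := H) (X := T) le_rfl hQn hHn had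
  have hE : ∑ q ∈ Icc 1 Q, ∑ a ∈ rr q, ∑ x ∈ Ico (2 * H) T,
      ‖∑ t ∈ Ico (x + 1 - H) (x + 1), ((df l t : ℝ) : ℂ) * ee (t * ((a : ℝ) / q))‖ ^ 2 ≤
      8 * ((H : ℝ) ^ 2 * T * (2 ^ (A + 2) * (β / β ^ (A + 2)))) +
      8 * (Q : ℝ) ^ 2 * T * (20 * Real.exp (-(6 * l)) * T * Real.log ((9 * T : ℕ) : ℝ) +
        2 * √(T : ℝ) * Real.log ((9 * T : ℕ) : ℝ)) ^ 2 + 96 * (Q : ℝ) ^ 8 * T := by
    have h0 : (0 : ℕ) ∈ (range 1).filter (fun b => b.Coprime 1) := by simp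
    have h1 := (single_le_sum (f := fun b => ∑ q ∈ Icc 1 Q, ∑ a ∈ rr q, ∑ x ∈ Ico (2 * H) T,
      ‖∑ t ∈ Ico (x + 1 - H) (x + 1), ((FF 1 Q b t : ℝ) : ℂ) * ee (t * ((a : ℝ) / q))‖ ^ 2)
      (fun _ _ => sum_nonneg fun _ _ => sum_nonneg fun _ _ => sum_nonneg fun _ _ => sq_nonneg _) h0).trans hav
    refine h1.trans (le_of_eq ?_)
    push_cast
    ring_nf
  set X1 := 20 * Real.exp (-(6 * l)) * T * Real.log ((9 * T : ℕ) : ℝ) +
        2 * √(T : ℝ) * Real.log ((9 * T : ℕ) : ℝ) with hX1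
  have hlog9 : Real.log ((9 * T : ℕ) : ℝ) ≤ 2 * β := by
    rw [Nat.cast_mul, Real.log_mul (by norm_num) (by positivity), ← hβ]
    have : Real.log ((9 : ℕ) : ℝ) ≤ 8 := by
      have := Real.log_le_sub_one_of_pos (show (0 : ℝ) < 9 by norm_num)
      push_cast
      linarith
    linarith
  have hlog90 : 0 ≤ Real.log ((9 * T : ℕ) : ℝ) := Real.log_natCast_nonneg _
  have hsqY : √(T : ℝ) ≤ Real.exp (-(6 * l)) * T := by
    rw [Real.sqrt_le_left (by positivity), mul_pow, ← Real.exp_nat_mul]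
    have f1 : 1 ≤ Real.exp ((2 : ℕ) * -(6 * l)) * T := by
      rw [← hYexp, ← Real.exp_add]
      apply Real.one_le_exp
      push_cast
      linarith
    calc (T : ℝ) = 1 * T := (one_mul _).symm
      _ ≤ (Real.exp ((2 : ℕ) * -(6 * l)) * T) * T := mul_le_mul_of_nonneg_right f1 hT0.le
      _ = _ := by ring
  have hX10 : 0 ≤ X1 := by positivity
  have hX1le : X1 ≤ 44 * β * (Real.exp (-(6 * l)) * T) := by
    calc X1 ≤ 20 * Real.exp (-(6 * l)) * T * (2 * β) + 2 * (Real.exp (-(6 * l)) * T) * (2 * β) := by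
          rw [hX1]
          gcongr
      _ = 44 * β * (Real.exp (-(6 * l)) * T) := by ring
  have hX2 : X1 ^ 2 ≤ 1936 * β ^ 2 * (Real.exp (-(12 * l)) * (T : ℝ) ^ 2) := by
    calc X1 ^ 2 ≤ (44 * β * (Real.exp (-(6 * l)) * T)) ^ 2 := pow_le_pow_left₀ hX10 hX1le 2
      _ = 1936 * β ^ 2 * (Real.exp (-(6 * l)) ^ 2 * (T : ℝ) ^ 2) := by ring
      _ = _ := by rw [← Real.exp_nat_mul]; push_cast; ring_nf
  -- the major frequencies
  set M : ℝ := β + Q with hMd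
  have hM0 : 0 ≤ M := by positivity
  have h3H : 3 * H ≤ T := by
    have f1 : (3 : ℝ) * H ≤ T := by
      have f2 : 3 * Real.exp (-(4 * l)) ≤ 1 := by
        have f1 := Real.add_one_le_exp (4 * l)
        rw [Real.exp_neg, ← div_eq_mul_inv, div_le_one (Real.exp_pos _)]
        linarith
      have : (T : ℝ) * (3 * Real.exp (-(4 * l))) ≤ T * 1 := mul_le_mul_of_nonneg_left f2 hT0.le
      linarith
    exact_mod_cast f1
  have h1 := win_frac (Q := Q) h3H (fun t => ((df l t : ℝ) : ℂ)) hM0 (fun t ht => by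
    rw [Complex.norm_real, Real.norm_eq_abs, df_eq]
    have f1 : |th t| ≤ β := by
      rw [abs_of_nonneg (th_nonneg t)]
      exact th_le_of_le ht.le
    have f2 := abs_mo_le 1 Q 0 t
    have f3 := abs_sub (th t) (mo 1 Q 0 t)
    linarith) hYT
  set S := ∑ q ∈ Icc 1 Q, ∑ a ∈ rr q,
      ‖∑ t ∈ range Y, ((df l t : ℝ) : ℂ) * ee (t * ((a : ℝ) / q))‖ ^ 2 with hS
  have hHsq : (T : ℝ) ^ 2 * Real.exp (-(8 * l)) / 4 ≤ (H : ℝ) ^ 2 := by
    calc (T : ℝ) ^ 2 * Real.exp (-(8 * l)) / 4 = (T * Real.exp (-(4 * l)) / 2) ^ 2 := by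
          rw [div_pow, mul_pow, ← Real.exp_nat_mul]; push_cast; ring_nf
      _ ≤ _ := pow_le_pow_left₀ (by positivity) hHge 2
  have hQ2 : (Q : ℝ) ^ 2 ≤ Real.exp l := by
    calc _ ≤ Real.exp (l / 2) ^ 2 := pow_le_pow_left₀ hQ0 hQ1 2
      _ = _ := by rw [← Real.exp_nat_mul]; push_cast; ring_nf
  have hQ8 : (Q : ℝ) ^ 8 ≤ Real.exp (4 * l) := by
    calc _ ≤ Real.exp (l / 2) ^ 8 := pow_le_pow_left₀ hQ0 hQ1 8
      _ = _ := by rw [← Real.exp_nat_mul]; push_cast; ring_nf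
  have hβA : 0 < β ^ A := by positivity
  have hβbig : (10 : ℝ) ^ 8 * (β ^ A * β ^ 12) ≤ Real.exp (l / 100) := by
    rw [← pow_add]; exact hbig
  have hβ12 : β ^ 12 = β ^ 2 * β ^ 10 := by ring
  have hβ10 : 1 ≤ β ^ 10 := one_le_pow₀ hβ1'
  have hβ2 : 1 ≤ β ^ 2 := one_le_pow₀ hβ1'
  have hβs : (10 : ℝ) ^ 8 * (β ^ A * β ^ 2) ≤ Real.exp (l / 100) := by
    refine le_trans ?_ hβbig
    rw [hβ12]
    have : β ^ A * β ^ 2 * 1 ≤ β ^ A * β ^ 2 * β ^ 10 := mul_le_mul_of_nonneg_left hβ10 (by positivity)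
    linarith
  have hβs1 : (10 : ℝ) ^ 8 * β ^ A ≤ Real.exp (l / 100) := by
    refine le_trans ?_ hβs
    have : β ^ A * 1 ≤ β ^ A * β ^ 2 := mul_le_mul_of_nonneg_left hβ2 (by positivity)
    linarith
  -- the four terms
  have key : ∀ Z w : ℝ, 0 ≤ w → Z ≤ (T : ℝ) ^ 3 * w → w * Real.exp (8 * l) * (128 * β ^ A) ≤ 1 →
      8 * (T : ℝ) * Z ≤ (H : ℝ) ^ 2 * ((T : ℝ) ^ 2 / β ^ A * (1 / 4)) := by
    intro Z w hw hZ hw2
    have f1 : (T : ℝ) ^ 2 * Real.exp (-(8 * l)) / 4 * ((T : ℝ) ^ 2 / β ^ A * (1 / 4)) ≤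
        (H : ℝ) ^ 2 * ((T : ℝ) ^ 2 / β ^ A * (1 / 4)) := mul_le_mul_of_nonneg_right hHsq (by positivity)
    refine le_trans ?_ f1
    have f2 : (T : ℝ) ^ 2 * Real.exp (-(8 * l)) / 4 * ((T : ℝ) ^ 2 / β ^ A * (1 / 4)) =
        (T : ℝ) ^ 4 * (Real.exp (-(8 * l)) / (16 * β ^ A)) := by field_simp; norm_num
    rw [f2]
    have f3 : w ≤ Real.exp (-(8 * l)) / (128 * β ^ A) := by
      rw [le_div_iff₀ (by positivity)]
      have f4 : Real.exp (8 * l) * Real.exp (-(8 * l)) = 1 := by rw [← Real.exp_add]; simp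
      calc w * (128 * β ^ A) = (w * Real.exp (8 * l) * (128 * β ^ A)) * Real.exp (-(8 * l)) := by
            rw [show w * Real.exp (8 * l) * (128 * β ^ A) * Real.exp (-(8 * l)) =
              w * (128 * β ^ A) * (Real.exp (8 * l) * Real.exp (-(8 * l))) by ring, f4, mul_one]
        _ ≤ 1 * Real.exp (-(8 * l)) := mul_le_mul_of_nonneg_right hw2 (Real.exp_pos _).le
        _ = _ := one_mul _
    calc 8 * (T : ℝ) * Z ≤ 8 * T * ((T : ℝ) ^ 3 * (Real.exp (-(8 * l)) / (128 * β ^ A))) := by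
          apply mul_le_mul_of_nonneg_left _ (by positivity)
          exact hZ.trans (mul_le_mul_of_nonneg_left f3 (by positivity))
      _ = _ := by field_simp; norm_num
  have e1 : 8 * (T : ℝ) * (8 * ((H : ℝ) ^ 2 * T * (2 ^ (A + 2) * (β / β ^ (A + 2))))) ≤
      (H : ℝ) ^ 2 * ((T : ℝ) ^ 2 / β ^ A * (1 / 4)) := by
    have f1 : 8 * (T : ℝ) * (8 * ((H : ℝ) ^ 2 * T * (2 ^ (A + 2) * (β / β ^ (A + 2))))) =
        (H : ℝ) ^ 2 * ((T : ℝ) ^ 2 / β ^ A * (64 * 2 ^ (A + 2) / β)) := by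
      rw [pow_add β A 2]
      field_simp
      norm_num
    rw [f1]
    apply mul_le_mul_of_nonneg_left _ (by positivity)
    apply mul_le_mul_of_nonneg_left _ (by positivity)
    rw [div_le_div_iff₀ hβ0 (by norm_num)]
    have f2 : (2 : ℝ) ^ (A + 10) = 2 ^ (A + 2) * 2 ^ 8 := by rw [← pow_add]
    rw [f2] at hlA
    linarith
  have e2 := key (8 * (Q : ℝ) ^ 2 * T * X1 ^ 2) (8 * Real.exp l * (1936 * β ^ 2 * Real.exp (-(12 * l)))) (by positivity)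
    (by
      calc 8 * (Q : ℝ) ^ 2 * T * X1 ^ 2 ≤ 8 * Real.exp l * T * (1936 * β ^ 2 * (Real.exp (-(12 * l)) * (T : ℝ) ^ 2)) := by
            gcongr
        _ = _ := by ring)
    (by
      have f1 : 8 * Real.exp l * (1936 * β ^ 2 * Real.exp (-(12 * l))) * Real.exp (8 * l) * (128 * β ^ A) =
          (1982464 * (β ^ A * β ^ 2)) * (Real.exp l * Real.exp (-(12 * l)) * Real.exp (8 * l)) := by ring
      have f2 : Real.exp l * Real.exp (-(12 * l)) * Real.exp (8 * l) = Real.exp (-(3 * l)) := by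
        rw [← Real.exp_add, ← Real.exp_add]; ring_nf
      have f3 : 1982464 * (β ^ A * β ^ 2) ≤ Real.exp (l / 100) := by
        refine le_trans ?_ hβs
        have : 0 ≤ β ^ A * β ^ 2 := by positivity
        linarith
      rw [f1, f2]
      calc (1982464 * (β ^ A * β ^ 2)) * Real.exp (-(3 * l)) ≤ Real.exp (l / 100) * Real.exp (-(3 * l)) := by gcongr
        _ = Real.exp (l / 100 + -(3 * l)) := by rw [Real.exp_add]
        _ ≤ 1 := Real.exp_le_one_iff.2 (by linarith))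
  have e3 := key (96 * (Q : ℝ) ^ 8 * T) (96 * Real.exp (4 * l) * Real.exp (-(200 * l))) (by positivity)
    (by
      have f1 : (1 : ℝ) ≤ (T : ℝ) ^ 2 * Real.exp (-(200 * l)) := by
        have f2 : Real.exp (100 * l) ^ 2 ≤ (T : ℝ) ^ 2 := pow_le_pow_left₀ (Real.exp_pos _).le hTbig 2
        have f3 : Real.exp (100 * l) ^ 2 * Real.exp (-(200 * l)) = 1 := by
          rw [← Real.exp_nat_mul, ← Real.exp_add]
          push_cast
          rw [show 2 * (100 * l) + -(200 * l) = 0 by ring, Real.exp_zero]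
        rw [← f3]
        gcongr
      calc 96 * (Q : ℝ) ^ 8 * T ≤ 96 * Real.exp (4 * l) * T * 1 := by
            rw [mul_one]
            gcongr
        _ ≤ 96 * Real.exp (4 * l) * T * ((T : ℝ) ^ 2 * Real.exp (-(200 * l))) := by gcongr
        _ = _ := by ring)
    (by
      have f1 : 96 * Real.exp (4 * l) * Real.exp (-(200 * l)) * Real.exp (8 * l) * (128 * β ^ A) =
          (12288 * β ^ A) * (Real.exp (4 * l) * Real.exp (-(200 * l)) * Real.exp (8 * l)) := by ring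
      have f2 : Real.exp (4 * l) * Real.exp (-(200 * l)) * Real.exp (8 * l) = Real.exp (-(188 * l)) := by
        rw [← Real.exp_add, ← Real.exp_add]; ring_nf
      have f3 : 12288 * β ^ A ≤ Real.exp (l / 100) := by
        refine le_trans ?_ hβs1
        have : 0 ≤ β ^ A := by positivity
        linarith
      rw [f1, f2]
      calc (12288 * β ^ A) * Real.exp (-(188 * l)) ≤ Real.exp (l / 100) * Real.exp (-(188 * l)) := by gcongr
        _ = Real.exp (l / 100 + -(188 * l)) := by rw [Real.exp_add]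
        _ ≤ 1 := Real.exp_le_one_iff.2 (by linarith))
  have hMle : M ^ 2 ≤ 4 * (β ^ 2 * Real.exp l) := by
    have f1 : M ≤ 2 * (β * Real.exp (l / 2)) := by
      have f2 : 1 ≤ Real.exp (l / 2) := Real.one_le_exp (by linarith)
      have f3 : β * 1 ≤ β * Real.exp (l / 2) := mul_le_mul_of_nonneg_left f2 hβ0.le
      have f4 : 1 * Real.exp (l / 2) ≤ β * Real.exp (l / 2) := mul_le_mul_of_nonneg_right hβ1' (by positivity)
      linarith
    calc M ^ 2 ≤ (2 * (β * Real.exp (l / 2))) ^ 2 := pow_le_pow_left₀ hM0 f1 2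
      _ = 4 * (β ^ 2 * Real.exp (l / 2) ^ 2) := by ring
      _ = _ := by rw [← Real.exp_nat_mul]; push_cast; ring_nf
  have hH3 : (H : ℝ) ^ 3 ≤ (T : ℝ) ^ 3 * Real.exp (-(12 * l)) := by
    calc (H : ℝ) ^ 3 ≤ (T * Real.exp (-(4 * l))) ^ 3 := pow_le_pow_left₀ hHpos.le hHle 3
      _ = _ := by rw [mul_pow, ← Real.exp_nat_mul]; push_cast; ring_nf
  have e4 := key (3 * (Q : ℝ) ^ 2 * (H : ℝ) ^ 3 * M ^ 2)
    (3 * Real.exp l * Real.exp (-(12 * l)) * (4 * (β ^ 2 * Real.exp l))) (by positivity)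
    (by
      calc 3 * (Q : ℝ) ^ 2 * (H : ℝ) ^ 3 * M ^ 2 ≤
            3 * Real.exp l * ((T : ℝ) ^ 3 * Real.exp (-(12 * l))) * (4 * (β ^ 2 * Real.exp l)) := by gcongr
        _ = _ := by ring)
    (by
      have f1 : 3 * Real.exp l * Real.exp (-(12 * l)) * (4 * (β ^ 2 * Real.exp l)) * Real.exp (8 * l) * (128 * β ^ A) =
          (1536 * (β ^ A * β ^ 2)) * (Real.exp l * Real.exp (-(12 * l)) * Real.exp l * Real.exp (8 * l)) := by ring
      have f2 : Real.exp l * Real.exp (-(12 * l)) * Real.exp l * Real.exp (8 * l) = Real.exp (-(2 * l)) := by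
        rw [← Real.exp_add, ← Real.exp_add, ← Real.exp_add]; ring_nf
      have f3 : 1536 * (β ^ A * β ^ 2) ≤ Real.exp (l / 100) := by
        refine le_trans ?_ hβs
        have : 0 ≤ β ^ A * β ^ 2 := by positivity
        linarith
      rw [f1, f2]
      calc (1536 * (β ^ A * β ^ 2)) * Real.exp (-(2 * l)) ≤ Real.exp (l / 100) * Real.exp (-(2 * l)) := by gcongr
        _ = Real.exp (l / 100 + -(2 * l)) := by rw [Real.exp_add]
        _ ≤ 1 := Real.exp_le_one_iff.2 (by linarith))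
  have h4 : (H : ℝ) ^ 2 * S ≤ (H : ℝ) ^ 2 * ((T : ℝ) ^ 2 / β ^ A) := by
    refine h1.trans ?_
    have f1 := mul_le_mul_of_nonneg_left (add_le_add_left hE (3 * (Q : ℝ) ^ 2 * (H : ℝ) ^ 3 * M ^ 2))
      (by positivity : (0 : ℝ) ≤ 8 * T)
    refine f1.trans ?_
    have f2 : (H : ℝ) ^ 2 * ((T : ℝ) ^ 2 / β ^ A) = 4 * ((H : ℝ) ^ 2 * ((T : ℝ) ^ 2 / β ^ A * (1 / 4))) := by ring
    rw [f2]
    linarith
  exact le_of_mul_le_mul_left h4 (by positivity)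

end Pool.Agent.P8H14.PL
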