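import Pool.Agent.P8H14.PL.M8

set_option autoImplicit false

/-!
# Products of primes and models: weights
-/

open Finset

namespace Pool.Agent.P8H14.PL

open Pool.Agent.P8H13.PK
open Pool.Agent.P8H13.GK

lemma th_le_log {n M : ℕ} (h : n ≤ M) (hM : 1 ≤ M) : |th n| ≤ Real.log M := by
  rw [abs_of_nonneg (th_nonneg n)]
  unfold th
  split_ifs with hp
  · exact Real.log_le_log (by exact_mod_cast hp.pos) (by exact_mod_cast h)
  · exact Real.log_natCast_nonneg M

/-- **the mean square of the weights** -/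
theorem wt_sq (k B : ℕ) : ∃ (K : ℕ) (C : ℝ), 1 ≤ C ∧ ∀ N Q : ℕ, 3 ≤ Q → Q ≤ N → B + 1 ≤ N →
    ∀ (h : Fin k → ℕ) (h0 : ℕ), (∀ i, h i ≤ B * N) → h0 ≤ B * N → ∀ I J : Finset (Fin k),
      ∑ n ∈ Icc 1 N, (th (n + h0) * (∏ j ∈ I, th (n + h j)) * ∏ j ∈ J, mo 1 Q 0 (n + h j)) ^ 2 ≤
        N * (C * Real.log N ^ K) := by
  obtain ⟨D, hD1, hD⟩ := mo_moment (2 * k)
  set K1 : ℕ := 2 * (2 * k) + 2 ^ (2 * k) with hK1
  refine ⟨2 * (k + 1) + K1, 4 ^ (k + 1) * ((k + 1) + k * ((B + 1) * (D * 2 ^ K1))), ?_,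
    fun N Q hQ hQN hBN h h0 hh hh0 I J => ?_⟩
  · have h1 : (1 : ℝ) ≤ 4 ^ (k + 1) := one_le_pow₀ (by norm_num)
    have h2 : (1 : ℝ) ≤ (k + 1) + k * ((B + 1) * (D * 2 ^ K1)) := by
      have : (0 : ℝ) ≤ k * ((B + 1) * (D * 2 ^ K1)) := by positivity
      have : (0 : ℝ) ≤ k := Nat.cast_nonneg _
      linarith
    exact one_le_mul_of_one_le_of_one_le h1 h2
  have hN0 : (0 : ℝ) < N := by
    have : 0 < N := by omega
    exact_mod_cast this
  have hl : 1 ≤ Real.log N := by
    rw [Real.le_log_iff_exp_le hN0]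
    have := Real.exp_one_lt_d9
    have h3 : (3 : ℝ) ≤ N := by exact_mod_cast hQ.trans hQN
    linarith
  set M : ℕ := (B + 1) * N with hM
  have hM1 : 1 ≤ M := by rw [hM]; exact Nat.mul_pos (by omega) (by omega)
  have hlM : Real.log M ≤ 2 * Real.log N := by
    have h1 : (M : ℝ) ≤ N * N := by
      rw [hM]; push_cast
      have : ((B : ℝ) + 1) ≤ N := by exact_mod_cast hBN
      exact mul_le_mul_of_nonneg_right this hN0.le
    calc Real.log M ≤ Real.log (N * N) := Real.log_le_log (by exact_mod_cast hM1) h1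
      _ = 2 * Real.log N := by rw [Real.log_mul hN0.ne' hN0.ne']; ring
  have hlM0 : 0 ≤ Real.log M := Real.log_natCast_nonneg M
  -- the primes
  have hth : ∀ n ∈ Icc 1 N, (th (n + h0) * ∏ j ∈ I, th (n + h j)) ^ 2 ≤ 4 ^ (k + 1) * Real.log N ^ (2 * (k + 1)) := by
    intro n hn
    rw [mem_Icc] at hn
    have e1 : |th (n + h0)| ≤ 2 * Real.log N := (th_le_log (M := M) (by rw [hM]; linarith [hn.2]) hM1).trans hlM
    have e2 : ∀ j, |th (n + h j)| ≤ 2 * Real.log N := fun j =>
      (th_le_log (M := M) (by rw [hM]; linarith [hn.2, hh j]) hM1).trans hlM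
    have e3 : |∏ j ∈ I, th (n + h j)| ≤ (2 * Real.log N) ^ k := by
      rw [abs_prod]
      calc ∏ j ∈ I, |th (n + h j)| ≤ ∏ _j ∈ I, (2 * Real.log N) := prod_le_prod (fun _ _ => abs_nonneg _) fun j _ => e2 j
        _ = (2 * Real.log N) ^ I.card := by rw [prod_const]
        _ ≤ (2 * Real.log N) ^ k := by
            apply pow_le_pow_right₀ (by linarith)
            simpa using card_le_univ I
    have e4 : |th (n + h0) * ∏ j ∈ I, th (n + h j)| ≤ (2 * Real.log N) ^ (k + 1) := by
      rw [abs_mul, pow_succ, mul_comm ((2 * Real.log N) ^ k)]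
      exact mul_le_mul e1 e3 (abs_nonneg _) (by positivity)
    calc _ = |th (n + h0) * ∏ j ∈ I, th (n + h j)| ^ 2 := (sq_abs _).symm
      _ ≤ ((2 * Real.log N) ^ (k + 1)) ^ 2 := pow_le_pow_left₀ (abs_nonneg _) e4 2
      _ = _ := by rw [← pow_mul, mul_pow, mul_comm (k + 1) 2, pow_mul 2 2 (k + 1)]; norm_num
  -- the models
  have hmo : ∀ n : ℕ, (∏ j ∈ J, mo 1 Q 0 (n + h j)) ^ 2 ≤ (k + 1) + ∑ j, |mo 1 Q 0 (n + h j)| ^ (2 * k) := by
    intro n
    have e1 := prod_le_sum_pow (fun j : Fin k => if j ∈ J then |mo 1 Q 0 (n + h j)| ^ 2 else 1) (fun j => by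
      split_ifs <;> positivity)
    have e2 : ∏ j, (if j ∈ J then |mo 1 Q 0 (n + h j)| ^ 2 else 1) = (∏ j ∈ J, mo 1 Q 0 (n + h j)) ^ 2 := by
      rw [prod_ite_mem, univ_inter, ← prod_pow]
      apply prod_congr rfl
      intro j _
      rw [sq_abs]
    rw [e2] at e1
    refine e1.trans ?_
    have e3 : ∑ j : Fin k, (if j ∈ J then |mo 1 Q 0 (n + h j)| ^ 2 else 1) ^ k ≤
        ∑ j : Fin k, (1 + |mo 1 Q 0 (n + h j)| ^ (2 * k)) := by
      apply sum_le_sum
      intro j _
      split_ifs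
      · rw [← pow_mul]; linarith
      · rw [one_pow]; have : 0 ≤ |mo 1 Q 0 (n + h j)| ^ (2 * k) := by positivity
        linarith
    rw [sum_add_distrib, sum_const, card_univ, Fintype.card_fin, nsmul_eq_mul, mul_one] at e3
    linarith
  have hmom : ∀ j : Fin k, ∑ n ∈ Icc 1 N, |mo 1 Q 0 (n + h j)| ^ (2 * k) ≤ M * (D * (2 * Real.log N) ^ K1) := by
    intro j
    have e1 : ∑ n ∈ Icc 1 N, |mo 1 Q 0 (n + h j)| ^ (2 * k) ≤ ∑ n ∈ Icc 1 M, |mo 1 Q 0 n| ^ (2 * k) := by
      rw [← sum_image (f := fun n => |mo 1 Q 0 n| ^ (2 * k)) (g := fun n => n + h j) (fun a _ b _ hab => by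
        simp only at hab; omega)]
      apply sum_le_sum_of_subset_of_nonneg
      · intro n hn
        rw [mem_image] at hn
        obtain ⟨m, hm, rfl⟩ := hn
        rw [mem_Icc] at hm ⊢
        refine ⟨by omega, ?_⟩
        rw [hM]
        linarith [hm.2, hh j]
      · intro _ _ _; positivity
    refine e1.trans ((hD Q M hQ (hQN.trans ?_)).trans ?_)
    · rw [hM]; exact Nat.le_mul_of_pos_left _ (by omega)
    · gcongr
  calc ∑ n ∈ Icc 1 N, (th (n + h0) * (∏ j ∈ I, th (n + h j)) * ∏ j ∈ J, mo 1 Q 0 (n + h j)) ^ 2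
      ≤ ∑ n ∈ Icc 1 N, (4 ^ (k + 1) * Real.log N ^ (2 * (k + 1))) * ((k + 1) + ∑ j, |mo 1 Q 0 (n + h j)| ^ (2 * k)) := by
        apply sum_le_sum
        intro n hn
        rw [mul_pow]
        exact mul_le_mul (hth n hn) (hmo n) (sq_nonneg _) (by positivity)
    _ = (4 ^ (k + 1) * Real.log N ^ (2 * (k + 1))) * (N * (k + 1) + ∑ j, ∑ n ∈ Icc 1 N, |mo 1 Q 0 (n + h j)| ^ (2 * k)) := by
        rw [← mul_sum, sum_add_distrib, sum_const, Nat.card_Icc, Nat.add_sub_cancel, nsmul_eq_mul, sum_comm]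
    _ ≤ (4 ^ (k + 1) * Real.log N ^ (2 * (k + 1))) * (N * (k + 1) * Real.log N ^ K1 + k * (M * (D * (2 * Real.log N) ^ K1))) := by
        apply mul_le_mul_of_nonneg_left _ (by positivity)
        apply add_le_add
        · exact le_mul_of_one_le_right (by positivity) (one_le_pow₀ hl)
        · refine (sum_le_sum fun j _ => hmom j).trans (le_of_eq ?_)
          rw [sum_const, card_univ, Fintype.card_fin, nsmul_eq_mul]
    _ = _ := by
        rw [hM, pow_add _ (2 * (k + 1)) K1, mul_pow]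
        push_cast
        ring

/-- from the von Mangoldt function to the primes -/
theorem La_th (k B : ℕ) {N : ℕ} (hN : 3 ≤ N) (hBN : B + 1 ≤ N) (h : Fin k → ℕ) (hh : ∀ i, h i ≤ B * N) {X : ℕ} (hX : X ≤ N) :
    |∑ n ∈ Icc 1 X, ∏ i, ArithmeticFunction.vonMangoldt (n + h i) - ∑ n ∈ Icc 1 X, ∏ i, th (n + h i)| ≤
      k * ((2 * Real.log N) ^ k * (4 * √((B + 1) * N) * Real.log N)) := by
  have hN0 : (0 : ℝ) < N := by
    have : 0 < N := by omega
    exact_mod_cast this
  have hl : 1 ≤ Real.log N := by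
    rw [Real.le_log_iff_exp_le hN0]
    have := Real.exp_one_lt_d9
    have h3 : (3 : ℝ) ≤ N := by exact_mod_cast hN
    linarith
  set M : ℕ := (B + 1) * N with hM
  have hM1 : 1 ≤ M := by rw [hM]; exact Nat.mul_pos (by omega) (by omega)
  have hlM : Real.log M ≤ 2 * Real.log N := by
    have h1 : (M : ℝ) ≤ N * N := by
      rw [hM]; push_cast
      have : ((B : ℝ) + 1) ≤ N := by exact_mod_cast hBN
      exact mul_le_mul_of_nonneg_right this hN0.le
    calc Real.log M ≤ Real.log (N * N) := Real.log_le_log (by exact_mod_cast hM1) h1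
      _ = 2 * Real.log N := by rw [Real.log_mul hN0.ne' hN0.ne']; ring
  have hvM : ∀ n ≤ M, |ArithmeticFunction.vonMangoldt n| ≤ 2 * Real.log N := by
    intro n hn
    rw [abs_of_nonneg ArithmeticFunction.vonMangoldt_nonneg]
    rcases Nat.eq_zero_or_pos n with h0 | h0
    · subst h0; simp; linarith
    · refine ArithmeticFunction.vonMangoldt_le_log.trans ((Real.log_le_log (by exact_mod_cast h0) ?_).trans hlM)
      exact_mod_cast hn
  have hone : ∀ n ∈ Icc 1 X, |∏ i, ArithmeticFunction.vonMangoldt (n + h i) - ∏ i, th (n + h i)| ≤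
      ∑ i, (ArithmeticFunction.vonMangoldt (n + h i) - th (n + h i)) * (2 * Real.log N) ^ k := by
    intro n hn
    rw [mem_Icc] at hn
    have hnM : ∀ i, n + h i ≤ M := fun i => by rw [hM]; linarith [hn.2, hh i]
    have e1 := prod_add_ordered (univ : Finset (Fin k)) (fun i => th (n + h i))
      (fun i => ArithmeticFunction.vonMangoldt (n + h i) - th (n + h i))
    simp only [add_sub_cancel] at e1
    rw [e1, add_sub_cancel_left]
    refine (abs_sum_le_sum_abs _ _).trans (sum_le_sum fun i _ => ?_)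
    have e2 : |ArithmeticFunction.vonMangoldt (n + h i) - th (n + h i)| =
        ArithmeticFunction.vonMangoldt (n + h i) - th (n + h i) := abs_of_nonneg (by linarith [th_le (n + h i)])
    rw [mul_assoc, abs_mul, e2]
    apply mul_le_mul_of_nonneg_left _ (by linarith [th_le (n + h i)])
    rw [abs_mul, abs_prod, abs_prod]
    have hA : ∏ j ∈ (univ : Finset (Fin k)) with j < i, |ArithmeticFunction.vonMangoldt (n + h j)| ≤
        (2 * Real.log N) ^ ((univ : Finset (Fin k)).filter (fun j => j < i)).card := by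
      rw [← prod_const]
      exact prod_le_prod (fun _ _ => abs_nonneg _) fun j _ => hvM _ (hnM j)
    have hB' : ∏ j ∈ (univ : Finset (Fin k)) with i < j, |th (n + h j)| ≤
        (2 * Real.log N) ^ ((univ : Finset (Fin k)).filter (fun j => i < j)).card := by
      rw [← prod_const]
      exact prod_le_prod (fun _ _ => abs_nonneg _) fun j _ => (th_le_log (hnM j) hM1).trans hlM
    refine (mul_le_mul hA hB' (prod_nonneg fun _ _ => abs_nonneg _) (by positivity)).trans ?_
    rw [← pow_add]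
    apply pow_le_pow_right₀ (by linarith)
    rw [← card_union_of_disjoint]
    · simpa using card_le_univ (α := Fin k) _
    · rw [disjoint_filter]
      intro j _ h1 h2
      exact absurd h1 (not_lt.2 h2.le)
  rw [← sum_sub_distrib]
  refine (abs_sum_le_sum_abs _ _).trans ((sum_le_sum hone).trans ?_)
  rw [sum_comm]
  have hcol : ∀ i : Fin k, ∑ n ∈ Icc 1 X, (ArithmeticFunction.vonMangoldt (n + h i) - th (n + h i)) * (2 * Real.log N) ^ k ≤
      (2 * Real.log N) ^ k * (4 * √((B + 1) * N) * Real.log N) := by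
    intro i
    rw [← sum_mul, mul_comm]
    apply mul_le_mul_of_nonneg_left _ (by positivity)
    have e1 : ∑ n ∈ Icc 1 X, (ArithmeticFunction.vonMangoldt (n + h i) - th (n + h i)) ≤
        ∑ m ∈ Icc 1 M, (ArithmeticFunction.vonMangoldt m - th m) := by
      rw [← sum_image (f := fun m => ArithmeticFunction.vonMangoldt m - th m) (g := fun n => n + h i) (fun a _ b _ hab => by
        simp only at hab; omega)]
      apply sum_le_sum_of_subset_of_nonneg
      · intro n hn
        rw [mem_image] at hn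
        obtain ⟨m, hm, rfl⟩ := hn
        rw [mem_Icc] at hm ⊢
        refine ⟨by omega, ?_⟩
        rw [hM]
        linarith [hm.2, hh i]
      · intro m _ _; linarith [th_le m]
    have e2 := sum_La_sub_th hM1
    have e3 : (M : ℝ) = (B + 1) * N := by rw [hM]; push_cast; ring
    rw [e3] at e2
    rw [e3] at hlM
    refine e1.trans (e2.trans ?_)
    calc 2 * √((B + 1) * (N : ℝ)) * Real.log ((B + 1) * N) ≤ 2 * √((B + 1) * (N : ℝ)) * (2 * Real.log N) := by gcongr
      _ = _ := by ring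
  refine (sum_le_sum fun i _ => hcol i).trans (le_of_eq ?_)
  rw [sum_const, card_univ, Fintype.card_fin, nsmul_eq_mul]

end Pool.Agent.P8H14.PL
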