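import Pool.Agent.P8H14.PL.M9
import Pool.Agent.P8H14.SS.S3

set_option autoImplicit false

/-!
# The formula of Hardy and Littlewood at a good scale: the members with a large correlation
-/

open Finset

namespace Pool.Agent.P8H14.PL

open Pool.Agent.P8H13.PK
open Pool.Agent.P8H13.GK
open Pool.Agent.H373R2.T7 (exI energy avg_coord)

variable {k : ℕ}

/-- the weight of one step -/
noncomputable def wf (Q h0 : ℕ) (h : Fin k → ℕ) (i : Fin k) (n : ℕ) : ℝ :=
  th (n + h0) * (∏ j ∈ univ.filter (fun j => j < i), th (n + h j)) * ∏ j ∈ univ.filter (fun j => i < j), mo 1 Q 0 (n + h j)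

/-- the weight, cut off -/
noncomputable def wc (N Q h0 : ℕ) (h : Fin k → ℕ) (i : Fin k) (n : ℕ) : ℂ :=
  if n ≤ N then ((wf Q h0 h i n : ℝ) : ℂ) else 0

lemma wf_update (Q h0 : ℕ) (h : Fin k → ℕ) (i : Fin k) (v n : ℕ) : wf Q h0 (Function.update h i v) i n = wf Q h0 h i n := by
  unfold wf
  congr 1
  · congr 1
    apply prod_congr rfl
    intro j hj
    rw [mem_filter] at hj
    rw [Function.update_of_ne hj.2.ne]
  · apply prod_congr rfl
    intro j hj
    rw [mem_filter] at hj
    rw [Function.update_of_ne hj.2.ne']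

/-- the telescoping identity -/
lemma tele (l : ℝ) (h0 : ℕ) (h : Fin k → ℕ) (n : ℕ) :
    th (n + h0) * ∏ j, th (n + h j) - th (n + h0) * ∏ j, mo 1 (Ql l) 0 (n + h j) =
      ∑ i, wf (Ql l) h0 h i n * df l (n + h i) := by
  have e1 := prod_add_ordered (univ : Finset (Fin k)) (fun i => mo 1 (Ql l) 0 (n + h i)) (fun i => df l (n + h i))
  have e2 : ∀ i, mo 1 (Ql l) 0 (n + h i) + df l (n + h i) = th (n + h i) := fun i => by rw [df_eq]; ring
  simp only [e2] at e1
  rw [e1, mul_add, add_sub_cancel_left, mul_sum]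
  apply sum_congr rfl
  intro i _
  unfold wf
  ring

/-- the member `i` is bad -/
def Bd (B A N : ℕ) (l : ℝ) (h0 : ℕ) (h : Fin k → ℕ) (i : Fin k) : Prop :=
  ¬ ∀ X : ℕ, 1 * X ≤ B * N → ‖∑ n ∈ Icc 1 X, wc N (Ql l) h0 h i n *
    exI (fun n => ((df l n : ℝ) : ℂ)) ((1 : ℕ) * n + (h i : ℤ))‖ ≤ N / Real.log N ^ A

lemma not_Bd {B A N : ℕ} (hB : 1 ≤ B) {l : ℝ} {h0 : ℕ} {h : Fin k → ℕ} {i : Fin k} (hb : ¬ Bd B A N l h0 h i)
    {X : ℕ} (hX : X ≤ N) : |∑ n ∈ Icc 1 X, wf (Ql l) h0 h i n * df l (n + h i)| ≤ N / Real.log N ^ A := by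
  unfold Bd at hb
  rw [not_not] at hb
  have h1 := hb X (by rw [one_mul]; exact hX.trans (Nat.le_mul_of_pos_left _ (by omega)))
  refine le_trans (le_of_eq ?_) h1
  rw [← Real.norm_eq_abs, ← Complex.norm_real]
  congr 1
  push_cast
  apply sum_congr rfl
  intro n hn
  rw [mem_Icc] at hn
  unfold wc exI
  rw [if_pos (by omega), if_pos (by omega)]
  have : ((1 : ℤ) * (n : ℤ) + (h i : ℤ)).toNat = n + h i := by omega
  rw [this]

/-- the member `i` of the tuple `m` is bad -/
def BdZ (B A N : ℕ) (l : ℝ) (h0 : ℕ) (s : Fin k → ℕ → ℤ) (m : Fin k → ℕ) (i : Fin k) : Prop :=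
  ¬ ∀ X : ℕ, 1 * X ≤ B * N → ‖∑ n ∈ Icc 1 X, wc N (Ql l) h0 (fun j => (s j (m j)).toNat) i n *
    exI (fun n => ((df l n : ℝ) : ℂ)) ((1 : ℕ) * n + s i (m i))‖ ≤ N / Real.log N ^ A

/-- **counting the tuples with a bad member** -/
theorem count_bad (k B : ℕ) (hB : 1 ≤ B) : ∃ A0 : ℕ, ∀ A : ℕ, A0 ≤ A → ∃ M0 : ℝ, ∀ (N : ℕ) (l y : ℝ), M0 ≤ Real.log N →
    1 ≤ y → 3 ≤ Ql l → Ql l ≤ N →
    ∀ (x p : Fin k → ℕ) (s : Fin k → ℕ → ℤ), (∀ i, FLm B (p i) A y l N) →
      (∀ i, ∀ m ∈ Icc 1 (x i), |s i m| ≤ B * N) →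
      (∀ i, (energy (p i) (x i) (s i) : ℝ) * N ≤ y * (x i : ℝ) ^ (2 * p i)) → ∀ h0 ≤ B * N,
      ∀ E : (Fin k → ℕ) → Prop, [DecidablePred E] →
        (∀ m ∈ Fintype.piFinset (fun i => Icc 1 (x i)), E m → ∃ i, BdZ B A N l h0 s m i) →
        (((Fintype.piFinset (fun i => Icc 1 (x i))).filter E).card : ℝ) ≤ k * ((∏ i, (x i : ℝ)) / y) := by
  classical
  obtain ⟨K, C, hC1, hwt⟩ := wt_sq k B
  refine ⟨K + 1, fun A hA => ⟨max C (Real.log (B + 1) + 1), fun N l y hM hy hQ3 hQN x p s hF hs hE h0 hh0 E _ hEm => ?_⟩⟩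
  have hLC : C ≤ Real.log N := (le_max_left _ _).trans hM
  have hLB : Real.log (B + 1) + 1 ≤ Real.log N := (le_max_right _ _).trans hM
  have hL1 : 1 ≤ Real.log N := hC1.trans hLC
  have hNn : 0 < N := by
    rcases Nat.eq_zero_or_pos N with h | h
    · subst h; simp at hL1; linarith
    · exact h
  have hN0 : (0 : ℝ) < N := by exact_mod_cast hNn
  have hBN : B + 1 ≤ N := by
    have h1 : Real.log (B + 1) ≤ Real.log N := by linarith
    have h2 := (Real.log_le_log_iff (by positivity) hN0).1 h1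
    exact_mod_cast h2
  set Box := Fintype.piFinset (fun i => Icc 1 (x i)) with hBox
  set G : Fin k → (Fin k → ℕ) → Prop := fun i m => BdZ B A N l h0 s m i with hG
  have hone : ∀ i : Fin k, ∀ m ∈ Box, (((Icc 1 (x i)).filter (fun v => G i (Function.update m i v))).card : ℝ) ≤ x i / y := by
    intro i m hm
    rw [hBox, Fintype.mem_piFinset] at hm
    have hnat : ∀ j, (s j (m j)).toNat ≤ B * N := by
      intro j
      have h1 := (abs_le.1 (hs j _ (hm j))).2
      have h2 : ((B * N : ℕ) : ℤ) = (B : ℤ) * N := by push_cast; ring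
      omega
    have h1 := hF i (x i) (s i) (hs i) (hE i) 1 (by rw [Nat.cast_one]; exact hy) (fun _ => 1)
      (fun _ n => wc N (Ql l) h0 (fun j => (s j (m j)).toNat) i n) (fun _ => le_rfl) (fun _ => by
        have e1 : ∑ n ∈ Icc 1 (B * N / 1), ‖wc N (Ql l) h0 (fun j => (s j (m j)).toNat) i n‖ ^ 2 =
            ∑ n ∈ Icc 1 N, (wf (Ql l) h0 (fun j => (s j (m j)).toNat) i n) ^ 2 := by
          rw [Nat.div_one]
          have e2 : Icc 1 N = (Icc 1 (B * N)).filter (fun n => n ≤ N) := by
            ext n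
            simp only [mem_Icc, mem_filter]
            have : N ≤ B * N := Nat.le_mul_of_pos_left _ (by omega)
            omega
          rw [e2, sum_filter]
          apply sum_congr rfl
          intro n _
          unfold wc
          split_ifs
          · rw [Complex.norm_real, Real.norm_eq_abs, sq_abs]
          · simp
        rw [e1]
        refine (hwt N (Ql l) hQ3 hQN hBN (fun j => (s j (m j)).toNat) h0 hnat hh0 _ _).trans ?_
        apply mul_le_mul_of_nonneg_left _ hN0.le
        calc C * Real.log N ^ K ≤ Real.log N * Real.log N ^ K := by gcongr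
          _ = Real.log N ^ (K + 1) := by ring
          _ ≤ Real.log N ^ A := pow_le_pow_right₀ hL1 hA)
    refine le_trans ?_ h1
    have hsub : (Icc 1 (x i)).filter (fun v => G i (Function.update m i v)) ⊆ (Icc 1 (x i)).filter (fun v =>
        ¬ ∀ _ : Fin 1, ∀ X : ℕ, 1 * X ≤ B * N → ‖∑ n ∈ Icc 1 X, wc N (Ql l) h0 (fun j => (s j (m j)).toNat) i n *
          exI (fun n => ((df l n : ℝ) : ℂ)) ((1 : ℕ) * n + s i v)‖ ≤ N / Real.log N ^ A) := by
      intro v hv
      rw [mem_filter] at hv ⊢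
      refine ⟨hv.1, fun hcon => ?_⟩
      apply hv.2
      intro X hX
      have e3 := hcon 0 X hX
      have e4 : (fun j => (s j (Function.update m i v j)).toNat) =
          Function.update (fun j => (s j (m j)).toNat) i (s i v).toNat := by
        funext j
        by_cases hj : j = i
        · subst hj; rw [Function.update_self, Function.update_self]
        · rw [Function.update_of_ne hj, Function.update_of_ne hj]
      rw [e4, Function.update_self]
      refine le_trans (le_of_eq ?_) e3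
      congr 1
      apply sum_congr rfl
      intro n _
      congr 1
      unfold wc
      rw [wf_update]
    exact_mod_cast card_le_card hsub
  have hcard : (Box.card : ℝ) = ∏ j, (x j : ℝ) := by
    rw [hBox, Fintype.card_piFinset]
    push_cast
    apply prod_congr rfl
    intro j _
    simp
  have hy0 : 0 < y := by linarith
  have hcoord : ∀ i : Fin k, ((Box.filter (G i)).card : ℝ) ≤ (∏ j, (x j : ℝ)) / y := by
    intro i
    rcases Nat.eq_zero_or_pos (x i) with hx | hx
    · have h5 : Box = ∅ := by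
        rw [hBox]
        apply Finset.eq_empty_of_forall_notMem
        intro m hm
        have h6 := Fintype.mem_piFinset.1 hm i
        rw [hx] at h6
        simp at h6
      rw [h5]
      simp only [filter_empty, card_empty, Nat.cast_zero]
      positivity
    · have h5 := avg_coord (fun j => Icc 1 (x j)) i (fun m => if G i m then (1 : ℝ) else 0)
      rw [← hBox] at h5
      have h6 : ∑ m ∈ Box, (if G i m then (1 : ℝ) else 0) = ((Box.filter (G i)).card : ℝ) := by
        rw [← sum_filter, sum_const, nsmul_eq_mul, mul_one]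
      have h7 : ((Icc 1 (x i)).card : ℝ) = x i := by simp
      have h8 : ∀ m ∈ Box, ∑ v ∈ Icc 1 (x i), (if G i (Function.update m i v) then (1 : ℝ) else 0) ≤ x i / y := by
        intro m hm
        refine le_trans (le_of_eq ?_) (hone i m hm)
        rw [← sum_filter, sum_const, nsmul_eq_mul, mul_one]
      rw [h6, h7] at h5
      have h9 := sum_le_sum h8
      rw [h5, sum_const, nsmul_eq_mul, hcard] at h9
      have hx0 : (0 : ℝ) < x i := by exact_mod_cast hx
      have h10 : (x i : ℝ) * ((Box.filter (G i)).card : ℝ) ≤ x i * ((∏ j, (x j : ℝ)) / y) := by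
        refine h9.trans (le_of_eq ?_)
        ring
      exact le_of_mul_le_mul_left h10 hx0
  have hsub : Box.filter E ⊆ univ.biUnion (fun i : Fin k => Box.filter (G i)) := by
    intro m hm
    rw [mem_filter] at hm
    obtain ⟨i, hi⟩ := hEm m hm.1 hm.2
    rw [mem_biUnion]
    exact ⟨i, mem_univ _, mem_filter.2 ⟨hm.1, hi⟩⟩
  have h11 : ((Box.filter E).card : ℝ) ≤ ∑ i : Fin k, ((Box.filter (G i)).card : ℝ) := by
    have := (card_le_card hsub).trans card_biUnion_le
    exact_mod_cast this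
  refine h11.trans ((sum_le_sum fun i _ => hcoord i).trans (le_of_eq ?_))
  rw [sum_const, card_univ, Fintype.card_fin, nsmul_eq_mul]

end Pool.Agent.P8H14.PL
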