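import Pool.Agent.P8H14.PL.N1

set_option autoImplicit false

/-!
# The formula of Hardy and Littlewood at a good scale
-/

open Finset

namespace Pool.Agent.P8H14.PL

open Pool.Agent.P8H13.PK
open Pool.Agent.P8H13.GK
open Pool.Agent.P8H14.SS (SG mo_HL)
open Pool.Agent.H373R2.T7 (exI energy avg_coord)

lemma Ql_le (l : ℝ) : (Ql l : ℝ) ≤ Real.exp (l / 2) := Nat.floor_le (Real.exp_pos _).le

lemma Ql_ge {l : ℝ} (hl : 4 ≤ l) : Real.exp (l / 2 - 1) ≤ Ql l := by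
  have h1 : Real.exp (l / 2) < Ql l + 1 := Nat.lt_floor_add_one _
  have h2 : Real.exp (l / 2) = Real.exp (l / 2 - 1) * Real.exp 1 := by rw [← Real.exp_add]; ring_nf
  have h3 := Real.add_one_le_exp (1 : ℝ)
  have h4 : 1 ≤ Real.exp (l / 2 - 1) := Real.one_le_exp (by linarith)
  have h5 : Real.exp (l / 2 - 1) * 2 ≤ Real.exp (l / 2 - 1) * Real.exp 1 :=
    mul_le_mul_of_nonneg_left (by linarith) (Real.exp_pos _).le
  linarith

lemma Ql_mono {l l' : ℝ} (h : l' ≤ l) : Ql l' ≤ Ql l := Nat.floor_le_floor (Real.exp_le_exp.2 (by linarith))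

/-- **the formula at a good scale** -/
theorem scale_HL (k B A : ℕ) (hB : 1 ≤ B) : ∃ (A0 : ℕ), ∀ A' : ℕ, A0 ≤ A' → ∃ L0 : ℝ, ∀ (N : ℕ) (l y c' : ℝ) (P : ℕ), L0 ≤ l →
    GS B P A' (k + 1) c' y l N → ∀ (h0 : ℕ) (h : Fin k → ℕ), h0 ≤ B * N → (∀ i, h i ≤ B * N) →
      Function.Injective (Fin.cons h0 h : Fin (k + 1) → ℕ) →
      (∀ i, ¬ Bd B A' N (l / ((k + 1 : ℕ) : ℝ)) h0 h i) → ∀ X : ℕ, X ≤ N →
        |∑ n ∈ Icc 1 X, ∏ i : Fin (k + 1), ArithmeticFunction.vonMangoldt (n + (Fin.cons h0 h : Fin (k + 1) → ℕ) i) -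
          SG (Fin.cons h0 h : Fin (k + 1) → ℕ) * X| ≤ N / Real.log N ^ A := by
  obtain ⟨C1, hC1, hmoHL⟩ := mo_HL (k + 1)
  obtain ⟨C2, hC2, hdet⟩ := det_mo k
  set K2 : ℕ := 4 * k + 2 ^ (2 * k) with hK2
  refine ⟨K2 + 2 * A + 1, fun A' hA' => ?_⟩
  obtain ⟨l1, hl1, hp1⟩ := pow_exp (k + 2 + A) (32 * (k + 1) * 2 ^ (k + 1) * (B + 1))
  obtain ⟨l2, hl2, hp2⟩ := pow_exp A 16
  obtain ⟨l3, hl3, hp3⟩ := pow_exp 1 2
  set κ : ℝ := ((k + 1 : ℕ) : ℝ) with hκ
  have hκ1 : 1 ≤ κ := by rw [hκ]; push_cast; linarith [(Nat.cast_nonneg k : (0 : ℝ) ≤ k)]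
  have hκ0 : 0 < κ := by linarith
  refine ⟨κ * (l1 + l2 + l3 + 1536 * C1 ^ 2 + 64 * C2 * (B + 2) ^ 2 + 8 * k + 1000), fun N l y c' P hl hG h0 h hh0 hh hinj hBd X hX => ?_⟩
  obtain ⟨hg1, hg2, hg3, hgf, hgr⟩ := hG
  set l' : ℝ := l / κ with hl'
  have hl'L : l1 + l2 + l3 + 1536 * C1 ^ 2 + 64 * C2 * (B + 2) ^ 2 + 8 * k + 1000 ≤ l' := by
    rw [hl', le_div_iff₀ hκ0]; linarith
  have q1 : 0 ≤ 1536 * C1 ^ 2 := by positivity
  have q2 : 0 ≤ 64 * C2 * ((B : ℝ) + 2) ^ 2 := by positivity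
  have q3 : (0 : ℝ) ≤ 8 * k := by positivity
  have hl'l : l' ≤ l := by
    rw [hl']; exact div_le_self (by
      have : 0 ≤ l' := by linarith
      rw [hl', le_div_iff₀ hκ0] at this
      linarith) hκ1
  have hkl : k * l' ≤ l := by
    have : κ * l' = l := by rw [hl']; field_simp
    rw [← this, hκ]
    push_cast
    have : 0 ≤ l' := by linarith
    linarith
  set Ln : ℝ := Real.log N with hLn
  have hLn1 : 1000 ≤ Ln := by linarith
  have hLp : 0 < Ln := by linarith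
  have hNn : 0 < N := by
    rcases Nat.eq_zero_or_pos N with h | h
    · subst h; rw [hLn] at hLp; simp at hLp
    · exact h
  have hN0 : (0 : ℝ) < N := by exact_mod_cast hNn
  have hNe : (N : ℝ) = Real.exp Ln := (Real.exp_log hN0).symm
  have hN3 : 3 ≤ N := by
    have h1 : (3 : ℝ) ≤ N := by
      rw [hNe]
      have := Real.add_one_le_exp Ln
      linarith
    exact_mod_cast h1
  have hA1 : A + 1 ≤ A' := by
    have e1 := Nat.zero_le K2
    linarith
  have hpA : 32 * (k + 1) * 2 ^ (k + 1) * (B + 1) * Ln ^ (k + 2 + A) ≤ Real.exp (l' / 100) := hp1 l' (by linarith) Ln hLp.le hg2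
  have hpB : 16 * Ln ^ A ≤ Real.exp (l' / 100) := hp2 l' (by linarith) Ln hLp.le hg2
  have hpC : 2 * Ln ^ 1 ≤ Real.exp (l' / 100) := hp3 l' (by linarith) Ln hLp.le hg2
  rw [pow_one] at hpC
  have hLA : 0 < Ln ^ A := by positivity
  set a : ℝ := N / (8 * Ln ^ A) with ha
  have ha0 : 0 < a := by positivity
  -- everything below `exp (4 l)` is small
  have hexp4 : Real.exp (4 * l) ≤ a := by
    rw [ha, le_div_iff₀ (by positivity), hNe]
    calc Real.exp (4 * l) * (8 * Ln ^ A) ≤ Real.exp (4 * l) * Real.exp (l' / 100) := by gcongr; linarith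
      _ = Real.exp (4 * l + l' / 100) := by rw [Real.exp_add]
      _ ≤ Real.exp Ln := Real.exp_le_exp.2 (by linarith)
  have hBN : B + 1 ≤ N := by
    have h1 : ((B + 1 : ℕ) : ℝ) ≤ N := by
      rw [hNe]
      have h2 : ((B + 1 : ℕ) : ℝ) ≤ Ln := by
        push_cast
        have e1 : ((B : ℝ) + 1) ≤ (B + 2) ^ 2 := by
          have : (0 : ℝ) ≤ B := Nat.cast_nonneg B
          have e2 : ((B : ℝ) + 2) ^ 2 = (B + 1) + (B ^ 2 + 3 * B + 3) := by ring
          rw [e2]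
          have : (0 : ℝ) ≤ (B : ℝ) ^ 2 + 3 * B + 3 := by positivity
          linarith
        have e3 : ((B : ℝ) + 2) ^ 2 ≤ 64 * C2 * (B + 2) ^ 2 := by
          apply le_mul_of_one_le_left (by positivity)
          linarith
        linarith
      have h3 := Real.add_one_le_exp Ln
      linarith
    exact_mod_cast h1
  set M : ℕ := (B + 1) * N with hM
  have hM1 : 1 ≤ M := by rw [hM]; exact Nat.mul_pos (by omega) hNn
  have hlM : Real.log M ≤ 2 * Ln := by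
    have h1 : (M : ℝ) ≤ N * N := by
      rw [hM]; push_cast
      have : ((B : ℝ) + 1) ≤ N := by exact_mod_cast hBN
      exact mul_le_mul_of_nonneg_right this hN0.le
    calc Real.log M ≤ Real.log (N * N) := Real.log_le_log (by exact_mod_cast hM1) h1
      _ = 2 * Ln := by rw [Real.log_mul hN0.ne' hN0.ne']; ring
  -- the levels
  set F : ℕ := Ql l with hF
  set Q' : ℕ := Ql l' with hQ'
  have hF1 : (F : ℝ) ≤ Real.exp (l / 2) := Ql_le l
  have hQ1 : (Q' : ℝ) ≤ Real.exp (l' / 2) := Ql_le l'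
  have hQge : Real.exp (l' / 2 - 1) ≤ Q' := Ql_ge (by linarith)
  have hQF : Q' ≤ F := Ql_mono hl'l
  have hQk : (Q' : ℝ) ^ k ≤ Real.exp (l / 2) := by
    calc (Q' : ℝ) ^ k ≤ Real.exp (l' / 2) ^ k := pow_le_pow_left₀ (Nat.cast_nonneg _) hQ1 k
      _ = Real.exp (k * (l' / 2)) := (Real.exp_nat_mul _ _).symm
      _ ≤ _ := Real.exp_le_exp.2 (by linarith)
  have hQkF : Q' ^ k ≤ F := by
    apply Nat.le_floor
    rw [Nat.cast_pow]
    exact hQk
  have hQ3 : 3 ≤ Q' := by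
    have h1 : (3 : ℝ) ≤ Q' := by
      refine le_trans ?_ hQge
      have := Real.add_one_le_exp (l' / 2 - 1)
      linarith
    exact_mod_cast h1
  have hthM : ∀ n ≤ M, |th n| ≤ Real.exp l := by
    intro n hn
    refine (th_le_log hn hM1).trans (hlM.trans (hpC.trans (Real.exp_le_exp.2 (by linarith))))
  have hmoQ : |∏ j, mo 1 Q' 0 (0 + h j)| ≤ Real.exp (l / 2) := by
    rw [abs_prod]
    calc ∏ j, |mo 1 Q' 0 (0 + h j)| ≤ ∏ _j : Fin k, (Q' : ℝ) := prod_le_prod (fun _ _ => abs_nonneg _) fun j _ => abs_mo_le 1 Q' 0 _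
      _ = (Q' : ℝ) ^ k := by rw [prod_const, card_univ, Fintype.card_fin]
      _ ≤ _ := hQk
  -- the singular series and the model
  have hQall : ∀ i, ((Q' : ℕ) : ℝ) ≤ ((Fin.cons F (fun _ : Fin k => Q') : Fin (k + 1) → ℕ) i : ℕ) := by
    intro i
    refine Fin.cases ?_ (fun j => ?_) i
    · rw [Fin.cons_zero]; exact_mod_cast hQF
    · rw [Fin.cons_succ]
  have hhall : ∀ i, (((Fin.cons h0 h : Fin (k + 1) → ℕ) i : ℕ) : ℝ) ≤ Real.exp (2 * Ln) := by
    have e1 : ∀ z : ℕ, z ≤ B * N → (z : ℝ) ≤ Real.exp (2 * Ln) := by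
      intro z hz
      have e2 : Real.exp (2 * Ln) = N * N := by rw [hNe, ← Real.exp_add]; ring_nf
      rw [e2]
      have e3 : z ≤ N * N := hz.trans (Nat.mul_le_mul_right N (by omega))
      exact_mod_cast e3
    intro i
    refine Fin.cases ?_ (fun j => ?_) i
    · rw [Fin.cons_zero]; exact e1 _ hh0
    · rw [Fin.cons_succ]; exact e1 _ (hh j)
  have hmo := hmoHL (Fin.cons h0 h) (Fin.cons F (fun _ => Q')) Q' (2 * Ln) hinj (by linarith)
    (by exact_mod_cast (by omega : 1 ≤ Q')) hQall hhall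
  set δ : ℝ := Real.exp (C1 * (2 * Ln) ^ (1/4 : ℝ)) * (Q' : ℝ) ^ (-(1/4) : ℝ) with hδ
  have hprodQ : 2 * ∏ i, (((Fin.cons F (fun _ : Fin k => Q') : Fin (k + 1) → ℕ) i : ℕ) : ℝ) ^ 2 ≤ 2 * Real.exp (2 * l) := by
    rw [Fin.prod_univ_succ]
    simp only [Fin.cons_zero, Fin.cons_succ]
    rw [prod_const, card_univ, Fintype.card_fin, ← pow_mul, mul_comm 2 k, pow_mul]
    have e1 : (F : ℝ) ^ 2 ≤ Real.exp l := by
      calc (F : ℝ) ^ 2 ≤ Real.exp (l / 2) ^ 2 := pow_le_pow_left₀ (Nat.cast_nonneg _) hF1 2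
        _ = _ := by rw [← Real.exp_nat_mul]; push_cast; ring_nf
    have e2 : ((Q' : ℝ) ^ k) ^ 2 ≤ Real.exp l := by
      calc ((Q' : ℝ) ^ k) ^ 2 ≤ Real.exp (l / 2) ^ 2 := pow_le_pow_left₀ (by positivity) hQk 2
        _ = _ := by rw [← Real.exp_nat_mul]; push_cast; ring_nf
    have e3 : (F : ℝ) ^ 2 * ((Q' : ℝ) ^ k) ^ 2 ≤ Real.exp l * Real.exp l := mul_le_mul e1 e2 (by positivity) (Real.exp_pos _).le
    rw [← Real.exp_add] at e3
    rw [show 2 * l = l + l by ring]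
    linarith
  have hδle : δ ≤ Real.exp (-(l' / 16) + 1 / 4) := by
    have e1 : (2 * Ln) ^ (1/4 : ℝ) ≤ √(6 * l') := by
      have e2 : 2 * Ln ≤ (6 * l') ^ 2 := by
        have : (6 * l') ^ 2 = 2 * (18 * l' ^ 2) := by ring
        rw [this]; linarith
      calc (2 * Ln) ^ (1/4 : ℝ) ≤ ((6 * l') ^ 2) ^ (1/4 : ℝ) := Real.rpow_le_rpow (by linarith) e2 (by norm_num)
        _ = √(6 * l') := by
            rw [Real.sqrt_eq_rpow, ← Real.rpow_natCast, ← Real.rpow_mul (by linarith)]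
            norm_num
    have e2 : C1 * √(6 * l') ≤ l' / 16 := by
      have e3 : C1 * √(6 * l') = √(C1 ^ 2 * (6 * l')) := by
        rw [Real.sqrt_mul (sq_nonneg C1) (6 * l'), Real.sqrt_sq hC1.le]
      rw [e3, Real.sqrt_le_left (by linarith)]
      have e4 : (l' / 16) ^ 2 = l' * l' / 256 := by ring
      rw [e4, le_div_iff₀ (by norm_num)]
      have e5 : 1536 * C1 ^ 2 * l' ≤ l' * l' := mul_le_mul_of_nonneg_right (by linarith) (by linarith)
      calc C1 ^ 2 * (6 * l') * 256 = 1536 * C1 ^ 2 * l' := by ring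
        _ ≤ _ := e5
    have e3 : (Q' : ℝ) ^ (-(1/4) : ℝ) ≤ Real.exp (-(l' / 8) + 1 / 4) := by
      calc (Q' : ℝ) ^ (-(1/4) : ℝ) ≤ (Real.exp (l' / 2 - 1)) ^ (-(1/4) : ℝ) :=
            Real.rpow_le_rpow_of_nonpos (Real.exp_pos _) hQge (by norm_num)
        _ = Real.exp (-(l' / 8) + 1 / 4) := by
            rw [← Real.exp_mul]
            congr 1
            ring
    calc δ ≤ Real.exp (l' / 16) * Real.exp (-(l' / 8) + 1 / 4) := by
          rw [hδ]
          apply mul_le_mul _ e3 (by positivity) (Real.exp_pos _).le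
          apply Real.exp_le_exp.2
          exact (mul_le_mul_of_nonneg_left e1 hC1.le).trans e2
      _ = _ := by rw [← Real.exp_add]; congr 1; ring
  have hδ0 : 0 ≤ δ := by rw [hδ]; positivity
  -- the size of the singular series
  have hexp2 : 4 * Real.exp (2 * l) ≤ Real.exp (4 * l) := by
    have e1 : Real.exp (4 * l) = Real.exp (2 * l) * Real.exp (2 * l) := by rw [← Real.exp_add]; ring_nf
    have e2 := Real.add_one_le_exp (2 * l)
    rw [e1]
    exact mul_le_mul_of_nonneg_right (by linarith) (Real.exp_pos _).le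
  have hSG : |SG (Fin.cons h0 h : Fin (k + 1) → ℕ)| ≤ a := by
    have e1 := hmo 1
    rw [sum_range_one, Nat.cast_one, mul_one, one_mul] at e1
    have e2 : |∏ i, mo 1 ((Fin.cons F (fun _ : Fin k => Q') : Fin (k + 1) → ℕ) i) 0 (0 + (Fin.cons h0 h : Fin (k + 1) → ℕ) i)| ≤ Real.exp l := by
      rw [Fin.prod_univ_succ]
      simp only [Fin.cons_zero, Fin.cons_succ]
      rw [abs_mul]
      calc _ ≤ Real.exp (l / 2) * Real.exp (l / 2) :=
            mul_le_mul ((abs_mo_le 1 F 0 _).trans hF1) hmoQ (abs_nonneg _) (Real.exp_pos _).le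
        _ = Real.exp l := by rw [← Real.exp_add]; ring_nf
    have e3 : δ ≤ Real.exp (2 * l) := hδle.trans (Real.exp_le_exp.2 (by linarith))
    have e4 : Real.exp l ≤ Real.exp (2 * l) := Real.exp_le_exp.2 (by linarith)
    have e5 := abs_sub_abs_le_abs_sub (SG (Fin.cons h0 h : Fin (k + 1) → ℕ))
      (∏ i, mo 1 ((Fin.cons F (fun _ : Fin k => Q') : Fin (k + 1) → ℕ) i) 0 (0 + (Fin.cons h0 h : Fin (k + 1) → ℕ) i))
    rw [abs_sub_comm] at e5
    refine le_trans ?_ hexp4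
    linarith
  -- the model up to `X`
  have hmod : |∑ n ∈ range (X + 1), mo 1 F 0 (n + h0) * ∏ j, mo 1 Q' 0 (n + h j) -
      SG (Fin.cons h0 h : Fin (k + 1) → ℕ) * X| ≤ 3 * a := by
    have e1 := hmo (X + 1)
    have e2 : ∀ t ∈ range (X + 1), ∏ i, mo 1 ((Fin.cons F (fun _ : Fin k => Q') : Fin (k + 1) → ℕ) i) 0 (t + (Fin.cons h0 h : Fin (k + 1) → ℕ) i) =
        mo 1 F 0 (t + h0) * ∏ j, mo 1 Q' 0 (t + h j) := by
      intro t _
      rw [Fin.prod_univ_succ]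
      simp only [Fin.cons_zero, Fin.cons_succ]
    rw [sum_congr rfl e2] at e1
    have e3 : ((X + 1 : ℕ) : ℝ) * δ ≤ a := by
      have f1 : ((X + 1 : ℕ) : ℝ) ≤ 2 * N := by
        have : X + 1 ≤ 2 * N := by omega
        exact_mod_cast this
      have f2 : 16 * Ln ^ A * Real.exp (-(l' / 16) + 1 / 4) ≤ 1 := by
        calc 16 * Ln ^ A * Real.exp (-(l' / 16) + 1 / 4) ≤ Real.exp (l' / 100) * Real.exp (-(l' / 16) + 1 / 4) := by gcongr
          _ = Real.exp (l' / 100 + (-(l' / 16) + 1 / 4)) := by rw [← Real.exp_add]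
          _ ≤ 1 := Real.exp_le_one_iff.2 (by linarith)
      rw [ha, le_div_iff₀ (by positivity)]
      calc ((X + 1 : ℕ) : ℝ) * δ * (8 * Ln ^ A) ≤ (2 * N) * Real.exp (-(l' / 16) + 1 / 4) * (8 * Ln ^ A) := by gcongr
        _ = N * (16 * Ln ^ A * Real.exp (-(l' / 16) + 1 / 4)) := by ring
        _ ≤ N * 1 := by gcongr
        _ = N := mul_one _
    have e4 : |SG (Fin.cons h0 h : Fin (k + 1) → ℕ) * ((X + 1 : ℕ) : ℝ) - SG (Fin.cons h0 h : Fin (k + 1) → ℕ) * X| ≤ a := by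
      rw [← mul_sub]
      push_cast
      rw [add_sub_cancel_left, mul_one]
      exact hSG
    have e5 : 2 * Real.exp (2 * l) ≤ a := by
      refine le_trans ?_ hexp4
      have : 0 < Real.exp (2 * l) := Real.exp_pos _
      linarith
    have e6 := abs_sub_le (∑ n ∈ range (X + 1), mo 1 F 0 (n + h0) * ∏ j, mo 1 Q' 0 (n + h j))
      (SG (Fin.cons h0 h : Fin (k + 1) → ℕ) * ((X + 1 : ℕ) : ℝ)) (SG (Fin.cons h0 h : Fin (k + 1) → ℕ) * X)
    linarith
  -- one prime and the models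
  have hdt : |∑ n ∈ range (X + 1), df l (n + h0) * ∏ j, mo 1 Q' 0 (n + h j)| ≤ a := by
    have e1 := hdet l ((((B + 2) * N : ℕ) : ℝ) ^ 2 / Ln ^ A') Q' ((B + 2) * N) hQ3 hQkF hgr h h0 (X + 1) (by
      have : (B + 2) * N = B * N + 2 * N := by ring
      omega)
    have e2 : C2 * Real.log Q' ^ K2 * ((((B + 2) * N : ℕ) : ℝ) ^ 2 / Ln ^ A') ≤ a ^ 2 := by
      have f1 : Real.log Q' ≤ Ln := by
        have : Real.log Q' ≤ l' / 2 := by
          rw [Real.log_le_iff_le_exp (by exact_mod_cast (by omega : 0 < Q'))]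
          exact hQ1
        linarith
      have f2 : 0 ≤ Real.log Q' := Real.log_natCast_nonneg _
      have f3 : 64 * C2 * ((B : ℝ) + 2) ^ 2 * Ln ^ (K2 + 2 * A) ≤ Ln ^ A' := by
        calc 64 * C2 * ((B : ℝ) + 2) ^ 2 * Ln ^ (K2 + 2 * A) ≤ Ln * Ln ^ (K2 + 2 * A) := by
              gcongr
              linarith
          _ = Ln ^ (K2 + 2 * A + 1) := by ring
          _ ≤ Ln ^ A' := pow_le_pow_right₀ (by linarith) hA'
      have f4 : a ^ 2 = (N : ℝ) ^ 2 / (64 * Ln ^ (2 * A)) := by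
        rw [ha, div_pow, mul_pow, ← pow_mul, mul_comm A 2]; norm_num
      rw [f4, ← mul_div_assoc, div_le_div_iff₀ (by positivity) (by positivity)]
      calc C2 * Real.log Q' ^ K2 * (((B + 2) * N : ℕ) : ℝ) ^ 2 * (64 * Ln ^ (2 * A)) ≤
            C2 * Ln ^ K2 * (((B + 2) * N : ℕ) : ℝ) ^ 2 * (64 * Ln ^ (2 * A)) := by gcongr
        _ = (N : ℝ) ^ 2 * (64 * C2 * ((B : ℝ) + 2) ^ 2 * Ln ^ (K2 + 2 * A)) := by push_cast; rw [pow_add Ln K2]; ring
        _ ≤ (N : ℝ) ^ 2 * Ln ^ A' := by gcongr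
    exact abs_le_of_sq_le_sq' (by rw [sq_abs] at e1; exact e1.trans e2) ha0.le |> abs_le.2
  -- the telescoping sum
  have htel : |∑ n ∈ Icc 1 X, th (n + h0) * ∏ j, th (n + h j) - ∑ n ∈ Icc 1 X, th (n + h0) * ∏ j, mo 1 Q' 0 (n + h j)| ≤ a := by
    rw [← sum_sub_distrib, sum_congr rfl fun n _ => tele l' h0 h n, sum_comm]
    refine (abs_sum_le_sum_abs _ _).trans ((sum_le_sum fun i _ => not_Bd hB (hBd i) hX).trans ?_)
    rw [sum_const, card_univ, Fintype.card_fin, nsmul_eq_mul, ha, ← hLn, ← mul_div_assoc,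
      div_le_div_iff₀ (by positivity) (by positivity)]
    have f1 : 8 * (k : ℝ) * Ln ^ A ≤ Ln ^ A' := by
      calc 8 * (k : ℝ) * Ln ^ A ≤ Ln * Ln ^ A := by
            gcongr
            linarith
        _ = Ln ^ (A + 1) := by ring
        _ ≤ Ln ^ A' := pow_le_pow_right₀ (by linarith) hA1
    calc (k : ℝ) * N * (8 * Ln ^ A) = N * (8 * (k : ℝ) * Ln ^ A) := by ring
      _ ≤ N * Ln ^ A' := by gcongr
  -- from the von Mangoldt function
  have hvm : |∑ n ∈ Icc 1 X, ∏ i : Fin (k + 1), ArithmeticFunction.vonMangoldt (n + (Fin.cons h0 h : Fin (k + 1) → ℕ) i) -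
      ∑ n ∈ Icc 1 X, th (n + h0) * ∏ j, th (n + h j)| ≤ a := by
    have e1 := La_th (k + 1) B (N := N) hN3 hBN (Fin.cons h0 h) (fun i => by
      refine Fin.cases ?_ (fun j => ?_) i
      · rw [Fin.cons_zero]; exact hh0
      · rw [Fin.cons_succ]; exact hh j) hX
    have e2 : ∀ n ∈ Icc 1 X, ∏ i : Fin (k + 1), th (n + (Fin.cons h0 h : Fin (k + 1) → ℕ) i) =
        th (n + h0) * ∏ j, th (n + h j) := by
      intro n _
      rw [Fin.prod_univ_succ]
      simp only [Fin.cons_zero, Fin.cons_succ]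
    rw [sum_congr rfl e2] at e1
    refine e1.trans ?_
    rw [← hLn]
    have f1 : √(((B : ℝ) + 1) * N) ≤ (B + 1) * Real.exp (Ln / 2) := by
      rw [Real.sqrt_le_left (by positivity), mul_pow, ← Real.exp_nat_mul]
      have f2 : ((2 : ℕ) : ℝ) * (Ln / 2) = Ln := by push_cast; ring
      rw [f2, ← hNe]
      have f3 : ((B : ℝ) + 1) ≤ (B + 1) ^ 2 := le_self_pow₀ (by linarith [(Nat.cast_nonneg B : (0 : ℝ) ≤ B)]) (by norm_num)
      exact mul_le_mul_of_nonneg_right f3 hN0.le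
    rw [ha, le_div_iff₀ (by positivity)]
    calc ((k + 1 : ℕ) : ℝ) * ((2 * Ln) ^ (k + 1) * (4 * √(((B : ℝ) + 1) * N) * Ln)) * (8 * Ln ^ A)
        ≤ ((k + 1 : ℕ) : ℝ) * ((2 * Ln) ^ (k + 1) * (4 * ((B + 1) * Real.exp (Ln / 2)) * Ln)) * (8 * Ln ^ A) := by gcongr
      _ = (32 * (k + 1) * 2 ^ (k + 1) * (B + 1) * Ln ^ (k + 2 + A)) * Real.exp (Ln / 2) := by
          rw [mul_pow, show Ln ^ (k + 2 + A) = Ln ^ (k + 1) * Ln * Ln ^ A by ring]
          push_cast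
          ring
      _ ≤ Real.exp (l' / 100) * Real.exp (Ln / 2) := by gcongr
      _ = Real.exp (l' / 100 + Ln / 2) := by rw [Real.exp_add]
      _ ≤ N := by rw [hNe]; exact Real.exp_le_exp.2 (by linarith)
  -- the term `n = 0`
  have hzero : |th (0 + h0) * ∏ j, mo 1 Q' 0 (0 + h j)| ≤ a := by
    refine le_trans ?_ hexp4
    rw [abs_mul]
    calc _ ≤ Real.exp l * Real.exp (l / 2) := mul_le_mul (hthM _ (by
          rw [zero_add, hM]
          exact hh0.trans (Nat.mul_le_mul_right N (by omega)))) hmoQ (abs_nonneg _) (Real.exp_pos _).le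
      _ = Real.exp (l + l / 2) := by rw [Real.exp_add]
      _ ≤ _ := Real.exp_le_exp.2 (by linarith)
  have hsplit : ∑ n ∈ Icc 1 X, th (n + h0) * ∏ j, mo 1 Q' 0 (n + h j) =
      ∑ n ∈ range (X + 1), df l (n + h0) * ∏ j, mo 1 Q' 0 (n + h j) +
      ∑ n ∈ range (X + 1), mo 1 F 0 (n + h0) * ∏ j, mo 1 Q' 0 (n + h j) -
      th (0 + h0) * ∏ j, mo 1 Q' 0 (0 + h j) := by
    have e1 : range (X + 1) = insert 0 (Icc 1 X) := by
      ext n; simp only [mem_range, mem_insert, mem_Icc]; omega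
    have e2 : ∑ n ∈ range (X + 1), th (n + h0) * ∏ j, mo 1 Q' 0 (n + h j) =
        ∑ n ∈ range (X + 1), df l (n + h0) * ∏ j, mo 1 Q' 0 (n + h j) +
        ∑ n ∈ range (X + 1), mo 1 F 0 (n + h0) * ∏ j, mo 1 Q' 0 (n + h j) := by
      rw [← sum_add_distrib]
      apply sum_congr rfl
      intro n _
      rw [df_eq]
      ring
    rw [← e2, e1, sum_insert (by simp)]
    ring
  rw [hsplit] at htel
  have hN8 : (N : ℝ) / Ln ^ A = 8 * a := by rw [ha]; field_simp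
  rw [hN8]
  rw [abs_le] at hmod hdt htel hvm hzero ⊢
  constructor
  · linarith [hmod.1, hdt.1, htel.1, hvm.1, hzero.1, hmod.2, hdt.2, htel.2, hvm.2, hzero.2]
  · linarith [hmod.1, hdt.1, htel.1, hvm.1, hzero.1, hmod.2, hdt.2, htel.2, hvm.2, hzero.2]

end Pool.Agent.P8H14.PL
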