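import Pool.Agent.P8H14.PL.N3

set_option autoImplicit false

/-!
# The formula of Hardy and Littlewood at most scales
-/

open Finset Polynomial

namespace Pool.Agent.P8H14.PL

open Pool.Agent.P8H13.PK
open Pool.Agent.P8H13.GK
open Pool.Agent.P8H14.SS (SG mo_HL)
open Pool.Agent.H373R2.T7 (exI energy avg_coord)
open Pool.Agent.TH823.PS (energy_mono energy_one Most most_mono)
open Pool.Agent.P8H14.QP (sav sav_pos sav_mono sav_large log_ev)
open Pool.Agent.P8H14.QP.Len (sav_mul sav_one_le sav_log)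

lemma num_mono {α : Type} {S : Finset α} {E E' : α → Prop} (h : ∀ a ∈ S, E a → E' a) : num S E ≤ num S E' := by
  classical
  unfold num
  apply Nat.cast_le.2
  apply card_le_card
  intro a ha
  rw [mem_filter] at ha ⊢
  exact ⟨ha.1, h a ha.1 ha.2⟩

lemma num_or {α : Type} (S : Finset α) (E E' : α → Prop) : num S (fun a => E a ∨ E' a) ≤ num S E + num S E' := by
  classical
  unfold num
  have h : (S.filter (fun a => E a ∨ E' a)) ⊆ S.filter E ∪ S.filter E' := by
    intro a ha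
    rw [mem_filter] at ha
    rw [mem_union, mem_filter, mem_filter]
    rcases ha.2 with h | h
    · exact Or.inl ⟨ha.1, h⟩
    · exact Or.inr ⟨ha.1, h⟩
  have h2 := (card_le_card h).trans (card_union_le _ _)
  have h3 : (((S.filter (fun a => E a ∨ E' a)).card : ℕ) : ℝ) ≤ (S.filter E).card + (S.filter E').card := by
    exact_mod_cast h2
  convert h3

/-- the tuples with two equal entries -/
lemma coincide (k M : ℕ) : num (Fintype.piFinset fun _ : Fin (k + 1) => Icc 1 M) (fun h => ¬ Function.Injective h) ≤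
    (k + 1) ^ 2 * (M : ℝ) ^ k := by
  classical
  have h1 : ∀ i j : Fin (k + 1), i ≠ j →
      (((Fintype.piFinset fun _ : Fin (k + 1) => Icc 1 M).filter (fun h => h i = h j)).card : ℝ) ≤ (M : ℝ) ^ k := by
    intro i j hij
    have h2 : ((Fintype.piFinset fun _ : Fin (k + 1) => Icc 1 M).filter (fun h => h i = h j)).card ≤
        (Fintype.piFinset fun _ : Fin k => Icc 1 M).card := by
      apply card_le_card_of_injOn (fun h t => h (j.succAbove t))
      · intro h hh
        rw [mem_coe, mem_filter, Fintype.mem_piFinset] at hh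
        rw [mem_coe, Fintype.mem_piFinset]
        exact fun t => hh.1 _
      · intro h hh h' hh' he
        rw [mem_coe, mem_filter] at hh hh'
        have he' : ∀ t, h (j.succAbove t) = h' (j.succAbove t) := fun t => congrFun he t
        funext t
        by_cases ht : t = j
        · subst ht
          obtain ⟨u, hu⟩ := Fin.exists_succAbove_eq hij
          rw [← hh.2, ← hh'.2, ← hu, he' u]
        · obtain ⟨u, hu⟩ := Fin.exists_succAbove_eq ht
          rw [← hu, he' u]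
    have h3 : (Fintype.piFinset fun _ : Fin k => Icc 1 M).card = M ^ k := by
      rw [Fintype.card_piFinset]; simp
    rw [h3] at h2
    exact_mod_cast h2
  unfold num
  have h2 : (Fintype.piFinset fun _ : Fin (k + 1) => Icc 1 M).filter (fun h => ¬ Function.Injective h) ⊆
      ((univ : Finset (Fin (k + 1) × Fin (k + 1))).filter (fun q => q.1 ≠ q.2)).biUnion
        (fun q => (Fintype.piFinset fun _ : Fin (k + 1) => Icc 1 M).filter (fun h => h q.1 = h q.2)) := by
    intro h hh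
    rw [mem_filter] at hh
    have h3 := hh.2
    unfold Function.Injective at h3
    push Not at h3
    obtain ⟨i, j, hij, hne⟩ := h3
    rw [mem_biUnion]
    exact ⟨(i, j), mem_filter.2 ⟨mem_univ _, hne⟩, mem_filter.2 ⟨hh.1, hij⟩⟩
  have h3 : (((Fintype.piFinset fun _ : Fin (k + 1) => Icc 1 M).filter (fun h => ¬ Function.Injective h)).card : ℝ) ≤
      ∑ q ∈ (univ : Finset (Fin (k + 1) × Fin (k + 1))).filter (fun q => q.1 ≠ q.2),
        (((Fintype.piFinset fun _ : Fin (k + 1) => Icc 1 M).filter (fun h => h q.1 = h q.2)).card : ℝ) := by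
    have := (card_le_card h2).trans card_biUnion_le
    exact_mod_cast this
  have h5 := h3.trans (sum_le_sum fun q hq => h1 q.1 q.2 (mem_filter.1 hq).2)
  rw [sum_const, nsmul_eq_mul] at h5
  have h6 : (((((univ : Finset (Fin (k + 1) × Fin (k + 1))).filter (fun q => q.1 ≠ q.2)).card : ℕ) : ℝ) * (M : ℝ) ^ k) ≤
      (k + 1) ^ 2 * (M : ℝ) ^ k := ?_
  · have h7 := h5.trans h6
    refine le_trans (le_of_eq ?_) h7
    congr
  apply mul_le_mul_of_nonneg_right _ (by positivity)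
  have h4 : ((univ : Finset (Fin (k + 1) × Fin (k + 1))).filter (fun q => q.1 ≠ q.2)).card ≤ (k + 1) ^ 2 := by
    refine (card_filter_le _ _).trans ?_
    rw [card_univ, Fintype.card_prod, Fintype.card_fin]
    exact le_of_eq (by ring)
  exact_mod_cast h4

/-- the statement on tuples from families, at one scale -/
def TP (k A B P : ℕ) (𝓕 : Finset ℤ[X]) (y : ℝ) (N : ℕ) : Prop :=
  ∀ h0 : ℕ, h0 ≤ B * N → ∀ (x : Fin k → ℕ) (s : Fin k → ℕ → ℤ), (∀ i, Fam B P 𝓕 y N (x i) (s i)) →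
    num (Fintype.piFinset fun i => Icc 1 (x i)) (fun m => (∀ i, 0 ≤ s i (m i)) ∧ Function.Injective (sh h0 s m) ∧
      ¬ HLn A N (sh h0 s m)) ≤ (∏ i, (x i : ℝ)) / y

/-- from families to boxes -/
lemma box_of {k A B P : ℕ} {𝓕 : Finset ℤ[X]} {y : ℝ} {N : ℕ} (hP : 1 ≤ P) (h : TP k A B P 𝓕 y N)
    {M : ℕ} (hM : M ≤ B * N) (hNM : (N : ℝ) ≤ y * M) :
    num (Fintype.piFinset fun _ : Fin (k + 1) => Icc 1 M) (fun h => ¬ (Function.Injective h ∧ HLn A N h)) ≤
      (k + 1) ^ 2 * (M : ℝ) ^ k + (M : ℝ) ^ (k + 1) / y := by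
  classical
  have h1 : num (Fintype.piFinset fun _ : Fin (k + 1) => Icc 1 M) (fun h => ¬ (Function.Injective h ∧ HLn A N h)) ≤
      num (Fintype.piFinset fun _ : Fin (k + 1) => Icc 1 M) (fun h => ¬ Function.Injective h ∨
        (Function.Injective h ∧ ¬ HLn A N h)) := by
    apply num_mono
    intro h _ hh
    by_cases hi : Function.Injective h
    · right; exact ⟨hi, fun hc => hh ⟨hi, hc⟩⟩
    · left; exact hi
  refine h1.trans ((num_or _ _ _).trans (add_le_add (coincide k M) ?_))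
  have hfam : Fam B P 𝓕 y N M (fun m => (m : ℤ)) := by
    refine ⟨fun m hm => ?_, Or.inl ⟨1, le_rfl, hP, ?_⟩⟩
    · rw [mem_Icc] at hm
      rw [Nat.abs_cast]
      exact_mod_cast hm.2.trans hM
    · have e1 : (energy 1 M (fun m : ℕ => (m : ℤ)) : ℝ) ≤ M := by
        exact_mod_cast energy_one (x := M) (s := fun m : ℕ => (m : ℤ)) (fun m n hmn => by
          simpa using hmn)
      calc (energy 1 M (fun m : ℕ => (m : ℤ)) : ℝ) * N ≤ M * (y * M) := by
            apply mul_le_mul e1 hNM (Nat.cast_nonneg _) (Nat.cast_nonneg _)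
        _ = _ := by ring
  -- split off the first entry
  have h2 : num (Fintype.piFinset fun _ : Fin (k + 1) => Icc 1 M) (fun h => Function.Injective h ∧ ¬ HLn A N h) ≤
      ∑ h0 ∈ Icc 1 M, num (Fintype.piFinset fun _ : Fin k => Icc 1 M) (fun m =>
        Function.Injective (Fin.cons h0 m : Fin (k + 1) → ℕ) ∧ ¬ HLn A N (Fin.cons h0 m : Fin (k + 1) → ℕ)) := by
    unfold num
    rw [← Nat.cast_sum]
    apply Nat.cast_le.2
    rw [← card_sigma]
    apply card_le_card_of_injOn (fun h : Fin (k + 1) → ℕ => (⟨h 0, Fin.tail h⟩ : Σ _ : ℕ, (Fin k → ℕ)))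
    · intro h hh
      simp only [mem_coe, mem_filter, Fintype.mem_piFinset] at hh
      simp only [mem_coe, mem_sigma, mem_filter, Fintype.mem_piFinset]
      rw [Fin.cons_self_tail]
      exact ⟨hh.1 0, ⟨fun i => hh.1 i.succ, hh.2⟩⟩
    · intro h _ h' _ he
      simp only [Sigma.mk.injEq, heq_eq_eq] at he
      rw [← Fin.cons_self_tail h, ← Fin.cons_self_tail h', he.1, he.2]
  refine h2.trans ?_
  have h3 : ∀ h0 ∈ Icc 1 M, num (Fintype.piFinset fun _ : Fin k => Icc 1 M) (fun m =>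
        Function.Injective (Fin.cons h0 m : Fin (k + 1) → ℕ) ∧ ¬ HLn A N (Fin.cons h0 m : Fin (k + 1) → ℕ)) ≤
      (M : ℝ) ^ k / y := by
    intro h0 hh0
    rw [mem_Icc] at hh0
    have e1 := h h0 (hh0.2.trans hM) (fun _ => M) (fun _ m => (m : ℤ)) (fun _ => hfam)
    rw [prod_const, card_univ, Fintype.card_fin] at e1
    refine le_trans (num_mono ?_) e1
    intro m _ hm
    have e2 : sh h0 (fun (_ : Fin k) (m : ℕ) => (m : ℤ)) m = (Fin.cons h0 m : Fin (k + 1) → ℕ) := by
      unfold sh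
      congr 1
    rw [e2]
    exact ⟨fun i => by positivity, hm.1, hm.2⟩
  refine (sum_le_sum h3).trans (le_of_eq ?_)
  rw [sum_const, Nat.card_Icc, Nat.add_sub_cancel, nsmul_eq_mul, pow_succ]
  ring

/-- the statement with arbitrary weights, at one scale -/
def WP (A B P : ℕ) (𝓕 : Finset ℤ[X]) (Q : ℕ) (y : ℝ) (N : ℕ) : Prop :=
  ∀ (x : ℕ) (s : ℕ → ℤ), Fam B P 𝓕 y N x s → ∀ L : ℕ, (L : ℝ) ≤ y → ∀ (a : Fin L → ℕ) (w : Fin L → ℕ → ℂ),
    (∀ i, 1 ≤ a i) → (∀ i, ∑ n ∈ Icc 1 (B * N / a i), ‖w i n‖ ^ 2 ≤ N * Real.log N ^ A) →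
    num (Icc 1 x) (fun m => ∃ i, ¬ ∀ X : ℕ, a i * X ≤ B * N →
      ‖∑ n ∈ Icc 1 X, w i n * ((dz Q (a i * n + s m) : ℝ) : ℂ)‖ ≤ N / Real.log N ^ A) ≤ x / y

/-- the sizes -/
lemma sav_sq {c : ℝ} (hc : 0 < c) (K : ℝ) : ∃ N₀ : ℕ, 16 ≤ N₀ ∧ ∀ N : ℕ, N₀ ≤ N → K * sav c N ≤ N / sav c N := by
  obtain ⟨N1, h1⟩ := log_ev (Real.exp (4 * c))
  obtain ⟨N2, h2⟩ := log_ev (2 * Real.log (|K| + 1))
  refine ⟨N1 + N2 + 16, by omega, fun N hN => ?_⟩
  have hL1 := h1 N (by omega)
  have hL2 := h2 N (by omega)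
  have hN0 : (0 : ℝ) < N := by exact_mod_cast (by omega : 0 < N)
  have hLp : 0 < Real.log N := (Real.exp_pos _).trans_le hL1
  have hLL : 4 * c ≤ Real.log (Real.log N) := by rwa [Real.le_log_iff_exp_le hLp]
  rw [le_div_iff₀ (sav_pos _ _), mul_assoc, sav_mul]
  have e1 : sav (c + c) N ≤ Real.exp (Real.log N / 2) := by
    unfold sav
    apply Real.exp_le_exp.2
    rw [div_le_iff₀ (by linarith)]
    have : Real.log N / 2 * (4 * c) ≤ Real.log N / 2 * Real.log (Real.log N) := mul_le_mul_of_nonneg_left hLL (by linarith)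
    linarith
  have e2 : K ≤ Real.exp (Real.log N / 2) := by
    have e3 : Real.log (|K| + 1) ≤ Real.log N / 2 := by linarith
    rw [Real.log_le_iff_le_exp (by positivity)] at e3
    have := le_abs_self K
    linarith
  calc K * sav (c + c) N ≤ Real.exp (Real.log N / 2) * Real.exp (Real.log N / 2) :=
        mul_le_mul e2 e1 (sav_pos _ _).le (Real.exp_pos _).le
    _ = N := by rw [← Real.exp_add, add_halves, Real.exp_log hN0]

/-- **the formula at most scales** -/
theorem main_QP (k A B P : ℕ) (hB : 1 ≤ B) (hP : 1 ≤ P) (𝓕 : Finset ℤ[X]) {ε : ℝ} (hε : 0 < ε) : ∃ c : ℝ, 0 < c ∧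
    Most ε (fun N => (∃ Q : ℕ, sav c N ≤ Q ∧ (Q : ℝ) ^ 100 ≤ N ∧ WP A B P 𝓕 Q (sav c N) N) ∧
      TP k A B P 𝓕 (sav c N) N ∧
      ∀ M : ℕ, M ≤ B * N → (N : ℝ) ≤ sav c N * M →
        num (Fintype.piFinset fun _ : Fin (k + 1) => Icc 1 M) (fun h => ¬ (Function.Injective h ∧ HLn A N h)) ≤
          (M : ℝ) ^ (k + 1) / sav c N) := by
  classical
  obtain ⟨P', C1, hC1, hPP, hord⟩ := fam_order P 𝓕
  obtain ⟨A1, hcount⟩ := count_bad k B hB
  obtain ⟨A2, hscale⟩ := scale_HL k B A hB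
  set A' : ℕ := A1 + A2 + A + 1 with hA'
  obtain ⟨M1, hcnt⟩ := hcount A' (by omega)
  obtain ⟨L1, hsc⟩ := hscale A' (by omega)
  obtain ⟨c', c0, hc', hc0, hmost⟩ := most_GS B P' A' (k + 1) hB (by omega) (ε := ε / 2) (by positivity)
  set κ : ℝ := ((k + 1 : ℕ) : ℝ) with hκ
  have hκ1 : 1 ≤ κ := by rw [hκ]; push_cast; linarith [(Nat.cast_nonneg k : (0 : ℝ) ≤ k)]
  have hκ0 : 0 < κ := by linarith
  obtain ⟨l2, hl2, hpq⟩ := pow_exp (2 * A + A + 3) (1024 * B)
  set c2 : ℝ := min (c0 / 2) (c' / (4 * κ)) with hc2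
  have hc20 : 0 < c2 := lt_min (by positivity) (by positivity)
  have hc2a : c2 ≤ c0 / 2 := min_le_left _ _
  have hc2b : c2 ≤ c' / (4 * κ) := min_le_right _ _
  obtain ⟨N1, hN1, hN1'⟩ := sav_large (c := c0 / 2) (by positivity) (C1 + 2 * (k + 1))
  obtain ⟨N2, hN2⟩ := log_ev (max M1 3)
  obtain ⟨N3, hN3, hN3'⟩ := sav_sq (c := c2) hc20 (2 * (k + 1) ^ 2)
  obtain ⟨N4, hN4, hN4'⟩ := sav_large (c := c2 / 2) (by positivity) 2
  refine ⟨c2 / 2, by positivity, ?_⟩
  refine most_mono (N₁ := 1) hε (hmost (max L1 (κ * (l2 + 20))) (N1 + N2 + N3 + N4 + 16)) fun N _ hG => ?_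
  obtain ⟨hNN, l, hl, hGS⟩ := hG
  have hN16 : 16 ≤ N := by omega
  have hN0 : (0 : ℝ) < N := by exact_mod_cast (by omega : 0 < N)
  have hlL1 : L1 ≤ l := (le_max_left _ _).trans hl
  have hlκ : κ * (l2 + 20) ≤ l := (le_max_right _ _).trans hl
  set l' : ℝ := l / κ with hl'
  have hl'2 : l2 + 20 ≤ l' := by rw [hl', le_div_iff₀ hκ0]; linarith
  have hl'l : l' ≤ l := by
    rw [hl']
    refine div_le_self ?_ hκ1
    have : 0 ≤ κ * (l2 + 20) := by positivity
    linarith
  have hg1 := hGS.g1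
  have hg2 := hGS.g2
  have hg3 := hGS.g3
  set Ln : ℝ := Real.log N with hLn
  have hLM : max M1 3 ≤ Ln := hN2 N (by omega)
  have hL3 : 3 ≤ Ln := (le_max_right _ _).trans hLM
  have hLp : 0 < Ln := by linarith
  have hLM1 : M1 ≤ Ln := (le_max_left _ _).trans hLM
  have hNe : (N : ℝ) = Real.exp Ln := (Real.exp_log hN0).symm
  have hlog1 : 1 ≤ Real.log Ln := by
    rw [Real.le_log_iff_exp_le hLp]
    have := Real.exp_one_lt_d9
    linarith
  -- the savings
  have hs0 : C1 + 2 * (k + 1) ≤ sav (c0 / 2) N := hN1' N (by omega)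
  have hk0 : (0 : ℝ) ≤ k := Nat.cast_nonneg k
  have hs00 : sav (c0 / 2) N * sav (c0 / 2) N = sav c0 N := by rw [sav_mul, add_halves]
  have hs2 : sav c2 N ≤ sav (c0 / 2) N := sav_mono hc2a hN16
  have hs1 : 1 ≤ sav c2 N := sav_one_le hc20.le hN16
  have hsC : C1 * sav c2 N ≤ sav c0 N := by
    rw [← hs00]
    exact mul_le_mul (by linarith) hs2 (sav_pos _ _).le (sav_pos _ _).le
  have hsk : (2 * (k + 1)) * sav c2 N ≤ sav c0 N := by
    rw [← hs00]
    exact mul_le_mul (by linarith) hs2 (sav_pos _ _).le (sav_pos _ _).le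
  have hs20 : sav c2 N ≤ sav c0 N := by
    refine le_trans ?_ hsC
    exact le_mul_of_one_le_left (sav_pos _ _).le hC1
  have hs10 : 1 ≤ sav c0 N := hs1.trans hs20
  have hs4 : 2 * sav (c2 / 2) N ≤ sav c2 N := by
    have e1 : sav (c2 / 2) N * sav (c2 / 2) N = sav c2 N := by rw [sav_mul, add_halves]
    rw [← e1]
    exact mul_le_mul_of_nonneg_right (hN4' N (by omega)) (sav_pos _ _).le
  have hs4' : sav (c2 / 2) N ≤ sav c2 N := sav_mono (by linarith) hN16
  -- the level
  have hQ3 : 3 ≤ Ql l' := by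
    have h1 : (3 : ℝ) ≤ Ql l' := by
      refine le_trans ?_ (Ql_ge (l := l') (by linarith))
      have := Real.add_one_le_exp (l' / 2 - 1)
      linarith
    exact_mod_cast h1
  have hQ100 : (Ql l' : ℝ) ^ 100 ≤ N := by
    calc (Ql l' : ℝ) ^ 100 ≤ Real.exp (l' / 2) ^ 100 := pow_le_pow_left₀ (Nat.cast_nonneg _) (Ql_le l') 100
      _ = Real.exp (100 * (l' / 2)) := by rw [← Real.exp_nat_mul]; push_cast; ring_nf
      _ ≤ N := by rw [hNe]; exact Real.exp_le_exp.2 (by linarith)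
  have hQN : Ql l' ≤ N := by
    have h1 : (Ql l' : ℝ) ≤ N := by
      refine le_trans ?_ hQ100
      exact le_self_pow₀ (by exact_mod_cast (by omega : 1 ≤ Ql l')) (by norm_num)
    exact_mod_cast h1
  have hsQ : sav c2 N ≤ Ql l' := by
    refine le_trans ?_ (Ql_ge (l := l') (by linarith))
    unfold sav
    apply Real.exp_le_exp.2
    have e1 : c2 * Ln / Real.log Ln ≤ l' / 4 := by
      calc c2 * Ln / Real.log Ln ≤ c' / (4 * κ) * Ln / Real.log Ln := by gcongr
        _ = (c' * Ln / Real.log Ln) / (4 * κ) := by field_simp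
        _ ≤ l / (4 * κ) := by gcongr
        _ = l' / 4 := by rw [hl']; field_simp
    linarith
  -- families at the scale
  have hfam : ∀ (x : ℕ) (s : ℕ → ℤ), Fam B P 𝓕 (sav c2 N) N x s → ∃ p : ℕ, 1 ≤ p ∧ p ≤ P' ∧
      (energy p x s : ℝ) * N ≤ sav c0 N * (x : ℝ) ^ (2 * p) := by
    intro x s hF
    obtain ⟨p, h1, h2, h3⟩ := hord B N x (sav c2 N) s (by omega) (sav_pos _ _).le hF
    exact ⟨p, h1, h2, h3.trans (mul_le_mul_of_nonneg_right hsC (by positivity))⟩
  have hfmono : ∀ (x : ℕ) (s : ℕ → ℤ), Fam B P 𝓕 (sav (c2 / 2) N) N x s → Fam B P 𝓕 (sav c2 N) N x s := by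
    rintro x s ⟨h1, h2⟩
    refine ⟨h1, ?_⟩
    rcases h2 with ⟨p, g1, g2, g3⟩ | ⟨f, g1, g2, g3, g4⟩
    · exact Or.inl ⟨p, g1, g2, g3.trans (mul_le_mul_of_nonneg_right hs4' (by positivity))⟩
    · exact Or.inr ⟨f, g1, g2, g3.trans (mul_le_mul_of_nonneg_right hs4' (by positivity)), g4⟩
  -- the tuples
  have hTP : TP k A B P 𝓕 (sav c2 N) N := by
    intro h0 hh0 x s hF
    choose p hp1 hp2 hp3 using fun i => hfam (x i) (s i) (hF i)
    have e1 := hcnt N l' (sav c0 N) hLM1 hs10 hQ3 hQN x p s (fun i => hGS.fam (p i) (hp1 i) (hp2 i))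
      (fun i => (hF i).1) hp3 h0 hh0 (fun m => (∀ i, 0 ≤ s i (m i)) ∧ Function.Injective (sh h0 s m) ∧
        ¬ HLn A N (sh h0 s m)) (by
      rintro m hm ⟨g1, g2, g3⟩
      by_contra hcon
      push Not at hcon
      apply g3
      intro X hX
      rw [Fintype.mem_piFinset] at hm
      have hnat : ∀ j, (s j (m j)).toNat ≤ B * N := by
        intro j
        have h1 := (abs_le.1 ((hF j).1 _ (hm j))).2
        have h2 : ((B * N : ℕ) : ℤ) = (B : ℤ) * N := by push_cast; ring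
        omega
      refine hsc N l (sav c0 N) c' P' hlL1 hGS h0 (fun i => (s i (m i)).toNat) hh0 hnat g2 (fun i hbd => ?_) X hX
      apply hcon i
      intro hall
      apply hbd
      intro X hX
      have e2 := hall X hX
      have e3 : s i (m i) = (((s i (m i)).toNat : ℕ) : ℤ) := (Int.toNat_of_nonneg (g1 i)).symm
      rw [e3] at e2
      exact e2)
    have e1' : num (Fintype.piFinset fun i => Icc 1 (x i)) (fun m => (∀ i, 0 ≤ s i (m i)) ∧ Function.Injective (sh h0 s m) ∧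
        ¬ HLn A N (sh h0 s m)) ≤ k * ((∏ i, (x i : ℝ)) / sav c0 N) := by
      unfold num
      convert e1
    refine e1'.trans ?_
    have e2 : (0 : ℝ) ≤ ∏ i, (x i : ℝ) := prod_nonneg fun _ _ => Nat.cast_nonneg _
    rw [← mul_div_assoc, div_le_div_iff₀ (sav_pos _ _) (sav_pos _ _)]
    calc (k : ℝ) * (∏ i, (x i : ℝ)) * sav c2 N = (∏ i, (x i : ℝ)) * (k * sav c2 N) := by ring
      _ ≤ (∏ i, (x i : ℝ)) * sav c0 N := by
          apply mul_le_mul_of_nonneg_left _ e2
          refine le_trans ?_ hsk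
          apply mul_le_mul_of_nonneg_right _ (sav_pos _ _).le
          linarith
  refine ⟨⟨Ql l', hs4'.trans hsQ, hQ100, ?_⟩, ?_, ?_⟩
  · -- the weights
    intro x s hF L hL a w ha hw
    obtain ⟨p, hp1, hp2, hp3⟩ := hfam x s (hfmono x s hF)
    have hA'1 : Ln ^ A ≤ Ln ^ A' := pow_le_pow_right₀ (by linarith) (by omega)
    have e1 := hGS.fam p hp1 hp2 x s hF.1 hp3 L (hL.trans (hs4'.trans hs20)) a w ha (fun i => (hw i).trans (by
      apply mul_le_mul_of_nonneg_left hA'1 hN0.le))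
    have e2 : (x : ℝ) / sav c0 N ≤ x / sav (c2 / 2) N :=
      div_le_div_of_nonneg_left (Nat.cast_nonneg _) (sav_pos _ _) (hs4'.trans hs20)
    refine le_trans ?_ (e1.trans e2)
    unfold num
    apply Nat.cast_le.2
    apply card_le_card
    intro m hm
    simp only [mem_filter] at hm ⊢
    refine ⟨hm.1, fun hcon => ?_⟩
    obtain ⟨i, hi⟩ := hm.2
    apply hi
    intro X hX
    have e3 := hcon i X hX
    have e4 := pp_small (ha i) hB (by omega) hX (hF.1 m hm.1) (w i) (hw i)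
    have e5 : ∑ n ∈ Icc 1 X, w i n * ((dz (Ql l') (a i * n + s m) : ℝ) : ℂ) =
        ∑ n ∈ Icc 1 X, w i n * exI (fun n => ((df l' n : ℝ) : ℂ)) (a i * n + s m) +
        ∑ n ∈ Icc 1 X, w i n * exI (fun n => ((ArithmeticFunction.vonMangoldt n - th n : ℝ) : ℂ)) (a i * n + s m) := by
      rw [← sum_add_distrib]
      apply sum_congr rfl
      intro n _
      rw [← mul_add]
      congr 1
      unfold dz exI
      split_ifs
      · beta_reduce
        rw [df_eq]; push_cast; ring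
      · simp
    rw [e5]
    refine (norm_add_le _ _).trans ?_
    have hLA : 0 < Ln ^ A := by positivity
    have e6 : (N : ℝ) / Ln ^ A' ≤ N / (2 * Ln ^ A) := by
      apply div_le_div_of_nonneg_left hN0.le (by positivity)
      calc 2 * Ln ^ A ≤ Ln * Ln ^ A := by gcongr; linarith
        _ = Ln ^ (A + 1) := by ring
        _ ≤ Ln ^ A' := pow_le_pow_right₀ (by linarith) (by omega)
    have hB1 : (1 : ℝ) ≤ B := by exact_mod_cast hB
    have hpow : 1024 * B * Ln ^ (2 * A + A + 3) ≤ Real.exp (l' / 100) := hpq l' (by linarith) Ln hLp.le hg2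
    have e7 : ‖∑ n ∈ Icc 1 X, w i n * exI (fun n => ((ArithmeticFunction.vonMangoldt n - th n : ℝ) : ℂ)) (a i * n + s m)‖ ≤
        N / (2 * Ln ^ A) := by
      have hM2 : ((2 * B * N : ℕ) : ℝ) = 2 * B * N := by push_cast; ring
      have hM0 : (0 : ℝ) < 2 * B * N := by positivity
      have hBexp : (2 * B : ℝ) ≤ Real.exp Ln := by
        have f1 : (2 * B : ℝ) ≤ 1024 * B * Ln ^ (2 * A + A + 3) := by
          have : (1 : ℝ) ≤ Ln ^ (2 * A + A + 3) := one_le_pow₀ (by linarith)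
          calc (2 * B : ℝ) ≤ 1024 * B * 1 := by linarith
            _ ≤ _ := by gcongr
        exact f1.trans (hpow.trans (Real.exp_le_exp.2 (by linarith)))
      have hlogM : Real.log ((2 * B * N : ℕ) : ℝ) ≤ 2 * Ln := by
        rw [hM2, Real.log_mul (by positivity) hN0.ne']
        have : Real.log (2 * B) ≤ Ln := by
          rw [Real.log_le_iff_le_exp (by positivity)]
          exact hBexp
        linarith
      have hsqM : √((2 * B * N : ℕ) : ℝ) ≤ 2 * B * Real.exp (Ln / 2) := by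
        rw [hM2, Real.sqrt_le_left (by positivity), mul_pow, ← Real.exp_nat_mul]
        have f2 : ((2 : ℕ) : ℝ) * (Ln / 2) = Ln := by push_cast; ring
        rw [f2, ← hNe]
        have f3 : (2 * B : ℝ) ≤ (2 * B) ^ 2 := le_self_pow₀ (by linarith) (by norm_num)
        exact mul_le_mul_of_nonneg_right f3 hN0.le
      have hlogM0 : 0 ≤ Real.log ((2 * B * N : ℕ) : ℝ) := Real.log_natCast_nonneg _
      have f1 : N * Ln ^ A * (Real.log ((2 * B * N : ℕ) : ℝ) * (2 * √((2 * B * N : ℕ) : ℝ) * Real.log ((2 * B * N : ℕ) : ℝ))) ≤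
          (N / (2 * Ln ^ A)) ^ 2 := by
        calc N * Ln ^ A * (Real.log ((2 * B * N : ℕ) : ℝ) * (2 * √((2 * B * N : ℕ) : ℝ) * Real.log ((2 * B * N : ℕ) : ℝ)))
            ≤ N * Ln ^ A * ((2 * Ln) * (2 * (2 * B * Real.exp (Ln / 2)) * (2 * Ln))) := by gcongr
          _ = N * Real.exp (Ln / 2) * (16 * B * Ln ^ (A + 2)) := by ring
          _ ≤ N * Real.exp (Ln / 2) * (Real.exp (Ln / 2) / (4 * Ln ^ (2 * A))) := by
              apply mul_le_mul_of_nonneg_left _ (by positivity)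
              rw [le_div_iff₀ (by positivity)]
              calc 16 * (B : ℝ) * Ln ^ (A + 2) * (4 * Ln ^ (2 * A)) = 64 * B * (Ln ^ (2 * A + A + 2) * 1) := by ring
                _ ≤ 1024 * B * (Ln ^ (2 * A + A + 2) * Ln) := by
                    have g1 : (64 : ℝ) * B ≤ 1024 * B := by linarith
                    have g2 : Ln ^ (2 * A + A + 2) * 1 ≤ Ln ^ (2 * A + A + 2) * Ln := by gcongr; linarith
                    exact mul_le_mul g1 g2 (by positivity) (by positivity)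
                _ = 1024 * B * Ln ^ (2 * A + A + 3) := by ring
                _ ≤ Real.exp (l' / 100) := hpow
                _ ≤ Real.exp (Ln / 2) := Real.exp_le_exp.2 (by linarith)
          _ = (N / (2 * Ln ^ A)) ^ 2 := by
              have g1 : Real.exp (Ln / 2) * Real.exp (Ln / 2) = N := by rw [← Real.exp_add, add_halves, ← hNe]
              calc N * Real.exp (Ln / 2) * (Real.exp (Ln / 2) / (4 * Ln ^ (2 * A))) =
                    N * (Real.exp (Ln / 2) * Real.exp (Ln / 2)) / (4 * Ln ^ (2 * A)) := by ring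
                _ = N * N / (4 * Ln ^ (2 * A)) := by rw [g1]
                _ = _ := by rw [div_pow, mul_pow, ← pow_mul, mul_comm A 2]; ring
      exact le_of_sq_le_sq (e4.trans f1) (by positivity)
    have e8 : (N : ℝ) / Ln ^ A = N / (2 * Ln ^ A) + N / (2 * Ln ^ A) := by field_simp; ring
    rw [e8]
    exact add_le_add (e3.trans e6) e7
  · -- the tuples, with the smaller saving
    intro h0 hh0 x s hF
    refine (hTP h0 hh0 x s (fun i => hfmono _ _ (hF i))).trans ?_
    exact div_le_div_of_nonneg_left (prod_nonneg fun _ _ => Nat.cast_nonneg _) (sav_pos _ _) hs4'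
  · -- the boxes
    intro M hM hNM
    have hNM' : (N : ℝ) ≤ sav c2 N * M := hNM.trans (mul_le_mul_of_nonneg_right hs4' (Nat.cast_nonneg _))
    refine (box_of hP hTP hM hNM').trans ?_
    have e1 : 2 * ((k : ℝ) + 1) ^ 2 * sav c2 N ≤ M := by
      refine (hN3' N (by omega)).trans ?_
      rw [div_le_iff₀ (sav_pos _ _), mul_comm]
      exact hNM'
    have e2 : ((k : ℝ) + 1) ^ 2 * (M : ℝ) ^ k ≤ (M : ℝ) ^ (k + 1) / sav c2 N := by
      rw [le_div_iff₀ (sav_pos _ _), pow_succ]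
      calc ((k : ℝ) + 1) ^ 2 * (M : ℝ) ^ k * sav c2 N = (M : ℝ) ^ k * (((k : ℝ) + 1) ^ 2 * sav c2 N) := by ring
        _ ≤ (M : ℝ) ^ k * M := by
            apply mul_le_mul_of_nonneg_left _ (by positivity)
            have : 0 ≤ ((k : ℝ) + 1) ^ 2 * sav c2 N := mul_nonneg (by positivity) (sav_pos _ _).le
            linarith
    calc ((k : ℝ) + 1) ^ 2 * (M : ℝ) ^ k + (M : ℝ) ^ (k + 1) / sav c2 N ≤
          2 * ((M : ℝ) ^ (k + 1) / sav c2 N) := by linarith
      _ ≤ (M : ℝ) ^ (k + 1) / sav (c2 / 2) N := by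
          rw [← mul_div_assoc, div_le_div_iff₀ (sav_pos _ _) (sav_pos _ _)]
          calc 2 * (M : ℝ) ^ (k + 1) * sav (c2 / 2) N = (M : ℝ) ^ (k + 1) * (2 * sav (c2 / 2) N) := by ring
            _ ≤ (M : ℝ) ^ (k + 1) * sav c2 N := by gcongr

end Pool.Agent.P8H14.PL
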